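import Pool.Agent.AG.Reg.Defs
import Pool.Agent.AG.Pair.Rule
import Pool.Agent.AG.Red.Ears
import Pool.Agent.AG.Red.S12

/-!
# Project AG: a minimal counterexample satisfies all hypotheses `Base` of sections 6-8
-/

set_option linter.unusedSectionVars false
set_option linter.unusedSimpArgs false

namespace AG

open Finset

variable {I : Type} [DecidableEq I]

namespace Obj

variable {S : Obj I} {pt : Sd I → Pt} {R : Set Pt}

theorem EarEnd.congr {p w : Sd I} (h : S.EarEnd p) (he : S.Eqv p w) : S.EarEnd w := by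
  obtain ⟨a, ha, h1⟩ := h
  exact ⟨a, ha, h1.imp (fun h => h.trans he) (fun h => h.trans he)⟩

/-- no blade at an ear end -/
theorem Cex.earEnd_bladeAt (hC : Cex S pt R) {p w : Sd I} (hp : S.EarEnd p)
    (hw : S.BladeAt pt w) : ¬ S.Eqv p w := by
  intro he
  have h1 := hp.congr he
  have hv : ∀ c, S.Cand pt c → S.g (rot w) = c → S.g (rot w) ≠ rot w → False := by
    intro c hc hcw _
    have := hC.cand_not_earEnd hc
    rw [← hcw, S.invol, unrot_rot] at this
    exact this h1
  rcases hw with h | h | h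
  · exact hC.blade_not_earEnd h h1
  · exact hv _ (Or.inl h) rfl h.glued
  · exact hv _ (Or.inr h) rfl h.glued

theorem Cex.base (hC : Cex S pt R) : Base S pt where
  conn := hC.conn
  bl := hC.bridgeless
  lin := Geo.linear hC.geo
  two := hC.two_le
  seg a b ha hb h1 h2 := Geo.eq_of_eqv hC.geo (S.memF a ha) (S.memF b hb) h1 h2
  tri a b ha hb h := (AG.Geo.eq_of_fst hC.geo ha hb (AG.Geo.pt_eqv hC.geo h).symm).symm
  pr c1 c2 d1 d2 _ _ he hne hd1 hd2 := by
    obtain ⟨h1, h2, _⟩ := pair_rule' hC hd1 hd2 he hne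
    obtain ⟨T, hT, e₁, e₂, h3, h4, h5, _⟩ := pair_rule hC hd1 hd2 he hne
    exact ⟨h1, h2, T, hT, e₁, e₂, h3, h4, h5⟩
  adj c1 c2 h1 h2 hst := adj_rule hC h1 h2 hst
  one w w' h h' hw := blade_one hC h h' hw
  earEnd p w hp hw := hC.earEnd_bladeAt hp hw
  ear_se a ha b hb := hC.not_two_ears ha hb

end Obj

end AG
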