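import Pool.Agent.AG.Blades
import Pool.Agent.AG.Fan
import Pool.Agent.AG.Cuts

/-!
# Project AG, block 6: definitions (pairs, regions, the sets which are counted)

Positions are those of Fan.lean: `S.ps a` = number of clockwise steps from the corner `a` to the
end of its fan; the glued sides at a visit are the glued corners `a` of the visit, the side `a` lies
between the positions `ps a - 1` and `ps a`.

`p = (w, w')` : a PAIR of blades at one visit, `w` is the one with the LOWER position
(clockwise), `w'` the one with the HIGHER position.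
-/

namespace AG

open Finset

variable {I : Type} [DecidableEq I]

namespace Obj

/-- virtual blade at the corner `w` -/
def Vir (S : Obj I) (pt : Sd I → Pt) (w : Sd I) : Prop := S.VirtA pt w ∨ S.VirtB pt w

/-- all facts of sections 1-5 which are used in section 6 -/
structure Base (S : Obj I) (pt : Sd I → Pt) : Prop where
  conn : S.Conn
  bl : S.Bridgeless
  lin : S.Linear
  two : 2 ≤ S.F.card
  /-- L3: a glued side is determined by the visits of its two ends -/
  seg : ∀ a b : Sd I, S.g a ≠ a → S.g b ≠ b → S.Eqv a b → S.Eqv (rot a) (rot b) → a = b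
  /-- the corners of one triangle lie in different visits -/
  tri : ∀ a b : Sd I, a.1 ∈ S.F → b.1 = a.1 → S.Eqv a b → a = b
  /-- pair rule -/
  pr : ∀ c1 c2 d1 d2 : Sd I, S.BladeAt pt c1 → S.BladeAt pt c2 → S.Eqv c1 c2 → c1 ≠ c2 →
    S.Stub pt c1 d1 → S.Stub pt c2 d2 → d1 ≠ d2 ∧ d1 ≠ S.g d2 ∧
      ∃ X ⊆ S.F, ∃ e1 e2, (e1 = d1 ∨ e1 = S.g d1) ∧ (e2 = d2 ∨ e2 = S.g d2) ∧ S.bd X = {e1, e2}
  adj : ∀ c1 c2 : Sd I, S.BladeAt pt c1 → S.BladeAt pt c2 → S.Step c1 c2 →
    S.VirtB pt c1 ∧ S.VirtA pt c2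
  one : ∀ w w' : Sd I, S.BladeAt pt w → S.BladeAt pt w' → w.1 = w'.1 → w = w'
  /-- at an ear end there is no blade -/
  earEnd : ∀ p w : Sd I, S.EarEnd p → S.BladeAt pt w → ¬ S.Eqv p w
  /-- no visit is the start of an ear and the end of an ear -/
  ear_se : ∀ a ∈ S.E, ∀ b ∈ S.E, ¬ S.Eqv a (rot b)

open Classical in
/-- the lower stub corner of the blade at `w` (`f_lo` of the text), position `ps w` or `ps w + 1` -/
noncomputable def lo (S : Obj I) (pt : Sd I → Pt) (w : Sd I) : Sd I :=
  if S.VirtB pt w then S.ccw w else w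

open Classical in
/-- the higher stub corner of the blade at `w` (`f_hi` of the text) -/
noncomputable def hi (S : Obj I) (pt : Sd I → Pt) (w : Sd I) : Sd I :=
  if S.VirtA pt w then w else S.ccw w

open Classical in
/-- the corner at `x` of the triangle `w.1` of a virtual blade -/
noncomputable def xc (S : Obj I) (pt : Sd I → Pt) (w : Sd I) : Sd I :=
  if S.VirtA pt w then rot w else unrot w

open Classical in
/-- the corner at `x` of the triangle `t` of a virtual blade -/
noncomputable def tc (S : Obj I) (pt : Sd I → Pt) (w : Sd I) : Sd I :=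
  if S.VirtA pt w then rot (S.g (rot w)) else S.g (rot w)

open Classical in
/-- the set `In_v(c,c')` of the text (see `IsIn`) -/
noncomputable def InS (S : Obj I) (c c' : Sd I) : Finset I :=
  if h : ∃ X, IsIn S c c' X then h.choose else ∅

/-- pair of blades at one visit, `w` has the lower position -/
structure Pr (S : Obj I) (pt : Sd I → Pt) (w w' : Sd I) : Prop where
  b : S.BladeAt pt w
  b' : S.BladeAt pt w'
  eqv : S.Eqv w w'
  lt : S.ps w < S.ps w'

/-- `A_p` of the text -/
noncomputable def pA (S : Obj I) (pt : Sd I → Pt) (w w' : Sd I) : Finset I :=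
  S.InS (S.hi pt w) (S.lo pt w')

/-- complement of `B_p` -/
noncomputable def pO (S : Obj I) (pt : Sd I → Pt) (w w' : Sd I) : Finset I :=
  S.InS (S.lo pt w) (S.hi pt w')

/-- `B_p` of the text -/
noncomputable def pB (S : Obj I) (pt : Sd I → Pt) (w w' : Sd I) : Finset I :=
  S.F \ S.pO pt w w'

/-- the pair is trivial: `A_p` is one eared triangle -/
def Triv (S : Obj I) (pt : Sd I → Pt) (w w' : Sd I) : Prop :=
  ∃ c, S.Eared c ∧ S.pA pt w w' = {c.1}

/-- consecutive pair -/
structure Cons (S : Obj I) (pt : Sd I → Pt) (w w' : Sd I) : Prop extends S.Pr pt w w' where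
  no : ∀ u, S.BladeAt pt u → S.Eqv w u → S.ps w < S.ps u → S.ps u < S.ps w' → False

/-- the chosen nontrivial pair with minimal `B` -/
structure OpenMin (S : Obj I) (pt : Sd I → Pt) (R : Set Pt) (w0 w0' : Sd I) : Prop where
  cex : Cex S pt R
  pr : S.Pr pt w0 w0'
  nt : ¬ S.Triv pt w0 w0'
  min : ∀ (S' : Obj I) (pt' : Sd I → Pt) (u u' : Sd I), Cex S' pt' R →
    S'.glued.card = S.glued.card → S'.Pr pt' u u' → ¬ S'.Triv pt' u u' →
    (S.pB pt w0 w0').card ≤ (S'.pB pt' u u').card

/-- closed case: all pairs are trivial -/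
structure ClosedMin (S : Obj I) (pt : Sd I → Pt) (R : Set Pt) : Prop where
  cex : Cex S pt R
  triv : ∀ u u', S.Pr pt u u' → S.Triv pt u u'

/-- the eared triangle with apex corner `c` is enclosed -/
def Enc (S : Obj I) (pt : Sd I → Pt) (c : Sd I) : Prop :=
  S.Eared c ∧ S.BladeAt pt (S.cw c) ∧ S.BladeAt pt (S.ccw c)

/-- the visit `z` meets `K` -/
def Meets (S : Obj I) (K : Finset I) (z : Sd I) : Prop := ∃ c : Sd I, S.Eqv c z ∧ c.1 ∈ K

/-- no blade at the visit `z` -/
def NoB (S : Obj I) (pt : Sd I → Pt) (z : Sd I) : Prop := ∀ w, S.BladeAt pt w → ¬ S.Eqv w z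

/-- `z` is the `x` of a b-like side of `A_p`, `p = (w, w')` -/
def BL (S : Obj I) (pt : Sd I → Pt) (w w' : Sd I) (z : Sd I) : Prop :=
  (S.VirtA pt w ∧ S.Eqv (S.xc pt w) z) ∨ (S.VirtB pt w' ∧ S.Eqv (S.xc pt w') z)

section sets

variable (S : Obj I) (pt : Sd I → Pt) (K : Finset I) (V : Sd I → Prop)

open Classical in
/-- all consecutive pairs with both triangles in `K`, not at the visit `V` -/
noncomputable def CP : Finset (Sd I × Sd I) :=
  (S.sides ×ˢ S.sides).filter (fun p => S.Cons pt p.1 p.2 ∧ p.1.1 ∈ K ∧ p.2.1 ∈ K ∧ ¬ V p.1)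

open Classical in
/-- the nontrivial ones -/
noncomputable def PIn : Finset (Sd I × Sd I) :=
  (S.CP pt K V).filter (fun p => ¬ S.Triv pt p.1 p.2)

open Classical in
/-- blades with triangle in `K`, not at the visit `V` -/
noncomputable def BlK : Finset (Sd I) :=
  S.sides.filter (fun w => S.BladeAt pt w ∧ w.1 ∈ K ∧ ¬ V w)

open Classical in
/-- virtual blades with triangle in `K`, not at the visit `V` -/
noncomputable def CandK : Finset (Sd I) :=
  S.sides.filter (fun w => S.Vir pt w ∧ w.1 ∈ K ∧ ¬ V w)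

open Classical in
/-- real blades in `K` -/
noncomputable def RealK : Finset (Sd I) :=
  S.sides.filter (fun c => S.Blade c ∧ c.1 ∈ K)

open Classical in
/-- eared triangles in `K` (apex corners) -/
noncomputable def EarsK : Finset (Sd I) :=
  S.sides.filter (fun c => S.Eared c ∧ c.1 ∈ K)

open Classical in
/-- not enclosed eared triangles in `K` (apex corners) -/
noncomputable def EarK : Finset (Sd I) :=
  S.sides.filter (fun c => S.Eared c ∧ c.1 ∈ K ∧ ¬ S.Enc pt c)

open Classical in
/-- visits (names) different from `V` which meet `K` -/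
noncomputable def WK : Finset (Sd I) :=
  S.vis.filter (fun z => ¬ V z ∧ S.Meets K z)

open Classical in
/-- visits different from `V` which meet `K`, with no blade triangle in `K` -/
noncomputable def Zr : Finset (Sd I) :=
  S.vis.filter (fun z => ¬ V z ∧ S.Meets K z ∧ ∀ w, S.BladeAt pt w → w.1 ∈ K → ¬ S.Eqv w z)

open Classical in
/-- torso: `K` without the sets `A_p`, `p` nontrivial consecutive pair in `K` -/
noncomputable def tau : Finset I :=
  K.filter (fun t => ∀ p ∈ S.PIn pt K V, t ∉ S.pA pt p.1 p.2)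

end sets

/-- a region `K` with a distinguished visit `V` (`ε = 1`: one-copy, `ε = 0`: open or closed) -/
structure Shape (S : Obj I) (K : Finset I) (V : Sd I → Prop) (ε : ℕ) : Prop where
  sub : K ⊆ S.F
  Vinv : ∀ a b, S.Eqv a b → V a → V b
  cnt : (S.WK K V).card = (S.vis.filter (fun a => a.1 ∈ K)).card + ε
  conv : ∀ a b c, S.Eqv a b → S.Eqv b c → ¬ V a → S.ps a ≤ S.ps b → S.ps b ≤ S.ps c →
    a.1 ∈ K → c.1 ∈ K → b.1 ∈ K
  noReal : ∀ c, S.Blade c → c.1 ∈ K → ¬ V c

/-- `z` is the `x` of a virtual blade at the visit of `v` with triangle in `K` -/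
def BLg (S : Obj I) (pt : Sd I → Pt) (K : Finset I) (v z : Sd I) : Prop :=
  ∃ w, S.Vir pt w ∧ S.Eqv w v ∧ w.1 ∈ K ∧ S.Eqv (S.xc pt w) z

/-- `z` is an end of the ear of the eared triangle with apex corner `c` -/
def EndOf (S : Obj I) (c z : Sd I) : Prop := S.Eqv (rot c) z ∨ S.Eqv (unrot c) z

end Obj

end AG
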