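import Pool.Agent.AG.Reg.Open

/-!
# Project AG, block 6: consequences of the torso theorem (D2, D2c, D4)
-/

set_option linter.unusedSectionVars false
set_option linter.unusedSimpArgs false
set_option linter.unusedVariables false

namespace AG

open Finset

variable {I : Type} [DecidableEq I]

namespace Obj

variable {S : Obj I} {pt : Sd I → Pt}

/-! ### trivial pairs -/

/-- if `A_p` is the eared triangle with apex corner `c` then `p = (cw c, ccw c)` -/
theorem Base.triv_eq (hB : Base S pt) {w w' c : Sd I} (h : S.Pr pt w w') (hc : S.Eared c)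
    (e : S.pA pt w w' = {c.1}) : w = S.cw c ∧ w' = S.ccw c ∧ S.hi pt w = c := by
  have iA := hB.isIn_pA h
  have hA : ¬ S.VirtA pt w := fun hA => by
    have h1 := (hB.mem_pA_left h).2 hA
    rw [e, mem_singleton] at h1
    exact h.b.not_eared hc h1
  have hB' : ¬ S.VirtB pt w' := fun hB' => by
    have h1 := (hB.mem_pA_right h).2 hB'
    rw [e, mem_singleton] at h1
    exact h.b'.not_eared hc h1
  have m1 : (S.hi pt w).1 = c.1 := by
    have := (mem_bd.1 iA.mem_left).2.1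
    rwa [e, mem_singleton] at this
  have m2 : (S.g (S.lo pt w')).1 = c.1 := by
    have := (mem_bd.1 iA.mem_right).2.1
    rwa [e, mem_singleton] at this
  have n1 : S.hi pt w ≠ rot c := fun h1 => by
    have := iA.gl
    rw [h1] at this
    exact this (S.earFree _ hc.2.2)
  have n2 : S.g (S.lo pt w') ≠ rot c := fun h1 => by
    have := g_ne_iff.2 iA.gl'
    rw [h1] at this
    exact this (S.earFree _ hc.2.2)
  have n3 : S.Eqv (S.hi pt w) (rot (S.g (S.lo pt w'))) := iA.eqv.trans (Eqv.of_glued iA.gl')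
  have lp := hB.loopless
  have hcF : c.1 ∈ S.F := S.memF _ hc.1
  have key : S.hi pt w = c ∧ S.g (S.lo pt w') = unrot c := by
    rcases eq_of_fst_eq m1 with h1 | h1 | h1 <;> rcases eq_of_fst_eq m2 with h2 | h2 | h2
    · rw [h1, h2] at n3; exact absurd n3 (lp c hcF)
    · exact absurd h2 n2
    · exact ⟨h1, h2⟩
    · exact absurd h1 n1
    · exact absurd h1 n1
    · exact absurd h1 n1
    · rw [h1, h2] at n3
      have := hB.tri (unrot c) (rot c) hcF rfl n3
      exact absurd this (unrot_ne_rot c)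
    · exact absurd h2 n2
    · rw [h1, h2, rot_unrot] at n3
      have := hB.tri (unrot c) c hcF rfl n3
      exact absurd this (unrot_ne c)
  obtain ⟨k1, k2⟩ := key
  refine ⟨?_, ?_, k1⟩
  · rw [← k1, hi_of_not_A hA, cw_ccw h.b.glued']
  · rw [lo_of_not_B hB'] at k2
    rw [← S.invol w', k2]
    exact (ccw_of_glued hc.2.1).symm

theorem Base.triv_enc (hB : Base S pt) {w w' c : Sd I} (h : S.Pr pt w w') (hc : S.Eared c)
    (e : S.pA pt w w' = {c.1}) : S.Enc pt c := by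
  obtain ⟨h1, h2, -⟩ := hB.triv_eq h hc e
  exact ⟨hc, h1 ▸ h.b, h2 ▸ h.b'⟩

/-- the neighbour of an eared triangle of `A_p` is in `A_p` or a blade triangle of the pair -/
theorem Base.ear_nbr (hB : Base S pt) {w w' c b : Sd I} (h : S.Pr pt w w') (hc : S.Eared c)
    (hm : c.1 ∈ S.pA pt w w') (hb : b.1 = c.1) (hg : S.g b ≠ b) :
    (S.g b).1 ∈ S.pA pt w w' ∨ (S.g b).1 = w.1 ∨ (S.g b).1 = w'.1 := by
  have iA := hB.isIn_pA h
  by_cases h1 : (S.g b).1 ∈ S.pA pt w w'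
  · exact Or.inl h1
  right
  have h2 : b ∈ S.bd (S.pA pt w w') := mem_bd.2 ⟨hg, by rw [hb]; exact hm, h1⟩
  rw [iA.bd, mem_insert, mem_singleton] at h2
  rcases h2 with h2 | h2
  · left
    rcases h.b.tri_hi with h3 | h3
    · exfalso
      rw [← h2, hb] at h3
      exact h.b.not_eared hc h3.symm
    · rw [h2]; exact h3
  · right
    rcases h.b'.tri_lo with h3 | h3
    · rw [h2, S.invol]; exact h3
    · exfalso
      rw [← h2, hb] at h3
      exact h.b'.not_eared hc h3.symm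

namespace Env

variable {R : Finset I} {V : Sd I → Prop} {p q : Sd I × Sd I}

/-! ### D2 -/

theorem vir_in_kid (hE : Env S pt R V) {w : Sd I} (hw : S.Vir pt w) (hR : w.1 ∈ R) (hV : ¬ V w) :
    ∃ d ∈ S.kids pt R V, w.1 ∈ S.pA pt d.1 d.2 := by
  classical
  by_contra hcon
  push Not at hcon
  have h1 := hE.adm_R.torso hE
  have h2 : w ∈ S.candT pt R V (S.kids pt R V) (fun q => S.pA pt q.1 q.2) := by
    rw [candT, mem_filter]
    exact ⟨mem_CandK.2 ⟨hw, hR, hV⟩, fun q hq => hcon q hq⟩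
  have := card_pos.2 ⟨w, h2⟩
  omega

theorem eared_in_kid (hE : Env S pt R V) {c : Sd I} (hc : S.Eared c) (hR : c.1 ∈ R) :
    ∃ d ∈ S.kids pt R V, c.1 ∈ S.pA pt d.1 d.2 := by
  classical
  by_contra hcon
  push Not at hcon
  have h1 := hE.adm_R.torso hE
  have h2 : c ∈ S.earsT R (S.kids pt R V) (fun q => S.pA pt q.1 q.2) := by
    rw [earsT, mem_filter]
    exact ⟨mem_EarsK.2 ⟨hc, hR⟩, fun q hq => hcon q hq⟩
  have := card_pos.2 ⟨c, h2⟩
  omega

theorem zr_in_kid (hE : Env S pt R V) {z : Sd I} (hz : z ∈ S.Zr pt R V) :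
    ∃ d ∈ S.kids pt R V, S.Meets (S.pA pt d.1 d.2) z ∧ ¬ S.BL pt d.1 d.2 z := by
  classical
  by_contra hcon
  push Not at hcon
  have h1 := hE.adm_R.torso hE
  have h2 : z ∈ S.zrT pt R V (S.kids pt R V) (fun q => S.pA pt q.1 q.2) (fun q => q.1) := by
    rw [zrT, mem_filter]
    refine ⟨hz, fun q hq hm => ?_, fun c hc he => ?_⟩
    · exact (hE.base.BLg_iff (mem_CP.1 (kids_sub hq)).1).2 (hcon q hq hm)
    · have := card_pos.2 ⟨c, hc⟩
      omega
  have := card_pos.2 ⟨z, h2⟩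
  omega

/-- (D2) for virtual blades -/
theorem d2_vir (hE : Env S pt R V) {w : Sd I} (hw : S.Vir pt w) (hR : w.1 ∈ R) (hV : ¬ V w) :
    ∃ p ∈ S.PIn pt R V, p ∈ S.kids pt R V ∧ w.1 ∈ S.pA pt p.1 p.2 := by
  obtain ⟨d, hd, hm⟩ := hE.vir_in_kid hw hR hV
  refine ⟨d, mem_PIn.2 ⟨kids_sub hd, ?_⟩, hd, hm⟩
  rintro ⟨c, hc, e⟩
  rw [e, mem_singleton] at hm
  exact hw.bladeAt.not_eared hc hm

/-- (D2) for eared triangles -/
theorem d2_ear (hE : Env S pt R V) {c : Sd I} (hc : S.Eared c) (hR : c.1 ∈ R)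
    (hn : ¬ S.Enc pt c) : ∃ p ∈ S.PIn pt R V, p ∈ S.kids pt R V ∧ c.1 ∈ S.pA pt p.1 p.2 := by
  obtain ⟨d, hd, hm⟩ := hE.eared_in_kid hc hR
  refine ⟨d, mem_PIn.2 ⟨kids_sub hd, ?_⟩, hd, hm⟩
  rintro ⟨c', hc', e⟩
  have h1 := hm
  rw [e, mem_singleton] at h1
  have h2 := hc.unique hc' h1
  subst h2
  exact hn (hE.base.triv_enc (mem_CP.1 (kids_sub hd)).1.toPr hc e)

/-- both neighbours of an eared triangle of `R` are in `R` -/
theorem ear_nbr (hE : Env S pt R V) {c b : Sd I} (hc : S.Eared c) (hR : c.1 ∈ R)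
    (hb : b.1 = c.1) (hg : S.g b ≠ b) : (S.g b).1 ∈ R := by
  obtain ⟨d, hd, hm⟩ := hE.eared_in_kid hc hR
  have hd' := kids_sub hd
  obtain ⟨h1, h2, h3, h4⟩ := mem_CP.1 hd'
  rcases hE.base.ear_nbr h1.toPr hc hm hb hg with h | h | h
  · exact hE.subA d hd' h
  · rw [h]; exact h2
  · rw [h]; exact h3

/-- (D2c) -/
theorem d2c (hE : Env S pt R V) {z : Sd I} (hz : S.NoB pt z) (hne : ¬ S.EarEnd z)
    (hm : S.Meets R z) : ∃ p ∈ S.PIn pt R V, p ∈ S.kids pt R V ∧
      S.Meets (S.pA pt p.1 p.2) z ∧ ¬ S.BL pt p.1 p.2 z := by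
  have hB := hE.base
  have hl := hB.lin
  -- the name of the visit
  obtain ⟨c0, hc0, hc0R⟩ := hm
  have hlast : S.Eqv z (S.last z) := last_eqv S z
  have hF : (S.last z).1 ∈ S.F := by
    have h1 : S.last z = S.last c0 := ((eqv_iff hl).1 hc0).symm
    rw [h1]
    exact (mem_vis.1 (last_mem_vis hl (mem_sides.2 (hE.shape.sub hc0R)))).1
  have hzr : S.last z ∈ S.Zr pt R V := by
    rw [mem_Zr]
    refine ⟨⟨hF, last_unglued hl z⟩, fun hV => ?_, ⟨c0, hc0.trans hlast, hc0R⟩,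
      fun w hw _ he => hz w hw (he.trans hlast.symm)⟩
    obtain ⟨w, hw, he⟩ := hE.Vbl _ hV
    exact hz w hw (he.trans hlast.symm)
  obtain ⟨d, hd, ⟨e, he, heA⟩, hnb⟩ := hE.zr_in_kid hzr
  have he' : S.Eqv e z := he.trans hlast.symm
  have cd := (mem_CP.1 (kids_sub hd)).1
  refine ⟨d, mem_PIn.2 ⟨kids_sub hd, ?_⟩, hd, ⟨e, he', heA⟩, fun h => hnb ?_⟩
  · rintro ⟨c, hc, eA⟩
    rw [eA, mem_singleton] at heA
    rcases eq_of_fst_eq heA with h1 | h1 | h1
    · -- the apex is at the visit of the pair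
      have h2 := (hB.triv_eq cd.toPr hc eA).2.2
      refine hz d.1 cd.toPr.b (cd.toPr.b.eqv_hi.trans ?_)
      rw [h2, ← h1]; exact he'
    · exact hne ⟨rot c, hc.2.2, Or.inl (by rw [← h1]; exact he')⟩
    · exact hne ⟨rot c, hc.2.2, Or.inr (by rw [rot_rot, ← h1]; exact he')⟩
  · rcases h with ⟨h1, h2⟩ | ⟨h1, h2⟩
    · exact Or.inl ⟨h1, h2.trans hlast⟩
    · exact Or.inr ⟨h1, h2.trans hlast⟩

/-- a face at a visit without blades and ear ends is in some `A_p` -/
theorem face_in (hE : Env S pt R V) (hVR : ∀ u, S.BladeAt pt u → V u → u.1 ∉ R) {z u : Sd I}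
    (hz : S.NoB pt z) (hne : ¬ S.EarEnd z) (hu : S.Eqv u z) (hR : u.1 ∈ R) (hf : S.Face u.1) :
    ∃ p ∈ S.PIn pt R V, p ∈ S.kids pt R V ∧ u.1 ∈ S.pA pt p.1 p.2 := by
  have hB := hE.base
  obtain ⟨d, hd, hk, ⟨e, he, heA⟩, hnb⟩ := hE.d2c hz hne ⟨u, hu, hR⟩
  have hdCP := (mem_PIn.1 hd).1
  have cd := (mem_CP.1 hdCP).1
  by_cases hm : u.1 ∈ S.pA pt d.1 d.2
  · exact ⟨d, hd, hk, hm⟩
  have hnv : ¬ S.Eqv d.1 e := fun h => hz d.1 cd.toPr.b (h.trans he)
  have vir_case : ∀ w : Sd I, S.Vir pt w → u.1 = w.1 →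
      ∃ p ∈ S.PIn pt R V, p ∈ S.kids pt R V ∧ u.1 ∈ S.pA pt p.1 p.2 := by
    intro w hw h1
    rw [h1] at hR ⊢
    exact hE.d2_vir hw hR (fun hV => hVR w hw.bladeAt hV hR)
  rcases hB.out_cases cd hnv he heA hu hm with h | ⟨h, h'⟩ | ⟨h, h' | h'⟩ | ⟨h, h'⟩ | ⟨h, h' | h'⟩
  · exact absurd ((hB.BLg_iff cd).1 h) hnb
  · exact absurd (by rw [h'] at hf; exact hf) h.not_face
  · exact vir_case d.2 (Or.inl h) (by rw [h']; rfl)
  · exact absurd (by rw [h'] at hf; exact hf) h.blade.not_face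
  · exact absurd (by rw [h'] at hf; exact hf) h.not_face
  · exact vir_case d.1 (Or.inr h) (by rw [h']; rfl)
  · exact absurd (by rw [h'] at hf; exact hf) h.blade.not_face

/-! ### D4 -/

/-- `|Cand_R| + |Ears_R| ≤ |CP_R|` -/
theorem card_cand (hE : Env S pt R V) :
    (S.CandK pt R V).card + (S.EarsK R).card ≤ (S.CP pt R V).card := by
  classical
  have hF : S.Fam pt R V (∅ : Finset (Sd I × Sd I)) (fun q => S.pA pt q.1 q.2) (fun q => q.1) := by
    refine ⟨?_, ?_, ?_, ?_, ?_, ?_, fun z hz hV => ?_, ?_, ?_⟩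
    · intro i hi; simp at hi
    · intro i hi; simp at hi
    · intro i hi; simp at hi
    · intro i hi; simp at hi
    · intro i hi; simp at hi
    · intro i hi; simp at hi
    · obtain ⟨w, hw, he⟩ := hE.Vbl z hV
      exact hz w hw he
    · intro i hi; simp at hi
    · intro i hi; simp at hi
  have h1 := hE.base.torso_le hE.shape hF
  have h2 : S.candT pt R V (∅ : Finset (Sd I × Sd I)) (fun q => S.pA pt q.1 q.2) =
      S.CandK pt R V := by
    rw [candT, filter_true_of_mem]; intro x _ i hi; simp at hi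
  have h3 : S.earsT R (∅ : Finset (Sd I × Sd I)) (fun q => S.pA pt q.1 q.2) = S.EarsK R := by
    rw [earsT, filter_true_of_mem]; intro x _ i hi; simp at hi
  rw [h2, h3, sum_empty] at h1
  omega

end Env

/-! ### R has no a-like side -/

/-- (D2) no blade of the visit `v0` has its triangle in `R` -/
theorem OpenMin.no_blade {w0 w0' : Sd I} {R : Set Pt} (hO : OpenMin S pt R w0 w0')
    (hB : Base S pt) {u : Sd I} (hu : S.BladeAt pt u) (he : S.Eqv w0 u) :
    u.1 ∉ S.pB pt w0 w0' := by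
  intro hR
  have hE := hO.env hB
  have hl := hB.lin
  rcases hO.blade_at hB hu he hR with ⟨rfl, hw⟩ | ⟨rfl, hw⟩
  · -- `w0` of type B
    have hx : S.Eqv (unrot u) (S.last (unrot u)) := last_eqv S _
    have t1 : S.Eqv (unrot u) (S.g (rot u)) := by
      have := Eqv.of_glued' (S := S) hw.glued_rot
      rwa [rot_rot] at this
    -- no blade of `R` at the visit of `x`
    have nb : ∀ w, S.BladeAt pt w → w.1 ∈ S.pB pt u w0' → ¬ S.Eqv w (unrot u) := by
      intro w hwb hwR hwe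
      rcases hO.no_blade_xB hB hw hwe.symm hwR with h5 | h5
      · have h6 := hB.one _ _ hwb hu (by rw [h5]; rfl)
        rw [h6] at h5
        exact unrot_ne _ h5.symm
      · have h6 := hB.one _ _ hwb (Or.inl hw.blade) (by rw [h5]; rfl)
        rw [h6] at h5
        exact rot_ne _ h5
    have hzr : S.last (unrot u) ∈ S.Zr pt (S.pB pt u w0') (S.Eqv u) := by
      rw [mem_Zr]
      refine ⟨⟨(mem_vis.1 (last_mem_vis hl (mem_sides.2 (by exact hu.memF)))).1, last_unglued hl _⟩, fun hV => ?_,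
        ⟨unrot u, hx, hR⟩, fun w hwb hwR hwe => nb w hwb hwR (hwe.trans hx.symm)⟩
      exact unrot_ne u (hB.tri u (unrot u) hu.memF rfl (hV.trans hx.symm)).symm
    obtain ⟨d, hd, ⟨e, hez, heA⟩, hnb⟩ := hE.zr_in_kid hzr
    have hdCP := kids_sub hd
    obtain ⟨cd, d1R, d2R, dV⟩ := mem_CP.1 hdCP
    have iA := hB.isIn_pA cd.toPr
    have heR := hE.subA d hdCP heA
    have hn0 : u.1 ∉ S.pA pt d.1 d.2 := hE.noV d hdCP u hu (Eqv.refl _ _)
    rcases hO.no_blade_xB hB hw (hx.trans hez.symm) heR with h5 | h5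
    · exact hn0 (by rw [h5] at heA; exact heA)
    · rw [h5] at heA
      have h6 : S.g (rot u) ∈ S.bd (S.pA pt d.1 d.2) :=
        mem_bd.2 ⟨g_ne_iff.2 hw.glued_rot, heA, by rw [S.invol]; exact hn0⟩
      rw [iA.bd, mem_insert, mem_singleton] at h6
      rcases h6 with h6 | h6
      · refine nb d.1 cd.toPr.b d1R (cd.toPr.b.eqv_hi.trans ?_)
        rw [← h6]; exact t1.symm
      · have h7 : S.Eqv d.1 (rot (S.g (rot u))) := by
          rw [h6]
          exact (cd.toPr.eqv.trans cd.toPr.b'.eqv_lo).trans (Eqv.of_glued iA.gl')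
        rcases hB.blade_in_pA cd (Or.inl hw.blade) h7 heA with ⟨h8, h9⟩ | ⟨h8, h9⟩
        · rw [← h8] at h9; exact hw.blade.not_A h9
        · rw [← h8] at h9; exact hw.blade.not_B h9
  · -- `w0'` of type A
    have hx : S.Eqv (rot u) (S.last (rot u)) := last_eqv S _
    have t1 : S.Eqv (rot u) (rot (S.g (rot u))) := Eqv.of_glued hw.glued_rot
    have nb : ∀ w, S.BladeAt pt w → w.1 ∈ S.pB pt w0 u → ¬ S.Eqv w (rot u) := by
      intro w hwb hwR hwe
      rcases hO.no_blade_xA hB hw hwe.symm hwR with h5 | h5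
      · have h6 := hB.one _ _ hwb hu (by rw [h5]; rfl)
        rw [h6] at h5
        exact rot_ne _ h5.symm
      · have h6 := hB.one _ _ hwb (Or.inl hw.blade) (by rw [h5]; rfl)
        rw [h6] at h5
        exact rot_ne _ h5.symm
    have hzr : S.last (rot u) ∈ S.Zr pt (S.pB pt w0 u) (S.Eqv w0) := by
      rw [mem_Zr]
      refine ⟨⟨(mem_vis.1 (last_mem_vis hl (mem_sides.2 (by exact hu.memF)))).1, last_unglued hl _⟩, fun hV => ?_,
        ⟨rot u, hx, hR⟩, fun w hwb hwR hwe => nb w hwb hwR (hwe.trans hx.symm)⟩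
      exact rot_ne u (hB.tri u (rot u) hu.memF rfl (he.symm.trans (hV.trans hx.symm))).symm
    obtain ⟨d, hd, ⟨e, hez, heA⟩, hnb⟩ := hE.zr_in_kid hzr
    have hdCP := kids_sub hd
    obtain ⟨cd, d1R, d2R, dV⟩ := mem_CP.1 hdCP
    have iA := hB.isIn_pA cd.toPr
    have heR := hE.subA d hdCP heA
    have hn0 : u.1 ∉ S.pA pt d.1 d.2 := hE.noV d hdCP u hu he
    rcases hO.no_blade_xA hB hw (hx.trans hez.symm) heR with h5 | h5
    · exact hn0 (by rw [h5] at heA; exact heA)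
    · rw [h5] at heA
      have h6 : S.g (rot u) ∈ S.bd (S.pA pt d.1 d.2) :=
        mem_bd.2 ⟨g_ne_iff.2 hw.glued_rot, heA, by rw [S.invol]; exact hn0⟩
      rw [iA.bd, mem_insert, mem_singleton] at h6
      rcases h6 with h6 | h6
      · have h7 : S.Eqv d.1 (S.g (rot u)) := by
          rw [h6]; exact cd.toPr.b.eqv_hi
        rcases hB.blade_in_pA cd (Or.inl hw.blade) h7 heA with ⟨h8, h9⟩ | ⟨h8, h9⟩
        · rw [← h8] at h9; exact hw.blade.not_A h9
        · rw [← h8] at h9; exact hw.blade.not_B h9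
      · refine nb d.1 cd.toPr.b d1R ?_
        refine (cd.toPr.eqv.trans cd.toPr.b'.eqv_lo).trans ?_
        refine (Eqv.of_glued iA.gl').trans ?_
        rw [← h6]; exact t1.symm

/-- in the open case: no a-like sides -/
theorem OpenMin.not_B {w0 w0' : Sd I} {R : Set Pt} (hO : OpenMin S pt R w0 w0')
    (hB : Base S pt) : ¬ S.VirtB pt w0 := by
  intro h
  apply hO.no_blade hB hO.pr.b (Eqv.refl _ _)
  refine mem_sdiff.2 ⟨hO.pr.b.memF, ?_⟩
  rw [hO.memO hB (Eqv.refl _ _), lo_of_B h, ps_ccw hB.lin hO.pr.b.glued']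
  omega

theorem OpenMin.not_A {w0 w0' : Sd I} {R : Set Pt} (hO : OpenMin S pt R w0 w0')
    (hB : Base S pt) : ¬ S.VirtA pt w0' := by
  intro h
  apply hO.no_blade hB hO.pr.b' hO.pr.eqv
  refine mem_sdiff.2 ⟨hO.pr.b'.memF, ?_⟩
  rw [hO.memO hB hO.pr.eqv, hi_of_A h]
  omega

end Obj

end AG
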