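import Pool.Agent.AG.Reg.Env

/-!
# Project AG, block 6: children, the torso inequality for `R` and for the `A_p`
-/

set_option linter.unusedSectionVars false
set_option linter.unusedSimpArgs false
set_option linter.unusedVariables false

namespace AG

open Finset

variable {I : Type} [DecidableEq I]

namespace Obj

variable {S : Obj I} {pt : Sd I → Pt}

theorem eqv_congr {a b : Sd I} (h : S.Eqv a b) : S.Eqv a = S.Eqv b := by
  funext c
  exact propext ⟨fun h1 => h.symm.trans h1, fun h1 => h.trans h1⟩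

/-- `A_p` is a region at the visit of `p` -/
theorem Base.shape_pA (hB : Base S pt) {w w' : Sd I} (h : S.Cons pt w w') :
    S.Shape (S.pA pt w w') (S.Eqv w) 1 := by
  rw [eqv_congr h.toPr.b.eqv_hi]
  refine hB.shape_in (hB.isIn_pA h.toPr) (fun u hu he hm => ?_)
  rcases hB.blade_in_pA h (Or.inl hu) (h.toPr.b.eqv_hi.trans he) hm with h1 | h1
  · rw [← h1.1] at h1; exact hu.not_A h1.2
  · rw [← h1.1] at h1; exact hu.not_B h1.2

/-- children: the maximal sets `A_q` of the region -/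
noncomputable def kids (S : Obj I) (pt : Sd I → Pt) (K : Finset I) (V : Sd I → Prop) :
    Finset (Sd I × Sd I) := maxs (S.CP pt K V) (fun q => S.pA pt q.1 q.2)

/-- admissible regions `(K, W)` in the environment `(R, V)` -/
structure Adm (S : Obj I) (pt : Sd I → Pt) (R : Finset I) (V : Sd I → Prop) (K : Finset I)
    (W : Sd I → Prop) (ε : ℕ) : Prop where
  shape : S.Shape K W ε
  Wbl : ∀ z, W z → ∃ w, S.BladeAt pt w ∧ S.Eqv w z
  mem : ∀ q ∈ S.CP pt K W, q ∈ S.CP pt R V ∧ S.pA pt q.1 q.2 ⊆ K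
  down : ∀ q ∈ S.CP pt K W, ∀ q' ∈ S.CP pt R V, S.pA pt q'.1 q'.2 ⊂ S.pA pt q.1 q.2 →
    q' ∈ S.CP pt K W
  virW : ∀ q ∈ S.CP pt K W, ∀ w, S.Vir pt w → w.1 ∈ S.pA pt q.1 q.2 → ¬ W w

namespace Env

variable {R : Finset I} {V : Sd I → Prop} {p q : Sd I × Sd I}

theorem adm_R (hE : Env S pt R V) : Adm S pt R V R V 0 where
  shape := hE.shape
  Wbl := hE.Vbl
  mem q hq := ⟨hq, hE.subA q hq⟩
  down q _ q' hq' _ := hq'
  virW q hq w hw hm hV := hE.noV q hq w hw.bladeAt hV hm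

theorem adm_pA (hE : Env S pt R V) (hp : p ∈ S.CP pt R V) :
    Adm S pt R V (S.pA pt p.1 p.2) (S.Eqv p.1) 1 := by
  have hB := hE.base
  have cp := (mem_CP.1 hp).1
  refine ⟨hB.shape_pA cp, fun z hz => ⟨p.1, cp.toPr.b, hz⟩, fun q hq => ?_, fun q hq q' hq' hs => ?_,
    fun q hq w hw hm hV => ?_⟩
  · have := hE.ssubset_of_mem hp hq
    exact ⟨this.1, this.2.1⟩
  · have := hE.ssubset_of_mem hp hq
    exact hE.mem_of_ssubset hp hq' (hs.trans this.2)
  · have h1 := hE.ssubset_of_mem hp hq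
    have cq := (mem_CP.1 hq).1
    have hv := (mem_CP.1 hq).2.2.2
    have h2 : ¬ S.Eqv (S.hi pt p.1) (S.hi pt q.1) := fun h =>
      hv ((cp.toPr.b.eqv_hi.trans h).trans cq.toPr.b.eqv_hi.symm)
    exact hB.fan (hB.isIn_pA cp.toPr) (hB.isIn_pA cq.toPr) h2 h1.2.1
      (cp.toPr.b.eqv_hi.symm.trans hV) (h1.2.1 hm) hm

end Env

namespace Adm

variable {R : Finset I} {V : Sd I → Prop} {K : Finset I} {W : Sd I → Prop} {ε : ℕ}
  {p q : Sd I × Sd I}

theorem lam (hE : Env S pt R V) (hA : Adm S pt R V K W ε) :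
    ∀ p ∈ S.CP pt K W, ∀ q ∈ S.CP pt K W, p ≠ q →
      Disjoint (S.pA pt p.1 p.2) (S.pA pt q.1 q.2) ∨ S.pA pt p.1 p.2 ⊂ S.pA pt q.1 q.2 ∨
        S.pA pt q.1 q.2 ⊂ S.pA pt p.1 p.2 := fun p hp q hq hne =>
  hE.lam (hA.mem p hp).1 (hA.mem q hq).1 hne

theorem card_CP (hE : Env S pt R V) (hA : Adm S pt R V K W ε) :
    (S.CP pt K W).card =
      ∑ d ∈ S.kids pt K W, ((S.CP pt (S.pA pt d.1 d.2) (S.Eqv d.1)).card + 1) := by
  classical
  rw [lam_card (S.CP pt K W) (fun q => S.pA pt q.1 q.2)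
    (fun p hp => hE.base.pA_nonempty (mem_CP.1 hp).1.toPr) (hA.lam hE)]
  refine sum_congr rfl fun d hd => ?_
  have hd' := (mem_maxs.1 hd).1
  congr 2
  ext q
  rw [mem_filter, hE.mem_CP_pA (hA.mem d hd').1]
  constructor
  · exact fun h => ⟨(hA.mem q h.1).1, h.2⟩
  · exact fun h => ⟨hA.down d hd' q h.1 h.2, h.2⟩

/-- the family of the children -/
theorem fam (hE : Env S pt R V) (hA : Adm S pt R V K W ε) :
    S.Fam pt K W (S.kids pt K W) (fun q => S.pA pt q.1 q.2) (fun q => q.1) := by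
  have hB := hE.base
  have hk : ∀ q ∈ S.kids pt K W, q ∈ S.CP pt K W := fun q hq => (mem_maxs.1 hq).1
  have hc : ∀ q ∈ S.kids pt K W, S.Cons pt q.1 q.2 := fun q hq => (mem_CP.1 (hk q hq)).1
  refine ⟨fun q hq => (hA.mem q (hk q hq)).2, fun p hp q hq hne => ?_, fun q hq => ?_,
    fun q hq => (mem_CP.1 (hk q hq)).2.2.2, fun q hq => hA.virW q (hk q hq), fun q hq z hz => ?_,
    fun z hz hW => ?_, fun p hp q hq hne z hz h1 h2 => ?_, fun q hq c hc1 hcK hcA z hz hm => ?_⟩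
  · exact maxs_disjoint (hA.lam hE) hp hq hne
  · exact hB.shape_pA (hc q hq)
  · exact hB.zA (hc q hq) hz
  · obtain ⟨w, hw, he⟩ := hA.Wbl z hW
    exact hz w hw he
  · exact hB.zB (hc p hp) (hc q hq) (maxs_disjoint (hA.lam hE) hp hq hne) hz h1 h2
  · exact hB.zE (hc q hq) hc1 hcA hz hm

/-- TORSO THEOREM -/
theorem torso (hE : Env S pt R V) (hA : Adm S pt R V K W ε) :
    (S.candT pt K W (S.kids pt K W) (fun q => S.pA pt q.1 q.2)).card +
      (S.earsT K (S.kids pt K W) (fun q => S.pA pt q.1 q.2)).card +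
      (S.zrT pt K W (S.kids pt K W) (fun q => S.pA pt q.1 q.2) (fun q => q.1)).card ≤ ε := by
  have h1 := hE.base.torso_le hA.shape (hA.fam hE)
  have h2 := hA.card_CP hE
  omega

/-- every pair is contained in a child -/
theorem exists_kid (hp : p ∈ S.CP pt K W) : ∃ d ∈ S.kids pt K W,
    S.pA pt p.1 p.2 ⊆ S.pA pt d.1 d.2 := by
  obtain ⟨d, hd, h⟩ := exists_maxs (A := fun q : Sd I × Sd I => S.pA pt q.1 q.2) hp
  refine ⟨d, hd, ?_⟩
  rcases h with h | h
  · rw [h]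
  · exact h.1

end Adm

theorem kids_sub {K : Finset I} {W : Sd I → Prop} : S.kids pt K W ⊆ S.CP pt K W := fun q hq =>
  (mem_maxs.1 hq).1

end Obj

end AG
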