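import Pool.Agent.AG.Reg.Defs

/-!
# Project AG, block 6: first facts on blades, stubs, pairs
-/

set_option linter.unusedSectionVars false
set_option linter.unusedSimpArgs false
set_option linter.unusedVariables false

namespace AG

open Finset

variable {I : Type} [DecidableEq I]

namespace Obj

variable {S : Obj I} {pt : Sd I → Pt} {a b c d w w' u z : Sd I}

/-! ### kinds of blades -/

theorem VirtA.blade (h : S.VirtA pt w) : S.Blade (S.g (rot w)) := h.1

theorem VirtB.blade (h : S.VirtB pt w) : S.Blade (rot (S.g (rot w))) := h.1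

theorem VirtA.glued_rot (h : S.VirtA pt w) : S.g (rot w) ≠ rot w := by
  have h1 := h.2.1.1
  rwa [S.invol, ne_comm] at h1

theorem VirtB.glued_rot (h : S.VirtB pt w) : S.g (rot w) ≠ rot w := by
  have h1 := h.2.1.1
  rwa [S.invol, ne_comm] at h1

theorem Vir.face (h : S.Vir pt w) : S.Face w.1 := h.elim (fun h => h.face) (fun h => h.face)

theorem Vir.bladeAt (h : S.Vir pt w) : S.BladeAt pt w := h.elim (fun h => Or.inr (Or.inl h))
  (fun h => Or.inr (Or.inr h))

theorem Blade.bladeAt (h : S.Blade w) : S.BladeAt pt w := Or.inl h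

theorem VirtA.not_B (h : S.VirtA pt w) : ¬ S.VirtB pt w := fun h' => h'.blade.1 h.blade.2.2.1

theorem VirtB.not_A (h : S.VirtB pt w) : ¬ S.VirtA pt w := fun h' => h'.not_B h

theorem Blade.not_vir (h : S.Blade w) : ¬ S.Vir pt w := fun h' => h.not_face h'.face

theorem Blade.not_A (h : S.Blade w) : ¬ S.VirtA pt w := fun h' => h.not_vir (Or.inl h')

theorem Blade.not_B (h : S.Blade w) : ¬ S.VirtB pt w := fun h' => h.not_vir (Or.inr h')

theorem BladeAt.not_eared (h : S.BladeAt pt w) (h' : S.Eared c) : w.1 ≠ c.1 := by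
  intro e
  rcases h with h | h | h
  · exact h.not_eared h' e
  · exact h'.not_face (e ▸ h.face)
  · exact h'.not_face (e ▸ h.face)

theorem BladeAt.real_or_vir (h : S.BladeAt pt w) : S.Blade w ∨ S.Vir pt w := h

/-! ### stub corners -/

theorem lo_of_B (h : S.VirtB pt w) : S.lo pt w = S.ccw w := if_pos h
theorem lo_of_not_B (h : ¬ S.VirtB pt w) : S.lo pt w = w := if_neg h
theorem hi_of_A (h : S.VirtA pt w) : S.hi pt w = w := if_pos h
theorem hi_of_not_A (h : ¬ S.VirtA pt w) : S.hi pt w = S.ccw w := if_neg h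
theorem xc_of_A (h : S.VirtA pt w) : S.xc pt w = rot w := if_pos h
theorem xc_of_not_A (h : ¬ S.VirtA pt w) : S.xc pt w = unrot w := if_neg h
theorem tc_of_A (h : S.VirtA pt w) : S.tc pt w = rot (S.g (rot w)) := if_pos h
theorem tc_of_not_A (h : ¬ S.VirtA pt w) : S.tc pt w = S.g (rot w) := if_neg h

theorem xc_fst : (S.xc pt w).1 = w.1 := by unfold xc; split_ifs <;> rfl

theorem BladeAt.eqv_lo (h : S.BladeAt pt w) : S.Eqv w (S.lo pt w) := by
  unfold lo; split_ifs
  · exact ccw_eqv h.glued'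
  · exact Eqv.refl _ _

theorem BladeAt.eqv_hi (h : S.BladeAt pt w) : S.Eqv w (S.hi pt w) := by
  unfold hi; split_ifs
  · exact Eqv.refl _ _
  · exact ccw_eqv h.glued'

theorem BladeAt.glued_lo (h : S.BladeAt pt w) : S.g (S.lo pt w) ≠ S.lo pt w := by
  unfold lo; split_ifs
  · exact ccw_glued h.glued'
  · exact h.glued

theorem BladeAt.glued_hi (h : S.BladeAt pt w) : S.g (S.hi pt w) ≠ S.hi pt w := by
  unfold hi; split_ifs
  · exact h.glued
  · exact ccw_glued h.glued'

theorem BladeAt.ps_lo (hl : S.Linear) (h : S.BladeAt pt w) :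
    S.ps w ≤ S.ps (S.lo pt w) ∧ S.ps (S.lo pt w) ≤ S.ps w + 1 := by
  unfold lo; split_ifs
  · rw [ps_ccw hl h.glued']; omega
  · omega

theorem BladeAt.ps_hi (hl : S.Linear) (h : S.BladeAt pt w) :
    S.ps w ≤ S.ps (S.hi pt w) ∧ S.ps (S.hi pt w) ≤ S.ps w + 1 := by
  unfold hi; split_ifs
  · omega
  · rw [ps_ccw hl h.glued']; omega

theorem BladeAt.ps_lo_le_hi (hl : S.Linear) (h : S.BladeAt pt w) :
    S.ps (S.lo pt w) ≤ S.ps (S.hi pt w) := by
  by_cases hA : S.VirtA pt w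
  · rw [hi_of_A hA, lo_of_not_B hA.not_B]
  · rw [hi_of_not_A hA, ps_ccw hl h.glued']
    exact (h.ps_lo hl).2

theorem BladeAt.ps_lo_eq (hl : S.Linear) (h : S.BladeAt pt w) :
    (S.VirtB pt w ∧ S.ps (S.lo pt w) = S.ps w + 1) ∨
      (¬ S.VirtB pt w ∧ S.ps (S.lo pt w) = S.ps w) := by
  by_cases hB : S.VirtB pt w
  · left; rw [lo_of_B hB, ps_ccw hl h.glued']; exact ⟨hB, rfl⟩
  · right; rw [lo_of_not_B hB]; exact ⟨hB, rfl⟩

theorem BladeAt.ps_hi_eq (hl : S.Linear) (h : S.BladeAt pt w) :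
    (S.VirtA pt w ∧ S.ps (S.hi pt w) = S.ps w) ∨
      (¬ S.VirtA pt w ∧ S.ps (S.hi pt w) = S.ps w + 1) := by
  by_cases hA : S.VirtA pt w
  · left; rw [hi_of_A hA]; exact ⟨hA, rfl⟩
  · right; rw [hi_of_not_A hA, ps_ccw hl h.glued']; exact ⟨hA, rfl⟩

/-- `lo w` or its partner is a stub of the blade -/
theorem BladeAt.stub_lo (h : S.BladeAt pt w) :
    S.Stub pt w (S.lo pt w) ∨ S.Stub pt w (S.g (S.lo pt w)) := by
  by_cases hB : S.VirtB pt w
  · right; rw [lo_of_B hB, g_ccw h.glued']; exact Or.inr (Or.inr ⟨hB, rfl⟩)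
  · left; rw [lo_of_not_B hB]
    rcases h with h | h | h
    · exact Or.inl ⟨h, Or.inl rfl⟩
    · exact Or.inr (Or.inl ⟨h, rfl⟩)
    · exact absurd h hB

theorem BladeAt.stub_hi (h : S.BladeAt pt w) :
    S.Stub pt w (S.hi pt w) ∨ S.Stub pt w (S.g (S.hi pt w)) := by
  by_cases hA : S.VirtA pt w
  · left; rw [hi_of_A hA]; exact Or.inr (Or.inl ⟨hA, rfl⟩)
  · right; rw [hi_of_not_A hA, g_ccw h.glued']
    rcases h with h | h | h
    · exact Or.inl ⟨h, Or.inr rfl⟩
    · exact absurd h hA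
    · exact Or.inr (Or.inr ⟨h, rfl⟩)

/-- the triangle of the blade at `w` is one of the two triangles at its stubs -/
theorem BladeAt.tri_lo (h : S.BladeAt pt w) :
    (S.lo pt w).1 = w.1 ∨ (S.g (S.lo pt w)).1 = w.1 := by
  unfold lo; split_ifs
  · right; rw [g_ccw h.glued']; rfl
  · left; rfl

theorem BladeAt.tri_hi (h : S.BladeAt pt w) :
    (S.hi pt w).1 = w.1 ∨ (S.g (S.hi pt w)).1 = w.1 := by
  unfold hi; split_ifs
  · left; rfl
  · right; rw [g_ccw h.glued']; rfl

/-! ### types of triangles -/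

theorem Base.loopless (hB : Base S pt) : S.Loopless := fun a ha h =>
  rot_ne a (hB.tri a (rot a) ha rfl h).symm

/-- each triangle has at least two glued sides -/
theorem Base.two_glued (hB : Base S pt) {c : Sd I} (hc : c.1 ∈ S.F) (h : S.g c = c) :
    S.g (rot c) ≠ rot c ∧ S.g (unrot c) ≠ unrot c := by
  have hsub : ({c.1} : Finset I) ⊆ S.F := singleton_subset_iff.2 hc
  have hne : ({c.1} : Finset I) ≠ S.F := by
    intro e
    have := hB.two
    rw [← e, card_singleton] at this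
    omega
  have h2 := hB.bl.two_le' hB.conn hsub (singleton_nonempty _) hne
  have key : ∀ x y : Sd I, S.g x = x → (∀ d : Sd I, d.1 = c.1 → d = c ∨ d = x ∨ d = y) → False := by
    intro x y hx hall
    have h3 : S.bd {c.1} ⊆ {y} := by
      intro d hd
      rw [mem_bd, mem_singleton] at hd
      rcases hall d hd.2.1 with h4 | h4 | h4
      · rw [h4] at hd; exact absurd h hd.1
      · rw [h4] at hd; exact absurd hx hd.1
      · exact mem_singleton.2 h4
    have := card_le_card h3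
    rw [card_singleton] at this
    omega
  constructor
  · intro h1
    refine key (rot c) (unrot c) h1 (fun d hd => eq_of_fst_eq hd)
  · intro h1
    refine key (unrot c) (rot c) h1 (fun d hd => ?_)
    rcases eq_of_fst_eq hd with h3 | h3 | h3
    · exact Or.inl h3
    · exact Or.inr (Or.inr h3)
    · exact Or.inr (Or.inl h3)

/-- an unglued side is the base of a real blade or an ear -/
theorem Base.of_unglued (hB : Base S pt) {c : Sd I} (hc : c.1 ∈ S.F) (h : S.g c = c) :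
    (c ∉ S.E ∧ S.Blade (unrot c)) ∨ (c ∈ S.E ∧ S.Eared (unrot c)) := by
  obtain ⟨h1, h2⟩ := hB.two_glued hc h
  have e1 : unrot (unrot c) = rot c := unrot_unrot c
  have e2 : rot (unrot c) = c := rot_unrot c
  by_cases hE : c ∈ S.E
  · right
    refine ⟨hE, h2, ?_, ?_⟩
    · rw [e1]; exact h1
    · rw [e2]; exact hE
  · left
    refine ⟨hE, h2, ?_, ?_, ?_⟩
    · rw [e1]; exact h1
    · rw [e2]; exact h
    · rw [e2]; exact hE

theorem Base.types (hB : Base S pt) {t : I} (ht : t ∈ S.F) :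
    S.Face t ∨ ∃ c : Sd I, c.1 = t ∧ (S.Blade c ∨ S.Eared c) := by
  by_cases h : ∀ i, S.g (t, i) ≠ (t, i)
  · exact Or.inl ⟨ht, h⟩
  · push Not at h
    obtain ⟨i, hi⟩ := h
    right
    rcases hB.of_unglued (c := (t, i)) ht hi with h1 | h1
    · exact ⟨unrot (t, i), rfl, Or.inl h1.2⟩
    · exact ⟨unrot (t, i), rfl, Or.inr h1.2⟩

/-! ### pairs -/

/-- INT -/
theorem Base.int (hB : Base S pt) (h : S.Pr pt w w') : S.ps (S.hi pt w) < S.ps (S.lo pt w') := by
  have h1 := h.b.ps_hi hB.lin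
  have h2 := h.b'.ps_lo hB.lin
  have h3 := h.lt
  rcases Nat.lt_or_ge (S.ps (S.hi pt w)) (S.ps (S.lo pt w')) with h4 | h4
  · exact h4
  · exfalso
    have h5 : S.hi pt w = S.lo pt w' :=
      ps_inj hB.lin ((h.b.eqv_hi.symm.trans h.eqv).trans h.b'.eqv_lo) (by omega)
    have hne : w ≠ w' := by rintro rfl; exact absurd h.lt (lt_irrefl _)
    rcases h.b.stub_hi with h6 | h6 <;> rcases h.b'.stub_lo with h7 | h7
    · exact (hB.pr _ _ _ _ h.b h.b' h.eqv hne h6 h7).1 h5
    · exact (hB.pr _ _ _ _ h.b h.b' h.eqv hne h6 h7).2.1 (by rw [S.invol]; exact h5)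
    · exact (hB.pr _ _ _ _ h.b h.b' h.eqv hne h6 h7).2.1 (by rw [h5])
    · exact (hB.pr _ _ _ _ h.b h.b' h.eqv hne h6 h7).1 (by rw [h5])

/-- PR: existence of the sets `In` -/
theorem Base.exists_isIn (hB : Base S pt) (h : S.Pr pt w w') {c c' : Sd I}
    (hc : c = S.lo pt w ∨ c = S.hi pt w) (hc' : c' = S.lo pt w' ∨ c' = S.hi pt w') :
    ∃ X, S.IsIn c c' X := by
  have hne : w ≠ w' := by rintro rfl; exact absurd h.lt (lt_irrefl _)
  have hint := hB.int h
  have l1 := h.b.ps_lo_le_hi hB.lin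
  have l2 := h.b'.ps_lo_le_hi hB.lin
  have hg : S.g c ≠ c := by
    rcases hc with rfl | rfl
    · exact h.b.glued_lo
    · exact h.b.glued_hi
  have hg' : S.g c' ≠ c' := by
    rcases hc' with rfl | rfl
    · exact h.b'.glued_lo
    · exact h.b'.glued_hi
  have he : S.Eqv c c' := by
    have h1 : S.Eqv w c := by
      rcases hc with rfl | rfl
      · exact h.b.eqv_lo
      · exact h.b.eqv_hi
    have h2 : S.Eqv w' c' := by
      rcases hc' with rfl | rfl
      · exact h.b'.eqv_lo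
      · exact h.b'.eqv_hi
    exact (h1.symm.trans h.eqv).trans h2
  have hlt : S.ps c < S.ps c' := by
    rcases hc with rfl | rfl <;> rcases hc' with rfl | rfl <;> omega
  have s1 : S.Stub pt w c ∨ S.Stub pt w (S.g c) := by
    rcases hc with rfl | rfl
    · exact h.b.stub_lo
    · exact h.b.stub_hi
  have s2 : S.Stub pt w' c' ∨ S.Stub pt w' (S.g c') := by
    rcases hc' with rfl | rfl
    · exact h.b'.stub_lo
    · exact h.b'.stub_hi
  -- the cut
  obtain ⟨X, hX, e1, e2, h1, h2, hbd⟩ : ∃ X ⊆ S.F, ∃ e1 e2, (e1 = c ∨ e1 = S.g c) ∧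
      (e2 = c' ∨ e2 = S.g c') ∧ S.bd X = {e1, e2} := by
    rcases s1 with h6 | h6 <;> rcases s2 with h7 | h7
    · exact (hB.pr _ _ _ _ h.b h.b' h.eqv hne h6 h7).2.2
    · obtain ⟨X, hX, e1, e2, h1, h2, h3⟩ := (hB.pr _ _ _ _ h.b h.b' h.eqv hne h6 h7).2.2
      rw [S.invol] at h2
      exact ⟨X, hX, e1, e2, h1, h2.symm, h3⟩
    · obtain ⟨X, hX, e1, e2, h1, h2, h3⟩ := (hB.pr _ _ _ _ h.b h.b' h.eqv hne h6 h7).2.2
      rw [S.invol] at h1
      exact ⟨X, hX, e1, e2, h1.symm, h2, h3⟩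
    · obtain ⟨X, hX, e1, e2, h1, h2, h3⟩ := (hB.pr _ _ _ _ h.b h.b' h.eqv hne h6 h7).2.2
      rw [S.invol] at h1 h2
      exact ⟨X, hX, e1, e2, h1.symm, h2.symm, h3⟩
  obtain ⟨Y, _, hY⟩ := AG.Obj.exists_isIn hB.lin hB.loopless hX hg hg' he hlt (fun a => by
    rw [hbd]
    simp only [mem_insert, mem_singleton]
    have inv : ∀ x y : Sd I, S.g x = y ↔ x = S.g y := fun x y =>
      ⟨fun e => by rw [← e, S.invol], fun e => by rw [e, S.invol]⟩
    rcases h1 with rfl | rfl <;> rcases h2 with rfl | rfl <;>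
      simp only [inv, S.invol] <;> tauto)
  exact ⟨Y, hY⟩

theorem Base.isIn_InS (hB : Base S pt) (h : ∃ X, S.IsIn c d X) : S.IsIn c d (S.InS c d) := by
  unfold InS; rw [dif_pos h]; exact h.choose_spec

theorem Base.isIn_pA (hB : Base S pt) (h : S.Pr pt w w') :
    S.IsIn (S.hi pt w) (S.lo pt w') (S.pA pt w w') :=
  hB.isIn_InS (hB.exists_isIn h (Or.inr rfl) (Or.inl rfl))

theorem Base.isIn_pO (hB : Base S pt) (h : S.Pr pt w w') :
    S.IsIn (S.lo pt w) (S.hi pt w') (S.pO pt w w') :=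
  hB.isIn_InS (hB.exists_isIn h (Or.inl rfl) (Or.inr rfl))

/-- blade triangle of the lower blade in `A_p` iff b-like -/
theorem Base.mem_pA_left (hB : Base S pt) (h : S.Pr pt w w') :
    w.1 ∈ S.pA pt w w' ↔ S.VirtA pt w := by
  have h1 := hB.isIn_pA h
  have h2 := h.b.ps_hi_eq hB.lin
  have h3 := hB.int h
  have h4 := h.b.ps_hi hB.lin
  rw [h1.mem_iff hB.lin hB.loopless h.b.eqv_hi.symm]
  constructor
  · rintro ⟨h5, h6⟩
    rcases h2 with h2 | h2
    · exact h2.1
    · omega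
  · intro hA
    rcases h2 with h2 | h2
    · omega
    · exact absurd hA h2.1

theorem Base.mem_pA_right (hB : Base S pt) (h : S.Pr pt w w') :
    w'.1 ∈ S.pA pt w w' ↔ S.VirtB pt w' := by
  have h1 := hB.isIn_pA h
  have h2 := h.b'.ps_lo_eq hB.lin
  have h3 := hB.int h
  have h4 := h.b'.ps_lo hB.lin
  rw [h1.mem_iff hB.lin hB.loopless (h.b.eqv_hi.symm.trans h.eqv)]
  constructor
  · rintro ⟨h5, h6⟩
    rcases h2 with h2 | h2
    · exact h2.1
    · omega
  · intro hA
    rcases h2 with h2 | h2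
    · omega
    · exact absurd hA h2.1

/-- a blade at the visit of the consecutive pair with triangle in `A_p` is a b-like blade of the
pair -/
theorem Base.blade_in_pA (hB : Base S pt) (h : S.Cons pt w w') (hu : S.BladeAt pt u)
    (he : S.Eqv w u) (hm : u.1 ∈ S.pA pt w w') :
    (u = w ∧ S.VirtA pt w) ∨ (u = w' ∧ S.VirtB pt w') := by
  have hp := h.toPr
  have h1 := hB.isIn_pA hp
  have h2 := hp.b.ps_hi hB.lin
  have h3 := hp.b'.ps_lo hB.lin
  have h4 := (h1.mem_iff hB.lin hB.loopless (hp.b.eqv_hi.symm.trans he)).1 hm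
  have h5 : ¬ (S.ps w < S.ps u ∧ S.ps u < S.ps w') := fun h6 => h.no u hu he h6.1 h6.2
  have h6 : S.ps u = S.ps w ∨ S.ps u = S.ps w' := by omega
  rcases h6 with h6 | h6
  · left
    have h7 : u = w := ps_inj hB.lin he.symm h6
    refine ⟨h7, ?_⟩
    rw [h7] at hm
    exact (hB.mem_pA_left hp).1 hm
  · right
    have h7 : u = w' := ps_inj hB.lin (he.symm.trans hp.eqv) h6
    refine ⟨h7, ?_⟩
    rw [h7] at hm
    exact (hB.mem_pA_right hp).1 hm

end Obj

end AG
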