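import Pool.Agent.AG.Cuts

/-!
# Project AG, block 6: counting the visits which meet a region   (helper85)

`Rg S K vK σ`: `K` is a region with distinguished visit `vK` such that every other visit meets `K` in
an interval, and the number of the other visits meeting `K` is the number of unglued sides of
triangles of `K`, plus `σ`.  One-copy regions have `σ = 1`, the regions `F ∖ K₀` (with `K₀` one-copy)
and `F` itself have `σ = 0`.
-/

set_option linter.unusedSectionVars false
set_option linter.unusedSimpArgs false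

namespace AG

open Finset

variable {I : Type} [DecidableEq I]

namespace Obj

variable {S : Obj I}

/-- the lowest corners in `K`: the clockwise neighbour is not in `K` -/
def low (S : Obj I) (K : Finset I) : Finset (Sd I) :=
  S.sides.filter (fun a => a.1 ∈ K ∧ (S.g a = a ∨ (S.g a).1 ∉ K))

open Classical in
/-- the visits which meet `K` -/
noncomputable def meet (S : Obj I) (K : Finset I) : Finset (Sd I) :=
  S.vis.filter (fun z => ∃ a, S.Eqv z a ∧ a.1 ∈ K)

theorem mem_low {K : Finset I} (hK : K ⊆ S.F) {a : Sd I} :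
    a ∈ S.low K ↔ a.1 ∈ K ∧ (S.g a = a ∨ a ∈ S.bd K) := by
  simp only [low, mem_filter, mem_sides, mem_bd]
  constructor
  · rintro ⟨h1, h2, h3⟩
    refine ⟨h2, ?_⟩
    by_cases h4 : S.g a = a
    · exact Or.inl h4
    · exact Or.inr ⟨h4, h2, h3.resolve_left h4⟩
  · rintro ⟨h1, h2⟩
    exact ⟨hK h1, h1, h2.imp id fun h => h.2.2⟩

theorem card_low {K : Finset I} (hK : K ⊆ S.F) :
    (S.low K).card = (S.vis.filter (fun a => a.1 ∈ K)).card + (S.bd K).card := by
  rw [← card_union_of_disjoint]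
  · congr 1
    ext a
    rw [mem_low hK, mem_union, mem_filter, mem_vis]
    constructor
    · rintro ⟨h1, h2⟩
      exact h2.imp (fun h => ⟨⟨hK h1, h⟩, h1⟩) id
    · rintro (⟨⟨h1, h2⟩, h3⟩ | h)
      · exact ⟨h3, Or.inl h2⟩
      · exact ⟨(mem_bd.1 h).2.1, Or.inr h⟩
  · rw [disjoint_left]
    intro a ha hb
    rw [mem_filter, mem_vis] at ha
    exact (mem_bd.1 hb).1 ha.1.2

theorem mem_meet {K : Finset I} {z : Sd I} :
    z ∈ S.meet K ↔ z ∈ S.vis ∧ ∃ a, S.Eqv z a ∧ a.1 ∈ K := by
  simp [meet]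

theorem last_mem_meet (hl : S.Linear) {K : Finset I} (hK : K ⊆ S.F) {a : Sd I} (ha : a.1 ∈ K) :
    S.last a ∈ S.meet K :=
  mem_meet.2 ⟨last_mem_vis hl (mem_sides.2 (hK ha)), a, (last_eqv S a).symm, ha⟩

theorem vis_eq_last {z : Sd I} (hl : S.Linear) (hz : z ∈ S.vis) {a : Sd I} (h : S.Eqv z a) :
    S.last a = z := by
  rw [← (eqv_iff hl).1 h, last_of_unglued (mem_vis.1 hz).2]

/-- every visit meeting `K` has a lowest corner -/
theorem image_low (hl : S.Linear) {K : Finset I} (hK : K ⊆ S.F) :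
    (S.low K).image S.last = S.meet K := by
  classical
  ext z
  rw [mem_image]
  constructor
  · rintro ⟨a, ha, rfl⟩
    exact last_mem_meet hl hK ((mem_low hK).1 ha).1
  · intro hz
    obtain ⟨hzv, a, hza, haK⟩ := mem_meet.1 hz
    let T := S.sides.filter (fun b => S.Eqv z b ∧ b.1 ∈ K)
    have hT : T.Nonempty := ⟨a, by simp [T, mem_sides, hK haK, hza, haK]⟩
    obtain ⟨b, hb, hmin⟩ := T.exists_min_image S.ps hT
    simp only [T, mem_filter, mem_sides] at hb hmin
    refine ⟨b, ?_, vis_eq_last hl hzv hb.2.1⟩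
    simp only [low, mem_filter, mem_sides]
    refine ⟨hb.1, hb.2.2, ?_⟩
    by_contra hcon
    push Not at hcon
    have h1 := ps_of_glued hl hcon.1
    have h2 : (S.cw b).1 = (S.g b).1 := cw_fst hcon.1
    have := hmin (S.cw b) ⟨by rw [h2]; exact hK hcon.2, hb.2.1.trans (S.cw_eqv b),
      by rw [h2]; exact hcon.2⟩
    omega

/-- a visit with two lowest corners crosses the boundary twice -/
theorem low_double (hl : S.Linear) {K : Finset I} (hK : K ⊆ S.F) {a b : Sd I}
    (ha : a ∈ S.low K) (hb : b ∈ S.low K) (he : S.Eqv a b) (hlt : S.ps a < S.ps b) :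
    b ∈ S.bd K ∧ ∃ e, S.Eqv a e ∧ S.g e ∈ S.bd K ∧ S.ps a < S.ps e ∧ S.ps e < S.ps b := by
  have hbg : S.g b ≠ b := (ps_pos_iff hl).1 (by omega)
  have ha' := (mem_low hK).1 ha
  have hb' := (mem_low hK).1 hb
  have hbb : b ∈ S.bd K := hb'.2.resolve_left hbg
  refine ⟨hbb, ?_⟩
  have h1 := ps_of_glued hl hbg
  have h2 : (S.cw b).1 = (S.g b).1 := cw_fst hbg
  have h3 : (S.g b).1 ∉ K := (mem_bd.1 hbb).2.2
  obtain ⟨e, e1, e2, e3, e4, e5, e6⟩ := exists_cross hl (a := a) (b := S.cw b)
    (he.trans (S.cw_eqv b)) (by omega) (X := K) (by rw [h2]; exact fun hh => h3 (hh.1 ha'.1))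
  refine ⟨e, e1, ?_, e3, by omega⟩
  rw [h2] at e6
  have h4 : e.1 ∉ K := fun hh => h3 (e6.1 hh)
  rw [mem_bd, S.invol]
  refine ⟨e2.symm, ?_, h4⟩
  by_contra h5
  exact e5 ⟨fun hh => absurd hh h4, fun hh => absurd hh h5⟩

/-- a gap in the fan inside `K` gives two boundary crossings -/
theorem gap_double (hl : S.Linear) {K : Finset I} {a b u : Sd I}
    (he : S.Eqv a b) (hu : S.Eqv a u) (h1 : S.ps a ≤ S.ps u) (h2 : S.ps u ≤ S.ps b)
    (haK : a.1 ∈ K) (hbK : b.1 ∈ K) (huK : u.1 ∉ K) :
    ∃ e f, S.Eqv a e ∧ S.Eqv a f ∧ S.g e ∈ S.bd K ∧ f ∈ S.bd K ∧ S.ps e < S.ps f := by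
  obtain ⟨e, e1, e2, e3, e4, e5, e6⟩ := exists_cross hl (a := a) (b := u) hu h1 (X := K)
    (fun hh => huK (hh.1 haK))
  obtain ⟨f, f1, f2, f3, f4, f5, f6⟩ := exists_cross hl (a := u) (b := b) (hu.symm.trans he) h2
    (X := K) (fun hh => huK (hh.2 hbK))
  refine ⟨e, f, e1, hu.trans f1, ?_, ?_, by omega⟩
  · rw [mem_bd, S.invol]
    have h4 : e.1 ∉ K := fun hh => huK (e6.1 hh)
    refine ⟨e2.symm, ?_, h4⟩
    by_contra h5
    exact e5 ⟨fun hh => absurd hh h4, fun hh => absurd hh h5⟩
  · have h4 : f.1 ∈ K := f6.2 hbK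
    exact mem_bd.2 ⟨f2, h4, fun hh => f5 ⟨fun _ => hh, fun _ => h4⟩⟩

/-- no two different glued sides join the same two visits (L3) -/
def Simple (S : Obj I) : Prop := ∀ a b : Sd I, S.g a ≠ a → S.g b ≠ b → S.Eqv a b →
  S.Eqv (rot a) (rot b) → a = b

theorem IsIn.not_eqv_g (hs : S.Simple) {c c' : Sd I} {X : Finset I} (h : S.IsIn c c' X) :
    ¬ S.Eqv (S.g c) (S.g c') := by
  intro h1
  have h2 := hs c c' h.gl h.gl' h.eqv
    ((Eqv.of_glued' h.gl).trans (h1.trans (Eqv.of_glued' h.gl').symm))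
  have := h.lt
  rw [h2] at this
  exact lt_irrefl _ this

theorem Loopless.g (hr : S.Loopless) {c : Sd I} (h : S.g c ≠ c) : ¬ S.Eqv c (S.g c) :=
  fun h1 => hr c (S.memF _ h) (h1.trans (Eqv.of_glued' h).symm)

theorem IsIn.no_double (hr : S.Loopless) (hs : S.Simple) {c c' : Sd I} {X : Finset I}
    (h : S.IsIn c c' X) {e f : Sd I} (he : S.g e ∈ S.bd X) (hf : f ∈ S.bd X) (hef : S.Eqv e f)
    (hlt : S.ps e < S.ps f) : False := by
  have l1 := hr.g h.gl
  have l2 := hr.g h.gl'
  have l3 := h.not_eqv_g hs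
  have h3 := h.lt
  rw [h.bd, mem_insert, mem_singleton] at he hf
  rcases he with he | he
  · have he' : e = S.g c := by rw [← he, S.invol]
    rcases hf with hf | hf
    · rw [he', hf] at hef; exact l1 hef.symm
    · rw [he', hf] at hef; exact l3 hef
  · have he' : e = c' := S.g_injective he
    rcases hf with hf | hf
    · rw [he', hf] at hlt; omega
    · rw [he', hf] at hef; exact l2 hef

/-- regions with a distinguished visit -/
structure Rg (S : Obj I) (K : Finset I) (vK : Sd I → Prop) (σ : ℕ) : Prop where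
  sub : K ⊆ S.F
  inv : ∀ a b, S.Eqv a b → vK a → vK b
  interval : ∀ a b u, ¬ vK a → S.Eqv a b → S.Eqv a u → S.ps a ≤ S.ps u → S.ps u ≤ S.ps b →
    a.1 ∈ K → b.1 ∈ K → u.1 ∈ K
  count : ∀ (_ : DecidablePred fun z => ¬ vK z), ((S.meet K).filter (fun z => ¬ vK z)).card =
    (S.vis.filter (fun a => a.1 ∈ K)).card + σ

/-- one-copy regions -/
theorem IsIn.rg (hl : S.Linear) (hr : S.Loopless) (hs : S.Simple) {c c' : Sd I} {K : Finset I}
    (h : S.IsIn c c' K) : S.Rg K (S.Eqv c) 1 where
  sub := h.sub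
  inv a b hab ha := ha.trans hab
  interval a b u _ hab hau h1 h2 haK hbK := by
    by_contra huK
    obtain ⟨e, f, e1, f1, he, hf, hlt⟩ := gap_double hl hab hau h1 h2 haK hbK huK
    exact h.no_double hr hs he hf (e1.symm.trans f1) hlt
  count hd := by
    have hinj : Set.InjOn S.last (S.low K : Set (Sd I)) := by
      intro a ha b hb hab
      have hab' : S.Eqv a b := (eqv_iff hl).2 hab
      rcases Nat.lt_trichotomy (S.ps a) (S.ps b) with h1 | h1 | h1
      · obtain ⟨hb', e, e1, e2, e3, e4⟩ := low_double hl h.sub ha hb hab' h1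
        exact (h.no_double hr hs e2 hb' (e1.symm.trans hab') e4).elim
      · exact ps_inj hl hab' h1
      · obtain ⟨hb', e, e1, e2, e3, e4⟩ := low_double hl h.sub hb ha hab'.symm h1
        exact (h.no_double hr hs e2 hb' (e1.symm.trans hab'.symm) e4).elim
    have h1 : (S.meet K).card = (S.vis.filter (fun a => a.1 ∈ K)).card + 2 := by
      rw [← image_low hl h.sub, card_image_of_injOn hinj, card_low h.sub, h.card hr]
    have h2 : (S.meet K).filter (fun z => ¬ S.Eqv c z) = (S.meet K).erase (S.last c) := by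
      ext z
      rw [mem_filter, mem_erase]
      constructor
      · rintro ⟨hz, hz'⟩
        refine ⟨?_, hz⟩
        rintro rfl
        exact hz' (last_eqv S c)
      · rintro ⟨hz', hz⟩
        refine ⟨hz, fun h3 => hz' ?_⟩
        exact (vis_eq_last hl (mem_meet.1 hz).1 h3.symm).symm
    have h3 : S.last c ∈ S.meet K := last_mem_meet hl h.sub (mem_bd.1 h.mem_left).2.1
    have h4 := card_erase_of_mem h3
    have h5 := card_pos.2 ⟨_, h3⟩
    rw [← h2] at h4
    convert (show ((S.meet K).filter (fun z => ¬ S.Eqv c z)).card =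
      (S.vis.filter (fun a => a.1 ∈ K)).card + 1 by omega)

/-- the closed case -/
theorem rg_F (hl : S.Linear) : S.Rg S.F (fun _ => False) 0 where
  sub := subset_rfl
  inv _ _ _ h := h
  interval a b u _ _ hau h1 h2 haK hbK := by
    by_contra huK
    have h0 : S.g u = u := by by_contra h; exact huK (S.memF _ h)
    have h3 := ps_of_unglued h0
    have h4 : a = u := ps_inj hl hau (by omega)
    exact huK (h4 ▸ haK)
  count hd := by
    have h1 : (S.meet S.F).filter (fun z => ¬ False) = S.vis.filter (fun a => a.1 ∈ S.F) := by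
      ext z
      simp only [not_false_eq_true, mem_filter, and_true, mem_meet]
      constructor
      · rintro ⟨h1, -⟩; exact ⟨h1, (mem_vis.1 h1).1⟩
      · rintro ⟨h1, h2⟩; exact ⟨h1, z, Eqv.refl S z, h2⟩
    rw [add_zero]
    convert congrArg card h1

/-- the open case: the complement of a one-copy region -/
theorem IsIn.rg_compl (hl : S.Linear) (hr : S.Loopless) (hs : S.Simple) {c c' : Sd I}
    {K₀ : Finset I} (h : S.IsIn c c' K₀) : S.Rg (S.F \ K₀) (S.Eqv c) 0 := by
  have l1 := hr.g h.gl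
  have l2 := hr.g h.gl'
  have l3 := h.not_eqv_g hs
  have hlt := h.lt
  have hbd : S.bd (S.F \ K₀) = {S.g c, c'} := by
    rw [bd_sdiff, inter_eq_right.2 h.sub, h.bd, image_insert, image_singleton, S.invol]
  -- two crossings only at the visit of `c`
  have key : ∀ e f, S.g e ∈ S.bd (S.F \ K₀) → f ∈ S.bd (S.F \ K₀) → S.Eqv e f → S.ps e < S.ps f →
      e = c ∧ f = c' := by
    intro e f he hf hef hps
    rw [hbd, mem_insert, mem_singleton] at he hf
    rcases he with he | he
    · have he' : e = c := S.g_injective he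
      refine ⟨he', ?_⟩
      rcases hf with hf | hf
      · rw [he', hf] at hef; exact absurd hef l1
      · exact hf
    · have he' : e = S.g c' := by rw [← he, S.invol]
      exfalso
      rcases hf with hf | hf
      · rw [he', hf] at hef; exact l3 hef.symm
      · rw [he', hf] at hef; exact l2 hef.symm
  have hsub : S.F \ K₀ ⊆ S.F := sdiff_subset
  have hc'b : c' ∈ S.bd (S.F \ K₀) := by rw [hbd]; simp
  refine ⟨hsub, fun a b hab ha => ha.trans hab, ?_, fun hd => ?_⟩
  · intro a b u ha hab hau h1 h2 haK hbK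
    by_contra huK
    obtain ⟨e, f, e1, f1, he, hf, hps⟩ := gap_double hl hab hau h1 h2 haK hbK huK
    obtain ⟨rfl, -⟩ := key e f he hf (e1.symm.trans f1) hps
    exact ha e1.symm
  · have hc'low : c' ∈ S.low (S.F \ K₀) := (mem_low hsub).2 ⟨(mem_bd.1 hc'b).2.1, Or.inr hc'b⟩
    -- the unglued end of the fan of `c`
    have hlastK : (S.last c).1 ∈ S.F \ K₀ := by
      rw [mem_sdiff]
      refine ⟨mem_sides.1 ((mem_filter.1 (last_mem_vis hl (mem_sides.2 (S.memF _ h.gl)))).1), ?_⟩
      rw [h.mem_iff hl hr (last_eqv S c)]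
      have h1 := ps_of_unglued (last_unglued hl c)
      have h2 := (ps_pos_iff hl).2 h.gl
      omega
    have hlastlow : S.last c ∈ S.low (S.F \ K₀) :=
      (mem_low hsub).2 ⟨hlastK, Or.inl (last_unglued hl c)⟩
    have hlne : S.last c ≠ c' := by
      intro e
      have h1 := last_unglued hl c
      rw [e] at h1
      exact h.gl' h1
    have himg : ((S.low (S.F \ K₀)).erase c').image S.last = S.meet (S.F \ K₀) := by
      rw [← image_low hl hsub]
      apply subset_antisymm
      · exact image_subset_image (erase_subset _ _)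
      · intro z hz
        obtain ⟨a, ha, rfl⟩ := mem_image.1 hz
        rw [mem_image]
        by_cases hac : a = c'
        · refine ⟨S.last c, mem_erase.2 ⟨hlne, hlastlow⟩, ?_⟩
          rw [hac, last_of_unglued (last_unglued hl c)]
          exact (eqv_iff hl).1 h.eqv
        · exact ⟨a, mem_erase.2 ⟨hac, ha⟩, rfl⟩
    have hinj : Set.InjOn S.last ((S.low (S.F \ K₀)).erase c' : Finset (Sd I)) := by
      intro a ha b hb hab
      rw [mem_coe, mem_erase] at ha hb
      have hab' : S.Eqv a b := (eqv_iff hl).2 hab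
      rcases Nat.lt_trichotomy (S.ps a) (S.ps b) with h1 | h1 | h1
      · obtain ⟨hb', e, e1, e2, e3, e4⟩ := low_double hl hsub ha.2 hb.2 hab' h1
        exact absurd (key e b e2 hb' (e1.symm.trans hab') e4).2 hb.1
      · exact ps_inj hl hab' h1
      · obtain ⟨hb', e, e1, e2, e3, e4⟩ := low_double hl hsub hb.2 ha.2 hab'.symm h1
        exact absurd (key e a e2 hb' (e1.symm.trans hab'.symm) e4).2 ha.1
    have hbc : (S.bd (S.F \ K₀)).card = 2 := by rw [card_bd_sdiff S h.sub, h.card hr]
    have h1 : (S.meet (S.F \ K₀)).card = (S.vis.filter (fun a => a.1 ∈ S.F \ K₀)).card + 1 := by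
      have h2 := card_erase_of_mem hc'low
      have h3 := card_low (S := S) hsub
      rw [← himg, card_image_of_injOn hinj, h2, h3, hbc]
      omega
    have h2 : (S.meet (S.F \ K₀)).filter (fun z => ¬ S.Eqv c z)
        = (S.meet (S.F \ K₀)).erase (S.last c) := by
      ext z
      rw [mem_filter, mem_erase]
      constructor
      · rintro ⟨hz, hz'⟩
        refine ⟨?_, hz⟩
        rintro rfl
        exact hz' (last_eqv S c)
      · rintro ⟨hz', hz⟩
        refine ⟨hz, fun h3 => hz' ?_⟩
        exact (vis_eq_last hl (mem_meet.1 hz).1 h3.symm).symm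
    have h3 : S.last c ∈ S.meet (S.F \ K₀) := by
      have := last_mem_meet hl hsub hlastK
      rwa [last_of_unglued (last_unglued hl c)] at this
    have h4 := card_erase_of_mem h3
    have h5 := card_pos.2 ⟨_, h3⟩
    rw [← h2] at h4
    convert (show ((S.meet (S.F \ K₀)).filter (fun z => ¬ S.Eqv c z)).card =
      (S.vis.filter (fun a => a.1 ∈ S.F \ K₀)).card + 0 by omega)

end Obj

end AG
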