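import Pool.Agent.AG.Reg.Lam

/-!
# Project AG, block 6: the other ends of the stubs of `A_p` (6.7), the hypotheses zA, zB, ear of
the torso inequality
-/

set_option linter.unusedSectionVars false
set_option linter.unusedSimpArgs false
set_option linter.unusedVariables false

namespace AG

open Finset

variable {I : Type} [DecidableEq I]

namespace Obj

variable {S : Obj I} {pt : Sd I → Pt}

/-! ### the fan at the other ends of the two boundary edges -/

theorem Reg2.a_mem {K : Finset I} {a σ : Sd I} (h : S.Reg2 K a σ) :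
    S.g a ≠ a ∧ a.1 ∈ K ∧ (S.g a).1 ∉ K := by
  have : a ∈ S.bd K := by rw [h.bd]; simp
  rwa [mem_bd] at this

theorem Reg2.σ_mem {K : Finset I} {a σ : Sd I} (h : S.Reg2 K a σ) :
    S.g σ ≠ σ ∧ σ.1 ∈ K ∧ (S.g σ).1 ∉ K := by
  have : σ ∈ S.bd K := by rw [h.bd]; simp
  rwa [mem_bd] at this

theorem Reg2.not_eqv_σ (hB : Base S pt) {K : Finset I} {a σ : Sd I} (h : S.Reg2 K a σ) :
    ¬ S.Eqv a σ := by
  intro he
  have h1 := hB.tri σ (rot σ) (h.sub h.σ_mem.2.1) rfl (he.symm.trans h.vis)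
  exact rot_ne σ h1.symm

theorem Reg2.not_eqv_g (hB : Base S pt) {K : Finset I} {a σ : Sd I} (h : S.Reg2 K a σ) :
    ¬ S.Eqv a (S.g a) := fun he =>
  hB.loopless a (h.sub h.a_mem.2.1) (he.trans (Eqv.of_glued' h.a_mem.1).symm)

/-- the fan at the other end of `σ`: the part in `K` is `σ` and everything above -/
theorem Reg2.mem_exit (hB : Base S pt) {K : Finset I} {a σ d : Sd I} (h : S.Reg2 K a σ)
    (hd : S.Eqv σ d) : d.1 ∈ K ↔ S.ps σ ≤ S.ps d := by
  obtain ⟨s1, s2, s3⟩ := h.σ_mem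
  have hne := h.not_eqv_σ hB
  have key : ∀ c, S.Eqv σ c → S.g c ≠ c → ¬ (c.1 ∈ K ↔ (S.g c).1 ∈ K) → c = σ := by
    intro c h1 h2 h3
    have h4 : ¬ S.Eqv a c := fun h5 => hne (h5.trans h1.symm)
    by_cases h5 : c.1 ∈ K
    · exact h.exit hB h4 h2 h5 (fun h6 => h3 ⟨fun _ => h6, fun _ => h5⟩)
    · have h6 : (S.g c).1 ∈ K := by
        by_contra h7; exact h3 ⟨fun h8 => absurd h8 h5, fun h8 => absurd h8 h7⟩
      have h7 := h.entry hB h4 h2 h5 h6
      rw [h7] at h1
      exact absurd h1 (h.not_both hB)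
  constructor
  · intro hdK
    by_contra hlt
    push Not at hlt
    have e1 := ps_of_glued hB.lin s1
    obtain ⟨c, c1, c2, c3, c4, c5, -⟩ := exists_cross hB.lin (a := d) (b := S.cw σ)
      (hd.symm.trans (S.cw_eqv σ)) (by omega) (X := K)
      (by rw [cw_fst s1]; exact fun hh => s3 (hh.1 hdK))
    have := key c (hd.trans c1) c2 c5
    rw [this] at c4
    omega
  · intro hle
    by_contra hdK
    obtain ⟨c, c1, c2, c3, c4, c5, -⟩ := exists_cross hB.lin (a := σ) (b := d) hd hle (X := K)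
      (fun hh => hdK (hh.1 s2))
    have := key c c1 c2 c5
    rw [this] at c3
    omega

/-- the fan at the other end of `a`: the part in `K` is everything below `g a` -/
theorem Reg2.mem_entry (hB : Base S pt) {K : Finset I} {a σ d : Sd I} (h : S.Reg2 K a σ)
    (hd : S.Eqv (S.g a) d) : d.1 ∈ K ↔ S.ps d < S.ps (S.g a) := by
  obtain ⟨s1, s2, s3⟩ := h.a_mem
  have hne := h.not_eqv_g hB
  have g1 : S.g (S.g a) ≠ S.g a := g_ne_iff.2 s1
  have key : ∀ c, S.Eqv (S.g a) c → S.g c ≠ c → ¬ (c.1 ∈ K ↔ (S.g c).1 ∈ K) → c = S.g a := by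
    intro c h1 h2 h3
    have h4 : ¬ S.Eqv a c := fun h5 => hne (h5.trans h1.symm)
    by_cases h5 : c.1 ∈ K
    · have h6 := h.exit hB h4 h2 h5 (fun h6 => h3 ⟨fun _ => h6, fun _ => h5⟩)
      rw [h6] at h1
      exact absurd h1.symm (h.not_both hB)
    · have h6 : (S.g c).1 ∈ K := by
        by_contra h7; exact h3 ⟨fun h8 => absurd h8 h5, fun h8 => absurd h8 h7⟩
      exact h.entry hB h4 h2 h5 h6
  constructor
  · intro hdK
    by_contra hlt
    push Not at hlt
    obtain ⟨c, c1, c2, c3, c4, c5, -⟩ := exists_cross hB.lin (a := S.g a) (b := d) hd hlt (X := K)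
      (fun hh => s3 (hh.2 hdK))
    have := key c c1 c2 c5
    rw [this] at c3
    omega
  · intro hlt
    by_contra hdK
    have e1 := ps_of_glued hB.lin g1
    have e2 : (S.cw (S.g a)).1 = a.1 := by rw [cw_fst g1, S.invol]
    obtain ⟨c, c1, c2, c3, c4, c5, -⟩ := exists_cross hB.lin (a := d) (b := S.cw (S.g a))
      (hd.symm.trans (S.cw_eqv _)) (by omega) (X := K)
      (by rw [e2]; exact fun hh => hdK (hh.2 s2))
    have := key c (hd.trans c1) c2 c5
    rw [this] at c4
    omega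

/-- top of a fan -/
theorem ps_le_of_top (hl : S.Linear) {t e : Sd I} (ht : S.g (unrot t) = unrot t) (h : S.Eqv t e) :
    S.ps e ≤ S.ps t := by
  by_contra hlt
  push Not at hlt
  exact unrot_glued_of_lt hl h hlt ht

/-- OUT lemma (stub types 6.7), upper blade `w'`.  `K` is a region (one-copy set or complement of
one, see `IsIn.reg2`, `IsIn.reg2_compl`) with the boundary edge `g (lo w')` which ends at its visit;
`d` is a corner outside `K` in the fan which leaves `K` clockwise across this stub.  Real: `d` is the corner `rot w'`; a-like: `d` is the corner at `x` of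
`s` or of `t`; b-like: the part of the fan in `K` is the two corners at `x` of `s` and `t`. -/
theorem Base.out_upper (hB : Base S pt) {K : Finset I} {a w' d : Sd I}
    (hw : S.BladeAt pt w') (h : S.Reg2 K a (S.g (S.lo pt w')))
    (he : S.Eqv (S.g (S.lo pt w')) d) (hd : d.1 ∉ K) :
    (S.Blade w' ∧ d = rot w') ∨ (S.VirtA pt w' ∧ (d = rot w' ∨ d = rot (S.g (rot w')))) ∨
      (S.VirtB pt w' ∧ ∀ e, S.Eqv d e → e.1 ∈ K → e = unrot w' ∨ e = S.g (rot w')) := by
  have hl := hB.lin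
  have hlt : S.ps d < S.ps (S.g (S.lo pt w')) := by
    by_contra hcon
    exact hd ((h.mem_exit hB he).2 (not_lt.1 hcon))
  by_cases hB' : S.VirtB pt w'
  · right; right
    refine ⟨hB', fun e hde heK => ?_⟩
    have eσ : S.g (S.lo pt w') = unrot w' := by rw [lo_of_B hB', g_ccw hw.glued']
    rw [eσ] at he h
    have h1 := (h.mem_exit hB (he.trans hde)).1 heK
    have g1 : S.g (unrot (unrot w')) ≠ unrot (unrot w') := by
      rw [unrot_unrot]; exact hB'.glued_rot
    have h2 : S.ccw (unrot w') = S.g (rot w') := by rw [ccw_of_glued g1, unrot_unrot]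
    have h3 := ps_ccw hl g1
    have h4 : S.Eqv (unrot w') (S.g (rot w')) := by rw [← h2]; exact ccw_eqv g1
    have h5 : S.g (unrot (S.g (rot w'))) = unrot (S.g (rot w')) := by
      have := hB'.blade.2.2.1
      rwa [rot_rot] at this
    have h6 := ps_le_of_top hl h5 (h4.symm.trans (he.trans hde))
    rw [h2] at h3
    rcases Nat.lt_or_ge (S.ps (unrot w')) (S.ps e) with h7 | h7
    · right; exact ps_inj hl (hde.symm.trans (he.symm.trans h4)) (by omega)
    · left; exact ps_inj hl (hde.symm.trans he.symm) (by omega)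
  · have eσ : S.lo pt w' = w' := lo_of_not_B hB'
    rw [eσ] at he h hlt
    have g1 : S.g (S.g w') ≠ S.g w' := g_ne_iff.2 hw.glued
    have h1 : S.cw (S.g w') = rot w' := by rw [cw_of_glued g1, S.invol]
    have h2 := ps_of_glued hl g1
    rw [h1] at h2
    have h3 : S.Eqv (S.g w') (rot w') := by rw [← h1]; exact S.cw_eqv _
    rcases hw with hw | hw | hw
    · left
      refine ⟨hw, ps_inj hl (he.symm.trans h3) ?_⟩
      rw [ps_of_unglued hw.2.2.1] at h2 ⊢
      omega
    · right; left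
      refine ⟨hw, ?_⟩
      have g2 := hw.glued_rot
      have h4 : S.cw (rot w') = rot (S.g (rot w')) := cw_of_glued g2
      have h5 := ps_of_glued hl g2
      rw [h4] at h5
      have h6 : S.Eqv (rot w') (rot (S.g (rot w'))) := Eqv.of_glued g2
      have h7 : S.ps (rot (S.g (rot w'))) = 0 := ps_of_unglued hw.blade.2.2.1
      rcases Nat.lt_or_ge 0 (S.ps d) with h8 | h8
      · left; exact ps_inj hl (he.symm.trans h3) (by omega)
      · right; exact ps_inj hl (he.symm.trans (h3.trans h6)) (by omega)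
    · exact absurd hw hB'

/-- OUT lemma, lower blade `w` -/
theorem Base.out_lower (hB : Base S pt) {K : Finset I} {σ w d : Sd I}
    (hw : S.BladeAt pt w) (h : S.Reg2 K (S.hi pt w) σ)
    (he : S.Eqv (S.g (S.hi pt w)) d) (hd : d.1 ∉ K) :
    (S.Blade w ∧ d = unrot w) ∨ (S.VirtB pt w ∧ (d = unrot w ∨ d = S.g (rot w))) ∨
      (S.VirtA pt w ∧ ∀ e, S.Eqv d e → e.1 ∈ K → e = rot w ∨ e = rot (S.g (rot w))) := by
  have hl := hB.lin
  have hge : S.ps (S.g (S.hi pt w)) ≤ S.ps d := by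
    by_contra hcon
    exact hd ((h.mem_entry hB he).2 (not_le.1 hcon))
  by_cases hA : S.VirtA pt w
  · right; right
    refine ⟨hA, fun e hde heK => ?_⟩
    rw [hi_of_A hA] at he h hge
    have h1 := (h.mem_entry hB (he.trans hde)).1 heK
    have g1 : S.g (S.g w) ≠ S.g w := g_ne_iff.2 hw.glued
    have h2 : S.cw (S.g w) = rot w := by rw [cw_of_glued g1, S.invol]
    have h3 := ps_of_glued hl g1
    rw [h2] at h3
    have h4 : S.Eqv (S.g w) (rot w) := by rw [← h2]; exact S.cw_eqv _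
    have g2 := hA.glued_rot
    have h5 : S.cw (rot w) = rot (S.g (rot w)) := cw_of_glued g2
    have h6 := ps_of_glued hl g2
    rw [h5] at h6
    have h7 : S.Eqv (rot w) (rot (S.g (rot w))) := Eqv.of_glued g2
    have h8 : S.ps (rot (S.g (rot w))) = 0 := ps_of_unglued hA.blade.2.2.1
    rcases Nat.lt_or_ge 0 (S.ps e) with h9 | h9
    · left; exact ps_inj hl (hde.symm.trans (he.symm.trans h4)) (by omega)
    · right; exact ps_inj hl (hde.symm.trans (he.symm.trans (h4.trans h7))) (by omega)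
  · have e1 : S.g (S.hi pt w) = unrot w := by rw [hi_of_not_A hA, g_ccw hw.glued']
    rw [e1] at he hge
    rcases hw with hw | hw | hw
    · left
      have h1 : S.g (unrot (unrot w)) = unrot (unrot w) := by
        rw [unrot_unrot]; exact hw.2.2.1
      have h2 := ps_le_of_top hl h1 he
      exact ⟨hw, ps_inj hl he.symm (by omega)⟩
    · exact absurd hw hA
    · right; left
      refine ⟨hw, ?_⟩
      have g1 : S.g (unrot (unrot w)) ≠ unrot (unrot w) := by
        rw [unrot_unrot]; exact hw.glued_rot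
      have h2 : S.ccw (unrot w) = S.g (rot w) := by rw [ccw_of_glued g1, unrot_unrot]
      have h3 := ps_ccw hl g1
      have h4 : S.Eqv (unrot w) (S.g (rot w)) := by rw [← h2]; exact ccw_eqv g1
      have h5 : S.g (unrot (S.g (rot w))) = unrot (S.g (rot w)) := by
        have := hw.blade.2.2.1
        rwa [rot_rot] at this
      have h6 := ps_le_of_top hl h5 (h4.symm.trans he)
      rw [h2] at h3
      rcases Nat.lt_or_ge (S.ps (unrot w)) (S.ps d) with h7 | h7
      · right; exact ps_inj hl (he.symm.trans h4) (by omega)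
      · left; exact ps_inj hl he.symm (by omega)

/-- the `x` corner of a b-like side is a visit of `Zr` -/
theorem Base.BLg_iff (hB : Base S pt) {w w' : Sd I} (h : S.Cons pt w w') {z : Sd I} :
    S.BLg pt (S.pA pt w w') w z ↔ S.BL pt w w' z := by
  constructor
  · rintro ⟨u, hu, he, hm, hx⟩
    rcases hB.blade_in_pA h hu.bladeAt he.symm hm with ⟨rfl, hA⟩ | ⟨rfl, hV⟩
    · exact Or.inl ⟨hA, hx⟩
    · exact Or.inr ⟨hV, hx⟩
  · rintro (⟨hA, hx⟩ | ⟨hV, hx⟩)
    · exact ⟨w, Or.inl hA, Eqv.refl _ _, (hB.mem_pA_left h.toPr).2 hA, hx⟩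
    · exact ⟨w', Or.inr hV, h.eqv.symm, (hB.mem_pA_right h.toPr).2 hV, hx⟩

/-- summary of the OUT lemmas for `A_p`: `c` in `A_p`, `d` outside, both at a visit different from
the visit of the pair -/
theorem Base.out_cases (hB : Base S pt) {w w' c d z : Sd I} (h : S.Cons pt w w')
    (hne : ¬ S.Eqv w c) (hc : S.Eqv c z) (hcK : c.1 ∈ S.pA pt w w') (hd : S.Eqv d z)
    (hdK : d.1 ∉ S.pA pt w w') :
    S.BLg pt (S.pA pt w w') w z ∨
    (S.Blade w' ∧ d = rot w') ∨ (S.VirtA pt w' ∧ (d = rot w' ∨ d = rot (S.g (rot w')))) ∨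
    (S.Blade w ∧ d = unrot w) ∨ (S.VirtB pt w ∧ (d = unrot w ∨ d = S.g (rot w))) := by
  have hR := (hB.isIn_pA h.toPr).reg2
  have hne' : ¬ S.Eqv (S.hi pt w) c := fun h1 => hne (h.b.eqv_hi.trans h1)
  rcases hR.outside hB hne' hcK (hc.trans hd.symm) hdK with ⟨h1, _⟩ | ⟨h1, _⟩
  · have he : S.Eqv (S.g (S.lo pt w')) d := h1.symm.trans (hc.trans hd.symm)
    rcases hB.out_upper h.b' hR he hdK with h2 | h2 | h2
    · exact Or.inr (Or.inl h2)
    · exact Or.inr (Or.inr (Or.inl h2))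
    · left
      rw [hB.BLg_iff h]
      right
      refine ⟨h2.1, ?_⟩
      rw [xc_of_not_A h2.1.not_A]
      have eσ : S.g (S.lo pt w') = unrot w' := by rw [lo_of_B h2.1, g_ccw h.b'.glued']
      rw [eσ] at he
      exact he.trans hd
  · have he : S.Eqv (S.g (S.hi pt w)) d := h1.symm.trans (hc.trans hd.symm)
    rcases hB.out_lower h.b hR he hdK with h2 | h2 | h2
    · exact Or.inr (Or.inr (Or.inr (Or.inl h2)))
    · exact Or.inr (Or.inr (Or.inr (Or.inr h2)))
    · left
      rw [hB.BLg_iff h]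
      left
      refine ⟨h2.1, ?_⟩
      rw [xc_of_A h2.1]
      rw [hi_of_A h2.1] at he
      exact (Eqv.of_glued' h.b.glued).trans (he.trans hd)

/-- zA -/
theorem Base.zA (hB : Base S pt) {w w' : Sd I} (h : S.Cons pt w w') {z : Sd I}
    (hz : z ∈ S.Zr pt (S.pA pt w w') (S.Eqv w)) :
    S.BLg pt (S.pA pt w w') w z ∨ S.NoB pt z := by
  simp only [Zr, mem_filter] at hz
  obtain ⟨-, hne, ⟨c, hc, hcK⟩, hno⟩ := hz
  by_cases hN : S.NoB pt z
  · exact Or.inr hN
  left
  unfold NoB at hN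
  push Not at hN
  obtain ⟨u, hu, huz⟩ := hN
  have huK : u.1 ∉ S.pA pt w w' := fun h1 => hno u hu h1 huz
  have hwc : ¬ S.Eqv w c := fun h1 => hne (h1.trans hc)
  rcases hB.out_cases h hwc hc hcK huz huK with h1 | ⟨h1, rfl⟩ | ⟨h1, rfl | rfl⟩ | ⟨h1, rfl⟩ |
    ⟨h1, rfl | rfl⟩
  · exact h1
  · exact absurd (hB.one _ _ hu h1.bladeAt rfl) (rot_ne w')
  · exact absurd (hB.one _ _ hu (Or.inr (Or.inl h1)) rfl) (rot_ne w')
  · exact absurd (hB.one _ _ hu h1.blade.bladeAt rfl) (rot_ne _)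
  · exact absurd (hB.one _ _ hu h1.bladeAt rfl) (unrot_ne w)
  · exact absurd (hB.one _ _ hu (Or.inr (Or.inr h1)) rfl) (unrot_ne w)
  · exact absurd (hB.one _ _ hu h1.blade.bladeAt rfl) (rot_ne _).symm

/-- zB -/
theorem Base.zB (hB : Base S pt) {w w' u u' : Sd I} (h : S.Cons pt w w') (h' : S.Cons pt u u')
    (hd : Disjoint (S.pA pt w w') (S.pA pt u u')) {z : Sd I} (hz : S.NoB pt z)
    (h1 : S.Meets (S.pA pt w w') z) (h2 : S.Meets (S.pA pt u u') z) :
    S.BLg pt (S.pA pt w w') w z ∨ S.BLg pt (S.pA pt u u') u z := by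
  obtain ⟨c, hc, hcK⟩ := h1
  obtain ⟨d, hdz, hdA⟩ := h2
  have hdK : d.1 ∉ S.pA pt w w' := fun h3 => disjoint_left.1 hd h3 hdA
  have hwc : ¬ S.Eqv w c := fun h3 => hz w h.b (h3.trans hc)
  have hI := hB.isIn_pA h.toPr
  have hI' := hB.isIn_pA h'.toPr
  have noK : ∀ t, t ∈ S.pA pt w w' → t ∉ S.pA pt u u' := fun t h3 => disjoint_left.1 hd h3
  -- a boundary side of `A'`
  have bdA : ∀ e : Sd I, S.g e ≠ e → e.1 ∈ S.pA pt u u' → (S.g e).1 ∉ S.pA pt u u' →
      S.Eqv e u ∨ S.Eqv (rot e) u := by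
    intro e h3 h4 h5
    have h6 : e ∈ S.bd (S.pA pt u u') := by rw [mem_bd]; exact ⟨h3, h4, h5⟩
    rw [hI'.bd, mem_insert, mem_singleton] at h6
    rcases h6 with h6 | h6
    · left; rw [h6]; exact h'.b.eqv_hi.symm
    · right; rw [h6]
      exact (Eqv.of_glued h'.b'.glued_lo).symm.trans (h'.b'.eqv_lo.symm.trans h'.eqv.symm)
  have noz : ∀ e, S.Eqv e z → ¬ S.Eqv e u := fun e h3 h4 => hz u h'.b (h4.symm.trans h3)
  -- real blades at the visit of `u` are not in `A'`
  have noreal : ∀ e, S.Blade e → S.Eqv e u → e.1 ∈ S.pA pt u u' → False := by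
    intro e h3 h4 h5
    rcases hB.blade_in_pA h' h3.bladeAt h4.symm h5 with ⟨h6, h7⟩ | ⟨h6, h7⟩
    · rw [h6] at h3; exact h3.not_A h7
    · rw [h6] at h3; exact h3.not_B h7
  -- the partner of the stub is in `A`
  have s1 : (S.g (S.lo pt w')).1 ∈ S.pA pt w w' := (mem_bd.1 hI.mem_right).2.1
  have s2 : (S.hi pt w).1 ∈ S.pA pt w w' := (mem_bd.1 hI.mem_left).2.1
  rcases hB.out_cases h hwc hc hcK hdz hdK with h3 | ⟨h3, rfl⟩ | ⟨h3, h4⟩ | ⟨h3, rfl⟩ | ⟨h3, h4⟩
  · exact Or.inl h3
  · -- real, upper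
    exfalso
    rw [lo_of_not_B h3.not_B] at s1
    rcases bdA w' h3.1 hdA (noK _ s1) with h5 | h5
    · exact noreal w' h3 h5 hdA
    · exact noz _ hdz h5
  · -- VirtA, upper
    right
    rw [lo_of_not_B h3.not_B] at s1
    have e1 : S.Eqv (rot w') (rot (S.g (rot w'))) := Eqv.of_glued h3.glued_rot
    have hxz : S.Eqv (rot w') z := by
      rcases h4 with h4 | h4
      · rw [← h4]; exact hdz
      · rw [h4] at hdz; exact e1.trans hdz
    by_cases hw' : w'.1 ∈ S.pA pt u u'
    · rcases bdA w' h.b'.glued hw' (noK _ s1) with h5 | h5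
      · refine ⟨w', Or.inl h3, h5, hw', ?_⟩
        rw [xc_of_A h3]; exact hxz
      · exact absurd h5 (noz _ hxz)
    · exfalso
      have h6 : d = rot (S.g (rot w')) := by
        rcases h4 with h4 | h4
        · rw [h4] at hdA; exact absurd hdA hw'
        · exact h4
      have h7 : (S.g (rot w')).1 ∈ S.pA pt u u' := by rw [h6] at hdA; exact hdA
      have h8 : S.g (S.g (rot w')) ≠ S.g (rot w') := g_ne_iff.2 h3.glued_rot
      rcases bdA (S.g (rot w')) h8 h7 (by rw [S.invol]; exact hw') with h5 | h5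
      · exact noreal _ h3.blade h5 h7
      · rw [h6] at hdz; exact noz _ hdz h5
  · -- real, lower
    exfalso
    rw [hi_of_not_A h3.not_A, ccw_of_glued h3.2.1] at s2
    rcases bdA (unrot w) h3.2.1 hdA (noK _ s2) with h5 | h5
    · exact noz _ hdz h5
    · rw [rot_unrot] at h5
      exact noreal w h3 h5 hdA
  · -- VirtB, lower
    right
    have gl := h.b.glued'
    rw [hi_of_not_A h3.not_A, ccw_of_glued gl] at s2
    have e1 : S.Eqv (unrot w) (S.g (rot w)) := by
      have := Eqv.of_glued' h3.glued_rot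
      rwa [rot_rot] at this
    have hxz : S.Eqv (unrot w) z := by
      rcases h4 with h4 | h4
      · rw [← h4]; exact hdz
      · rw [h4] at hdz; exact e1.trans hdz
    by_cases hw' : w.1 ∈ S.pA pt u u'
    · rcases bdA (unrot w) gl hw' (noK _ s2) with h5 | h5
      · exact absurd h5 (noz _ hxz)
      · rw [rot_unrot] at h5
        refine ⟨w, Or.inr h3, h5, hw', ?_⟩
        rw [xc_of_not_A h3.not_A]; exact hxz
    · exfalso
      have h6 : d = S.g (rot w) := by
        rcases h4 with h4 | h4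
        · rw [h4] at hdA; exact absurd hdA hw'
        · exact h4
      have h7 : (S.g (rot w)).1 ∈ S.pA pt u u' := by rw [h6] at hdA; exact hdA
      have h8 : S.g (S.g (rot w)) ≠ S.g (rot w) := g_ne_iff.2 h3.glued_rot
      rcases bdA (S.g (rot w)) h8 h7 (by rw [S.invol]; exact hw') with h5 | h5
      · rw [h6] at hdz; exact noz _ hdz h5
      · exact noreal _ h3.blade h5 h7

/-- ear ends of eared triangles outside `A_p` -/
theorem Base.zE (hB : Base S pt) {w w' : Sd I} (h : S.Cons pt w w') {c : Sd I} (hc : S.Eared c)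
    (hcA : c.1 ∉ S.pA pt w w') {z : Sd I} (hz : S.EndOf c z) (hm : S.Meets (S.pA pt w w') z) :
    S.BLg pt (S.pA pt w w') w z := by
  obtain ⟨m, hmz, hmK⟩ := hm
  have hend : S.EarEnd z := by
    refine ⟨rot c, hc.2.2, ?_⟩
    rcases hz with hz | hz
    · exact Or.inl hz
    · right; rw [rot_rot]; exact hz
  have hwm : ¬ S.Eqv w m := fun h1 => hB.earEnd z w hend h.b (h1.trans hmz).symm
  have hex : ∃ d, S.Eqv d z ∧ d.1 = c.1 := by
    rcases hz with hz | hz
    · exact ⟨rot c, hz, rfl⟩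
    · exact ⟨unrot c, hz, rfl⟩
  obtain ⟨d, hd, hd1⟩ := hex
  have hdK : d.1 ∉ S.pA pt w w' := by rw [hd1]; exact hcA
  rcases hB.out_cases h hwm hmz hmK hd hdK with h1 | ⟨h1, rfl⟩ | ⟨h1, rfl | rfl⟩ | ⟨h1, rfl⟩ |
    ⟨h1, rfl | rfl⟩
  · exact h1
  · exact absurd hd1 (h1.not_eared hc)
  · exact absurd (h1.face) (by rw [show w'.1 = c.1 from hd1]; exact hc.not_face)
  · exact absurd hd1 (h1.blade.not_eared hc)
  · exact absurd hd1 (h1.not_eared hc)
  · exact absurd (h1.face) (by rw [show w.1 = c.1 from hd1]; exact hc.not_face)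
  · exact absurd hd1 (h1.blade.not_eared hc)

end Obj

end AG
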