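import Pool.Agent.AG.Reg.Torso
import Pool.Agent.AG.Reg.Out

/-!
# Project AG, block 6: the environment `(R, V)`, its family of consecutive pairs, children
-/

set_option linter.unusedSectionVars false
set_option linter.unusedSimpArgs false
set_option linter.unusedVariables false

namespace AG

open Finset

variable {I : Type} [DecidableEq I]

namespace Obj

variable {S : Obj I} {pt : Sd I → Pt}

/-- the region `R` with its visit `V` (closed case: `R = F`, `V` never) -/
structure Env (S : Obj I) (pt : Sd I → Pt) (R : Finset I) (V : Sd I → Prop) : Prop where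
  base : Base S pt
  shape : S.Shape R V 0
  Vbl : ∀ z, V z → ∃ w, S.BladeAt pt w ∧ S.Eqv w z
  subA : ∀ p ∈ S.CP pt R V, S.pA pt p.1 p.2 ⊆ R
  noV : ∀ p ∈ S.CP pt R V, ∀ u, S.BladeAt pt u → V u → u.1 ∉ S.pA pt p.1 p.2
  ne : ∀ p ∈ S.CP pt R V, ∀ q ∈ S.CP pt R V, S.pA pt p.1 p.2 ∪ S.pA pt q.1 q.2 ≠ S.F

theorem mem_CP {K : Finset I} {V : Sd I → Prop} {p : Sd I × Sd I} :
    p ∈ S.CP pt K V ↔ S.Cons pt p.1 p.2 ∧ p.1.1 ∈ K ∧ p.2.1 ∈ K ∧ ¬ V p.1 := by
  classical
  unfold CP
  rw [mem_filter, mem_product, mem_sides, mem_sides]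
  constructor
  · exact fun h => h.2
  · exact fun h => ⟨⟨h.1.toPr.b.memF, h.1.toPr.b'.memF⟩, h⟩

theorem mem_CandK {K : Finset I} {V : Sd I → Prop} {w : Sd I} :
    w ∈ S.CandK pt K V ↔ S.Vir pt w ∧ w.1 ∈ K ∧ ¬ V w := by
  classical
  unfold CandK
  rw [mem_filter, mem_sides]
  exact ⟨fun h => h.2, fun h => ⟨h.1.bladeAt.memF, h⟩⟩

theorem mem_EarsK {K : Finset I} {c : Sd I} : c ∈ S.EarsK K ↔ S.Eared c ∧ c.1 ∈ K := by
  classical
  unfold EarsK
  rw [mem_filter, mem_sides]
  exact ⟨fun h => h.2, fun h => ⟨h.1.memF, h⟩⟩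

theorem mem_EarK {K : Finset I} {c : Sd I} :
    c ∈ S.EarK pt K ↔ S.Eared c ∧ c.1 ∈ K ∧ ¬ S.Enc pt c := by
  classical
  unfold EarK
  rw [mem_filter, mem_sides]
  exact ⟨fun h => h.2, fun h => ⟨h.1.memF, h⟩⟩

theorem mem_Zr {K : Finset I} {V : Sd I → Prop} {z : Sd I} :
    z ∈ S.Zr pt K V ↔ (z.1 ∈ S.F ∧ S.g z = z) ∧ ¬ V z ∧ S.Meets K z ∧
      ∀ w, S.BladeAt pt w → w.1 ∈ K → ¬ S.Eqv w z := by
  classical
  unfold Zr
  rw [mem_filter, mem_vis]

theorem mem_PIn {K : Finset I} {V : Sd I → Prop} {p : Sd I × Sd I} :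
    p ∈ S.PIn pt K V ↔ p ∈ S.CP pt K V ∧ ¬ S.Triv pt p.1 p.2 := by
  classical
  unfold PIn
  rw [mem_filter]

/-! ### consecutive pairs at one visit -/

/-- the upper blade of a consecutive pair is determined by the lower one and conversely -/
theorem Base.cons_unique (hB : Base S pt) {w w' u u' : Sd I} (h : S.Cons pt w w')
    (h' : S.Cons pt u u') (e : w = u) : w' = u' := by
  subst e
  have hp := h.toPr
  have hp' := h'.toPr
  apply ps_inj hB.lin (hp.eqv.symm.trans hp'.eqv)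
  rcases Nat.lt_trichotomy (S.ps w') (S.ps u') with h1 | h1 | h1
  · exact absurd h1 (fun h2 => h'.no w' hp.b' hp.eqv hp.lt h2)
  · exact h1
  · exact absurd h1 (fun h2 => h.no u' hp'.b' hp'.eqv hp'.lt h2)

/-- the sets `A` of two different consecutive pairs at one visit are disjoint -/
theorem Base.disj_same (hB : Base S pt) {w w' u u' : Sd I} (h : S.Cons pt w w')
    (h' : S.Cons pt u u') (e : S.Eqv w u) (hne : w ≠ u) :
    Disjoint (S.pA pt w w') (S.pA pt u u') := by
  have key : ∀ {w w' u u' : Sd I}, S.Cons pt w w' → S.Cons pt u u' → S.Eqv w u →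
      S.ps w < S.ps u → Disjoint (S.pA pt w w') (S.pA pt u u') := by
    intro w w' u u' h h' e hlt
    have hp := h.toPr
    have hp' := h'.toPr
    have h1 : S.ps w' ≤ S.ps u := by
      by_contra h2
      exact h.no u hp'.b e hlt (by omega)
    have e1 : S.Eqv w' u := hp.eqv.symm.trans e
    have h3 : S.ps (S.lo pt w') ≤ S.ps (S.hi pt u) := by
      rcases Nat.lt_or_ge (S.ps w') (S.ps u) with h4 | h4
      · have h5 := hB.int ⟨hp.b', hp'.b, e1, h4⟩
        have h6 := hp.b'.ps_lo_le_hi hB.lin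
        have h7 := hp'.b.ps_lo_le_hi hB.lin
        omega
      · have h5 : w' = u := ps_inj hB.lin e1 (by omega)
        rw [h5]
        exact hp'.b.ps_lo_le_hi hB.lin
    exact (hB.isIn_pA hp).disjoint hB.conn hB.lin hB.loopless (hB.isIn_pA hp')
      ((hp.b.eqv_hi.symm.trans e).trans hp'.b.eqv_hi) h3
  rcases Nat.lt_trichotomy (S.ps w) (S.ps u) with h1 | h1 | h1
  · exact key h h' e h1
  · exact absurd (ps_inj hB.lin e h1) hne
  · exact (key h' h e.symm h1).symm

theorem Base.pA_nonempty (hB : Base S pt) {w w' : Sd I} (h : S.Pr pt w w') :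
    (S.pA pt w w').Nonempty := (hB.isIn_pA h).nonempty

/-- consecutive pairs with the same set are equal -/
theorem Base.pA_inj (hB : Base S pt) {w w' u u' : Sd I} (h : S.Cons pt w w')
    (h' : S.Cons pt u u') (e : S.pA pt w w' = S.pA pt u u') : w = u ∧ w' = u' := by
  have h1 := (hB.isIn_pA h.toPr).reg2
  have h2 := (hB.isIn_pA h'.toPr).reg2
  rw [← e] at h2
  have h3 := (h1.unique hB h2).1
  have h4 : S.Eqv w u := by
    have := h'.toPr.b.eqv_hi
    rw [← h3] at this
    exact h.toPr.b.eqv_hi.trans this.symm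
  have h5 : w = u := by
    by_contra hne
    have h6 := hB.disj_same h h' h4 hne
    rw [← e, disjoint_self] at h6
    have := hB.pA_nonempty h.toPr
    rw [h6] at this
    exact not_nonempty_empty this
  exact ⟨h5, hB.cons_unique h h' h5⟩

namespace Env

variable {R : Finset I} {V : Sd I → Prop} {p q : Sd I × Sd I}

/-- laminarity -/
theorem lam (hE : Env S pt R V) (hp : p ∈ S.CP pt R V) (hq : q ∈ S.CP pt R V) (hne : p ≠ q) :
    Disjoint (S.pA pt p.1 p.2) (S.pA pt q.1 q.2) ∨ S.pA pt p.1 p.2 ⊂ S.pA pt q.1 q.2 ∨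
      S.pA pt q.1 q.2 ⊂ S.pA pt p.1 p.2 := by
  have hB := hE.base
  have cp := (mem_CP.1 hp).1
  have cq := (mem_CP.1 hq).1
  have hneA : S.pA pt p.1 p.2 ≠ S.pA pt q.1 q.2 := fun e => by
    obtain ⟨h1, h2⟩ := hB.pA_inj cp cq e
    exact hne (Prod.ext h1 h2)
  by_cases hv : S.Eqv p.1 q.1
  · left
    refine hB.disj_same cp cq hv (fun e => hne (Prod.ext e (hB.cons_unique cp cq e)))
  · have h1 : ¬ S.Eqv (S.hi pt p.1) (S.hi pt q.1) := fun h2 =>
      hv ((cp.toPr.b.eqv_hi.trans h2).trans cq.toPr.b.eqv_hi.symm)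
    rcases hB.laminar (hB.isIn_pA cp.toPr) (hB.isIn_pA cq.toPr) h1 (hE.ne p hp q hq) with
      h2 | h2 | h2
    · exact Or.inl h2
    · exact Or.inr (Or.inl (Finset.ssubset_iff_subset_ne.2 ⟨h2, hneA⟩))
    · exact Or.inr (Or.inr (Finset.ssubset_iff_subset_ne.2 ⟨h2, fun e => hneA e.symm⟩))

/-- no blade pair: a corner above both blades is excluded ... the highest corner of a fan -/
theorem _root_.AG.Obj.ps_le_top_fan (hl : S.Linear) {a b : Sd I} (h : S.Eqv a b)
    (hb : S.g (unrot b) = unrot b) : S.ps a ≤ S.ps b := by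
  by_contra h1
  exact unrot_glued_of_lt hl h.symm (by omega) hb

/-- (iii), first direction: a member properly inside `A_p` has its blade triangles in `A_p` -/
theorem mem_of_ssubset (hE : Env S pt R V) (hp : p ∈ S.CP pt R V) (hq : q ∈ S.CP pt R V)
    (hs : S.pA pt q.1 q.2 ⊂ S.pA pt p.1 p.2) :
    q ∈ S.CP pt (S.pA pt p.1 p.2) (S.Eqv p.1) := by
  have hB := hE.base
  have hl := hB.lin
  have cp := (mem_CP.1 hp).1
  have cq := (mem_CP.1 hq).1
  have ip := hB.isIn_pA cp.toPr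
  have iq := hB.isIn_pA cq.toPr
  have hv : ¬ S.Eqv p.1 q.1 := by
    intro hv
    by_cases e : p.1 = q.1
    · have : p = q := Prod.ext e (hB.cons_unique cp cq e)
      rw [this] at hs
      exact (Finset.ssubset_iff_subset_ne.1 hs).2 rfl
    · have h1 := hB.disj_same cp cq hv e
      obtain ⟨t, ht⟩ := hB.pA_nonempty cq.toPr
      exact (disjoint_left.1 h1) (hs.1 ht) ht
  have hv1 : ¬ S.Eqv (S.hi pt p.1) q.1 := fun h => hv (cp.toPr.b.eqv_hi.trans h)
  have hv2 : ¬ S.Eqv (S.hi pt p.1) q.2 := fun h => hv1 (h.trans cq.toPr.eqv.symm)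
  rw [mem_CP]
  refine ⟨cq, ?_, ?_, hv⟩
  · -- the lower blade
    by_cases hA : S.VirtA pt q.1
    · exact hs.1 ((hB.mem_pA_left cq.toPr).2 hA)
    · by_contra hcon
      have e1 : S.hi pt q.1 = S.ccw q.1 := hi_of_not_A hA
      have h1 : (S.ccw q.1).1 ∈ S.pA pt p.1 p.2 := by
        rw [← e1]; exact hs.1 (mem_bd.1 iq.mem_left).2.1
      have h2 : S.g (S.ccw q.1) = unrot q.1 := g_ccw cq.toPr.b.glued'
      have h3 : S.ccw q.1 = S.g (S.lo pt p.2) := by
        refine ip.reg2.exit hB ?_ (ccw_glued cq.toPr.b.glued') h1 ?_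
        · exact fun h => hv1 (h.trans (ccw_eqv cq.toPr.b.glued').symm)
        · rw [h2]; exact hcon
      have h4 : S.lo pt p.2 = unrot q.1 := by
        rw [← h2, h3, S.invol]
      by_cases hBp : S.VirtB pt p.2
      · rw [lo_of_B hBp, ccw_of_glued cp.toPr.b'.glued'] at h4
        have h5 : unrot p.2 = S.ccw q.1 := by
          rw [← S.invol (unrot p.2), h4, ccw_of_glued cq.toPr.b.glued']
        -- the top corner
        have h6 : S.g (unrot (S.g (rot p.2))) = unrot (S.g (rot p.2)) := by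
          have := hBp.blade.2.2.1
          rwa [rot_rot] at this
        have h7 : S.ccw (S.ccw q.1) = S.g (rot p.2) := by
          rw [← h5, ccw_of_glued, unrot_unrot]
          rw [unrot_unrot]; exact hBp.glued_rot
        have h8 : S.g (unrot (S.ccw q.1)) ≠ unrot (S.ccw q.1) := by
          rw [← h5, unrot_unrot]; exact hBp.glued_rot
        have h9 := ps_ccw hl h8
        have h10 := ps_ccw hl cq.toPr.b.glued'
        have h11 : S.Eqv q.1 (S.ccw (S.ccw q.1)) := (ccw_eqv cq.toPr.b.glued').trans (ccw_eqv h8)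
        have h12 := ps_le_top_fan hl (cq.toPr.eqv.symm.trans h11) (by rw [h7]; exact h6)
        have h13 := cq.toPr.lt
        have h14 : S.ps q.2 = S.ps (S.ccw q.1) ∨ S.ps q.2 = S.ps (S.ccw (S.ccw q.1)) := by omega
        rcases h14 with h14 | h14
        · have h15 : q.2 = unrot p.2 := by
            rw [h5]; exact ps_inj hl (cq.toPr.eqv.symm.trans (ccw_eqv cq.toPr.b.glued')) h14
          have h16 : q.2 = p.2 := hB.one _ _ cq.toPr.b' cp.toPr.b' (by rw [h15]; rfl)
          rw [h16] at h15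
          exact unrot_ne _ h15.symm
        · have h15 : q.2 = S.g (rot p.2) := by
            rw [← h7]; exact ps_inj hl (cq.toPr.eqv.symm.trans h11) h14
          exact cq.toPr.b'.glued' (by rw [h15]; exact h6)
      · rw [lo_of_not_B hBp] at h4
        have h5 : p.2 = q.1 := hB.one _ _ cp.toPr.b' cq.toPr.b (by rw [h4]; rfl)
        rw [h5] at h4
        exact unrot_ne _ h4.symm
  · -- the upper blade
    by_cases hBq : S.VirtB pt q.2
    · exact hs.1 ((hB.mem_pA_right cq.toPr).2 hBq)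
    · by_contra hcon
      have e1 : S.lo pt q.2 = q.2 := lo_of_not_B hBq
      have h1 : (S.g q.2).1 ∈ S.pA pt p.1 p.2 := by
        have := (mem_bd.1 iq.mem_right).2.1
        rw [e1] at this
        exact hs.1 this
      have h3 : q.2 = S.g (S.hi pt p.1) := ip.reg2.entry hB hv2 cq.toPr.b'.glued hcon h1
      by_cases hA : S.VirtA pt p.1
      · rw [hi_of_A hA] at h3
        have g1 := cq.toPr.b'.glued
        have h5 : S.cw q.2 = rot p.1 := by rw [cw_of_glued g1, h3, S.invol]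
        have h6 : S.g (rot p.1) ≠ rot p.1 := hA.glued_rot
        have h7 : S.g (rot (S.g (rot p.1))) = rot (S.g (rot p.1)) := hA.blade.2.2.1
        have h8 := ps_of_glued hl g1
        rw [h5] at h8
        have h9 := ps_of_glued hl h6
        rw [cw_of_glued h6, ps_of_unglued h7] at h9
        have h10 := cq.toPr.lt
        have h11 : 0 < S.ps q.1 := (ps_pos_iff hl).2 cq.toPr.b.glued
        have h12 : q.1 = rot p.1 := by
          refine ps_inj hl (cq.toPr.eqv.trans ?_) (by omega)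
          rw [← h5]; exact S.cw_eqv _
        have h13 : q.1 = p.1 := hB.one _ _ cq.toPr.b cp.toPr.b (by rw [h12]; rfl)
        rw [h13] at h12
        exact rot_ne _ h12.symm
      · rw [hi_of_not_A hA, g_ccw cp.toPr.b.glued'] at h3
        have h5 : q.2 = p.1 := hB.one _ _ cq.toPr.b' cp.toPr.b (by rw [h3]; rfl)
        rw [h5] at h3
        exact unrot_ne _ h3.symm

/-- (iii), second direction -/
theorem ssubset_of_mem (hE : Env S pt R V) (hp : p ∈ S.CP pt R V)
    (hq : q ∈ S.CP pt (S.pA pt p.1 p.2) (S.Eqv p.1)) :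
    q ∈ S.CP pt R V ∧ S.pA pt q.1 q.2 ⊂ S.pA pt p.1 p.2 := by
  have hB := hE.base
  have hl := hB.lin
  have cp := (mem_CP.1 hp).1
  obtain ⟨cq, m1, m2, hv⟩ := mem_CP.1 hq
  have hsub := hE.subA p hp
  have hq' : q ∈ S.CP pt R V :=
    mem_CP.2 ⟨cq, hsub m1, hsub m2, fun h => hE.noV p hp q.1 cq.toPr.b h m1⟩
  refine ⟨hq', ?_⟩
  have ip := hB.isIn_pA cp.toPr
  have iq := hB.isIn_pA cq.toPr
  have hv1 : ¬ S.Eqv (S.hi pt p.1) q.1 := fun h => hv (cp.toPr.b.eqv_hi.trans h)
  have hv2 : ¬ S.Eqv (S.hi pt p.1) q.2 := fun h => hv1 (h.trans cq.toPr.eqv.symm)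
  have hne : p ≠ q := by
    rintro rfl
    exact hv (Eqv.refl _ _)
  rcases hE.lam hp hq' hne with h1 | h1 | h1
  · exfalso
    have hA : ¬ S.VirtA pt q.1 := fun hA =>
      (disjoint_left.1 h1) m1 ((hB.mem_pA_left cq.toPr).2 hA)
    have hBq : ¬ S.VirtB pt q.2 := fun hBq =>
      (disjoint_left.1 h1) m2 ((hB.mem_pA_right cq.toPr).2 hBq)
    have e1 : S.hi pt q.1 = S.ccw q.1 := hi_of_not_A hA
    have e2 : S.lo pt q.2 = q.2 := lo_of_not_B hBq
    have h2 : S.ccw q.1 = S.g (S.hi pt p.1) := by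
      refine ip.reg2.entry hB ?_ (ccw_glued cq.toPr.b.glued') ?_ ?_
      · exact fun h => hv1 (h.trans (ccw_eqv cq.toPr.b.glued').symm)
      · intro h3
        refine (disjoint_left.1 h1) h3 ?_
        rw [← e1]; exact (mem_bd.1 iq.mem_left).2.1
      · rw [g_ccw cq.toPr.b.glued']; exact m1
    have h3 : q.2 = S.g (S.lo pt p.2) := by
      refine ip.reg2.exit hB hv2 cq.toPr.b'.glued m2 ?_
      intro h4
      refine (disjoint_left.1 h1) h4 ?_
      have := (mem_bd.1 iq.mem_right).2.1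
      rwa [e2] at this
    apply ip.reg2.not_both hB
    rw [← h2, ← h3]
    exact cq.toPr.eqv.symm.trans (ccw_eqv cq.toPr.b.glued')
  · exfalso
    have h2 : ¬ S.Eqv (S.hi pt q.1) (S.hi pt p.1) := fun h =>
      hv1 (h.symm.trans cq.toPr.b.eqv_hi.symm)
    exact hB.fan iq ip h2 h1.1 cq.toPr.b.eqv_hi.symm (h1.1 m1) m1
  · exact h1

theorem mem_CP_pA (hE : Env S pt R V) (hp : p ∈ S.CP pt R V) :
    q ∈ S.CP pt (S.pA pt p.1 p.2) (S.Eqv p.1) ↔
      q ∈ S.CP pt R V ∧ S.pA pt q.1 q.2 ⊂ S.pA pt p.1 p.2 :=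
  ⟨hE.ssubset_of_mem hp, fun h => hE.mem_of_ssubset hp h.1 h.2⟩

end Env

/-! ### laminar families -/

open Classical in
/-- maximal members -/
noncomputable def maxs {α : Type} (C : Finset α) (A : α → Finset I) : Finset α :=
  C.filter (fun d => ∀ q ∈ C, ¬ A d ⊂ A q)

theorem mem_maxs {α : Type} {C : Finset α} {A : α → Finset I} {d : α} :
    d ∈ maxs C A ↔ d ∈ C ∧ ∀ q ∈ C, ¬ A d ⊂ A q := by
  classical
  unfold maxs
  rw [mem_filter]

theorem exists_maxs {α : Type} {C : Finset α} {A : α → Finset I} {p : α} (hp : p ∈ C) :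
    ∃ d ∈ maxs C A, d = p ∨ A p ⊂ A d := by
  classical
  obtain ⟨d, hd, hmax⟩ := (C.filter (fun d => d = p ∨ A p ⊂ A d)).exists_max_image
    (fun d => (A d).card) ⟨p, mem_filter.2 ⟨hp, Or.inl rfl⟩⟩
  rw [mem_filter] at hd
  refine ⟨d, mem_maxs.2 ⟨hd.1, fun q hq hs => ?_⟩, hd.2⟩
  have h1 := hmax q (mem_filter.2 ⟨hq, Or.inr ?_⟩)
  · have := card_lt_card hs
    omega
  · rcases hd.2 with h2 | h2
    · rw [← h2]; exact hs
    · exact h2.trans hs

theorem maxs_disjoint {α : Type} {C : Finset α} {A : α → Finset I}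
    (hl : ∀ p ∈ C, ∀ q ∈ C, p ≠ q → Disjoint (A p) (A q) ∨ A p ⊂ A q ∨ A q ⊂ A p)
    {d e : α} (hd : d ∈ maxs C A) (he : e ∈ maxs C A) (hne : d ≠ e) : Disjoint (A d) (A e) := by
  rw [mem_maxs] at hd he
  rcases hl d hd.1 e he.1 hne with h | h | h
  · exact h
  · exact absurd h (hd.2 e he.1)
  · exact absurd h (he.2 d hd.1)

theorem lam_card {α : Type} (C : Finset α) (A : α → Finset I)
    (hne : ∀ p ∈ C, (A p).Nonempty)
    (hl : ∀ p ∈ C, ∀ q ∈ C, p ≠ q → Disjoint (A p) (A q) ∨ A p ⊂ A q ∨ A q ⊂ A p) :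
    C.card = ∑ d ∈ maxs C A, ((C.filter (fun q => A q ⊂ A d)).card + 1) := by
  classical
  have h1 : C = (maxs C A).biUnion (fun d => insert d (C.filter (fun q => A q ⊂ A d))) := by
    ext p
    simp only [mem_biUnion, mem_insert, mem_filter]
    constructor
    · intro hp
      obtain ⟨d, hd, h2⟩ := exists_maxs (A := A) hp
      exact ⟨d, hd, h2.elim (fun h => Or.inl h.symm) (fun h => Or.inr ⟨hp, h⟩)⟩
    · rintro ⟨d, hd, h2 | h2⟩
      · rw [h2]; exact (mem_maxs.1 hd).1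
      · exact h2.1
  conv_lhs => rw [h1]
  rw [card_biUnion]
  · refine sum_congr rfl fun d hd => ?_
    rw [card_insert_of_notMem]
    rw [mem_filter]
    exact fun h => (Finset.ssubset_iff_subset_ne.1 h.2).2 rfl
  · intro d hd e he hde
    have hdis := maxs_disjoint hl hd he hde
    have key : ∀ q, q ∈ C → (q = d ∨ A q ⊂ A d) → (q = e ∨ A q ⊂ A e) → False := by
      intro q hq h2 h3
      obtain ⟨t, ht⟩ := hne q hq
      refine (disjoint_left.1 hdis) (a := t) ?_ ?_
      · rcases h2 with h2 | h2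
        · rw [← h2]; exact ht
        · exact h2.1 ht
      · rcases h3 with h3 | h3
        · rw [← h3]; exact ht
        · exact h3.1 ht
    rw [Function.onFun, disjoint_left]
    intro q hq hq'
    simp only [mem_insert, mem_filter] at hq hq'
    have hqC : q ∈ C := by
      rcases hq with h | h
      · rw [h]; exact (mem_maxs.1 hd).1
      · exact h.1
    exact key q hqC (hq.imp id (fun h => h.2)) (hq'.imp id (fun h => h.2))

end Obj

end AG
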