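import Pool.Agent.AG.Reg.Kids

/-!
# Project AG, block 6: one more one-copy region is impossible (used with `K = A1` in section 8)
-/

set_option linter.unusedSectionVars false
set_option linter.unusedSimpArgs false
set_option linter.unusedVariables false

namespace AG

open Finset

variable {I : Type} [DecidableEq I]

namespace Obj

variable {S : Obj I} {pt : Sd I → Pt}

/-- a one-copy region `K` in `R` which contains no blade triangle of its visit and behaves like a
member of the laminar family does not exist -/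
theorem Env.no_extra {R : Finset I} {V : Sd I → Prop} (hE : Env S pt R V)
    (hVR : ∀ u, S.BladeAt pt u → V u → u.1 ∉ R)
    {c c' : Sd I} {K : Finset I} (hK : S.IsIn c c' K) (hKR : K ⊆ R) (hV : ¬ V c)
    (hno : ∀ u, S.BladeAt pt u → S.Eqv c u → u.1 ∉ K)
    (hdich : ∀ q ∈ S.CP pt R V, Disjoint (S.pA pt q.1 q.2) K ∨
      (S.pA pt q.1 q.2 ⊆ K ∧ q ∈ S.CP pt K (S.Eqv c)))
    (hin : ∀ q ∈ S.CP pt K (S.Eqv c), S.pA pt q.1 q.2 ⊆ K)
    (hzA : ∀ z, ¬ S.Eqv c z → S.Meets K z →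
      (∀ w, S.BladeAt pt w → w.1 ∈ K → ¬ S.Eqv w z) → S.NoB pt z)
    (hzB : ∀ q ∈ S.CP pt R V, Disjoint (S.pA pt q.1 q.2) K → ∀ z, S.NoB pt z →
      S.Meets (S.pA pt q.1 q.2) z → S.Meets K z → S.BLg pt (S.pA pt q.1 q.2) q.1 z)
    (hear : ∀ e, S.Eared e → e.1 ∈ R → e.1 ∉ K → ∀ z, S.EndOf e z → ¬ S.Meets K z) : False := by
  classical
  have hB := hE.base
  have hkid : ∀ q ∈ S.kids pt R V, q ∈ S.CP pt R V := fun q hq => (mem_maxs.1 hq).1
  have hCsub : ∀ q ∈ S.CP pt K (S.Eqv c), q ∈ S.CP pt R V := by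
    intro q hq
    obtain ⟨h1, h2, h3, _⟩ := mem_CP.1 hq
    exact mem_CP.2 ⟨h1, hKR h2, hKR h3, fun h4 => hVR _ h1.toPr.b h4 (hKR h2)⟩
  have hCmem : ∀ q ∈ S.CP pt R V, ¬ Disjoint (S.pA pt q.1 q.2) K →
      S.pA pt q.1 q.2 ⊆ K ∧ q ∈ S.CP pt K (S.Eqv c) := fun q hq hd =>
    (hdich q hq).resolve_left hd
  have hnd : ∀ q ∈ S.CP pt R V, S.pA pt q.1 q.2 ⊆ K → ¬ Disjoint (S.pA pt q.1 q.2) K := by
    intro q hq hs hd
    obtain ⟨t, ht⟩ := hB.pA_nonempty (mem_CP.1 hq).1.toPr
    exact (disjoint_left.1 hd) ht (hs ht)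
  have hA := hE.adm_R
  -- the count for `K`
  have e1 : (S.CP pt K (S.Eqv c)).card = ∑ d ∈ (S.kids pt R V).filter
      (fun q => ¬ Disjoint (S.pA pt q.1 q.2) K),
        ((S.CP pt (S.pA pt d.1 d.2) (S.Eqv d.1)).card + 1) := by
    rw [lam_card (S.CP pt K (S.Eqv c)) (fun q => S.pA pt q.1 q.2)
      (fun p hp => hB.pA_nonempty (mem_CP.1 hp).1.toPr)
      (fun p hp q hq hne => hE.lam (hCsub p hp) (hCsub q hq) hne)]
    have e2 : maxs (S.CP pt K (S.Eqv c)) (fun q => S.pA pt q.1 q.2) =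
        (S.kids pt R V).filter (fun q => ¬ Disjoint (S.pA pt q.1 q.2) K) := by
      ext d
      rw [mem_maxs, mem_filter]
      constructor
      · rintro ⟨h1, h2⟩
        have h3 := hnd d (hCsub d h1) (hin d h1)
        refine ⟨mem_maxs.2 ⟨hCsub d h1, fun q hq hs => ?_⟩, h3⟩
        refine h2 q (hCmem q hq (fun h4 => ?_)).2 hs
        exact h3 (h4.mono_left hs.1)
      · rintro ⟨h1, h2⟩
        refine ⟨(hCmem d (hkid d h1) h2).2, fun q hq hs => ?_⟩
        exact (mem_maxs.1 h1).2 q (hCsub q hq) hs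
    rw [e2]
    refine sum_congr rfl fun d hd => ?_
    rw [mem_filter] at hd
    congr 2
    ext q
    rw [mem_filter, hE.mem_CP_pA (hkid d hd.1)]
    constructor
    · exact fun h => ⟨hCsub q h.1, h.2⟩
    · intro h
      have h1 : S.pA pt q.1 q.2 ⊆ K := h.2.1.trans (hCmem d (hkid d hd.1) hd.2).1
      exact ⟨(hCmem q h.1 (hnd q h.1 h1)).2, h.2⟩
  have e2 := hA.card_CP hE
  have e3 := sum_filter_add_sum_filter_not (S.kids pt R V)
    (fun q => Disjoint (S.pA pt q.1 q.2) K)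
    (fun d => (S.CP pt (S.pA pt d.1 d.2) (S.Eqv d.1)).card + 1)
  -- the family
  let D : Finset (Sd I × Sd I) := (S.kids pt R V).filter (fun q => Disjoint (S.pA pt q.1 q.2) K)
  have hD : ∀ q, q ∈ D → q ∈ S.kids pt R V ∧ Disjoint (S.pA pt q.1 q.2) K := fun q hq => by
    simpa only [D, mem_filter] using hq
  let A : Option (Sd I × Sd I) → Finset I := fun o => o.elim K (fun q => S.pA pt q.1 q.2)
  let v : Option (Sd I × Sd I) → Sd I := fun o => o.elim c (fun q => q.1)
  have hF0 := hA.fam hE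
  have hF : S.Fam pt R V (insertNone D) A v := by
    refine ⟨?_, ?_, ?_, ?_, ?_, ?_, hF0.zV, ?_, ?_⟩
    · rintro (_ | q) hq
      · exact hKR
      · exact hF0.sub q (hD q (some_mem_insertNone.1 hq)).1
    · rintro (_ | q) hq (_ | q') hq' hne
      · exact absurd rfl hne
      · exact (hD q' (some_mem_insertNone.1 hq')).2.symm
      · exact (hD q (some_mem_insertNone.1 hq)).2
      · exact hF0.disj q (hD q (some_mem_insertNone.1 hq)).1 q'
          (hD q' (some_mem_insertNone.1 hq')).1 (fun h => hne (congrArg some h))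
    · rintro (_ | q) hq
      · exact hB.shape_in hK (fun u hu he hm => hno u (Or.inl hu) he hm)
      · exact hF0.shape q (hD q (some_mem_insertNone.1 hq)).1
    · rintro (_ | q) hq
      · exact hV
      · exact hF0.nV q (hD q (some_mem_insertNone.1 hq)).1
    · rintro (_ | q) hq w hw hm
      · exact fun h => hVR w hw.bladeAt h (hKR hm)
      · exact hF0.virV q (hD q (some_mem_insertNone.1 hq)).1 w hw hm
    · rintro (_ | q) hq z hz
      · obtain ⟨_, h2, h3, h4⟩ := mem_Zr.1 hz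
        exact Or.inr (hzA z h2 h3 h4)
      · exact hF0.zA q (hD q (some_mem_insertNone.1 hq)).1 z hz
    · rintro (_ | q) hq (_ | q') hq' hne z hz h1 h2
      · exact absurd rfl hne
      · have h3 := hD q' (some_mem_insertNone.1 hq')
        exact Or.inr (hzB q' (hkid q' h3.1) h3.2 z hz h2 h1)
      · have h3 := hD q (some_mem_insertNone.1 hq)
        exact Or.inl (hzB q (hkid q h3.1) h3.2 z hz h1 h2)
      · exact hF0.zB q (hD q (some_mem_insertNone.1 hq)).1 q'
          (hD q' (some_mem_insertNone.1 hq')).1 (fun h => hne (congrArg some h)) z hz h1 h2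
    · rintro (_ | q) hq e he heK heA z hz hm
      · exact absurd hm (hear e he heK heA z hz)
      · exact hF0.ear q (hD q (some_mem_insertNone.1 hq)).1 e he heK heA z hz hm
  have h1 := hB.torso_le hE.shape hF
  have e4 : ∑ i ∈ insertNone D, ((S.CP pt (A i) (S.Eqv (v i))).card + 1) =
      ((S.CP pt K (S.Eqv c)).card + 1) +
        ∑ d ∈ D, ((S.CP pt (S.pA pt d.1 d.2) (S.Eqv d.1)).card + 1) := by
    rw [sum_insertNone]
    rfl
  have e5 : ∑ d ∈ D, ((S.CP pt (S.pA pt d.1 d.2) (S.Eqv d.1)).card + 1) =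
      ∑ d ∈ (S.kids pt R V).filter (fun q => Disjoint (S.pA pt q.1 q.2) K),
        ((S.CP pt (S.pA pt d.1 d.2) (S.Eqv d.1)).card + 1) := rfl
  rw [e4, e5] at h1
  omega

end Obj

end AG
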