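import Pool.Agent.AG.Reg.Blade
import Pool.Agent.AG.Reg.Count

/-!
# Project AG, block 6: the counting identity (6.8)   (helper85)

`CP` = consecutive pairs of blades with both triangles in `K` at visits different from `V`
(trivial pairs included), `EarsK` = all eared triangles of `K`, `CandK` = virtual blades in `K` not at
`V`, `Zr` = visits different from `V` which meet `K` and have no blade triangle in `K` (ear ends
included).
-/

set_option linter.unusedSectionVars false
set_option linter.unusedSimpArgs false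
set_option linter.unusedVariables false

namespace AG

open Finset

variable {I : Type} [DecidableEq I]

namespace Obj

variable {S : Obj I} {pt : Sd I → Pt}

theorem Base.simple (hB : Base S pt) : S.Simple := fun a b ha hb h1 h2 => hB.seg a b ha hb h1 h2

/-! ### consecutive pairs of a finite set of corners -/

open Classical in
/-- consecutive pairs of `B` (in the same visit) -/
noncomputable def consP (S : Obj I) (B : Finset (Sd I)) : Finset (Sd I × Sd I) :=
  (B ×ˢ B).filter (fun p => S.Eqv p.1 p.2 ∧ S.ps p.1 < S.ps p.2 ∧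
    ∀ u ∈ B, S.Eqv p.1 u → S.ps p.1 < S.ps u → ¬ S.ps u < S.ps p.2)

theorem mem_consP {B : Finset (Sd I)} {p : Sd I × Sd I} : p ∈ S.consP B ↔
    p.1 ∈ B ∧ p.2 ∈ B ∧ S.Eqv p.1 p.2 ∧ S.ps p.1 < S.ps p.2 ∧
    ∀ u ∈ B, S.Eqv p.1 u → S.ps p.1 < S.ps u → ¬ S.ps u < S.ps p.2 := by
  simp [consP, and_assoc]

/-- the number of consecutive pairs -/
theorem card_consP (hl : S.Linear) (B : Finset (Sd I)) :
    (S.consP B).card + (B.image S.last).card = B.card := by
  classical
  let nm := B.filter (fun w => ∃ u ∈ B, S.Eqv u w ∧ S.ps u < S.ps w)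
  let mn := B.filter (fun w => ¬ ∃ u ∈ B, S.Eqv u w ∧ S.ps u < S.ps w)
  have h1 : nm.card + mn.card = B.card := card_filter_add_card_filter_not _
  have h2 : (S.consP B).card = nm.card := by
    have hi : (S.consP B).image Prod.snd = nm := by
      ext w
      rw [mem_image]
      constructor
      · rintro ⟨p, hp, rfl⟩
        obtain ⟨a, b, c, d, -⟩ := mem_consP.1 hp
        exact mem_filter.2 ⟨b, p.1, a, c, d⟩
      · intro hw
        obtain ⟨hwB, u, hu, huw, hps⟩ := mem_filter.1 hw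
        let U := B.filter (fun u => S.Eqv u w ∧ S.ps u < S.ps w)
        obtain ⟨m, hm, hmax⟩ := U.exists_max_image S.ps ⟨u, mem_filter.2 ⟨hu, huw, hps⟩⟩
        obtain ⟨m1, m2, m3⟩ := mem_filter.1 hm
        refine ⟨(m, w), mem_consP.2 ⟨m1, hwB, m2, m3, ?_⟩, rfl⟩
        intro v hv hmv h3 h4
        have := hmax v (mem_filter.2 ⟨hv, hmv.symm.trans m2, h4⟩)
        simp only at h3
        omega
    rw [← hi, card_image_of_injOn]
    intro p hp q hq hpq
    have hp' := mem_consP.1 (mem_coe.1 hp)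
    have hq' := mem_consP.1 (mem_coe.1 hq)
    obtain ⟨p1, p2⟩ := p
    obtain ⟨q1, q2⟩ := q
    simp only at hpq
    subst hpq
    obtain ⟨a1, a2, a3, a4, a5⟩ := hp'
    obtain ⟨b1, b2, b3, b4, b5⟩ := hq'
    simp only at a1 a2 a3 a4 a5 b1 b2 b3 b4 b5
    have h3 : S.Eqv p1 q1 := a3.trans b3.symm
    rcases Nat.lt_trichotomy (S.ps p1) (S.ps q1) with h | h | h
    · exact absurd b4 (a5 q1 b1 h3 h)
    · rw [ps_inj hl h3 h]
    · exact absurd a4 (b5 p1 a1 h3.symm h)
  have h3 : (B.image S.last).card = mn.card := by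
    have hi : mn.image S.last = B.image S.last := by
      apply subset_antisymm (image_subset_image (filter_subset _ _))
      intro z hz
      obtain ⟨w, hw, rfl⟩ := mem_image.1 hz
      let U := B.filter (fun u => S.Eqv u w)
      obtain ⟨m, hm, hmin⟩ := U.exists_min_image S.ps ⟨w, mem_filter.2 ⟨hw, Eqv.refl S w⟩⟩
      obtain ⟨m1, m2⟩ := mem_filter.1 hm
      refine mem_image.2 ⟨m, mem_filter.2 ⟨m1, ?_⟩, (eqv_iff hl).1 m2⟩
      rintro ⟨u, hu, hum, hlt⟩
      have := hmin u (mem_filter.2 ⟨hu, hum.trans m2⟩)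
      omega
    rw [← hi, card_image_of_injOn]
    intro a ha b hb hab
    obtain ⟨ha1, ha2⟩ := mem_filter.1 (mem_coe.1 ha)
    obtain ⟨hb1, hb2⟩ := mem_filter.1 (mem_coe.1 hb)
    have hab' : S.Eqv a b := (eqv_iff hl).2 hab
    rcases Nat.lt_trichotomy (S.ps a) (S.ps b) with h | h | h
    · exact absurd ⟨a, ha1, hab', h⟩ hb2
    · exact ps_inj hl hab' h
    · exact absurd ⟨b, hb1, hab'.symm, h⟩ ha2
  omega

/-! ### shapes -/

theorem mem_WK {K : Finset I} {V : Sd I → Prop} {z : Sd I} :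
    z ∈ S.WK K V ↔ z ∈ S.meet K ∧ ¬ V z := by
  simp only [WK, mem_filter, mem_meet]
  constructor
  · rintro ⟨h1, h2, c, h3, h4⟩; exact ⟨⟨h1, c, h3.symm, h4⟩, h2⟩
  · rintro ⟨⟨h1, c, h3, h4⟩, h2⟩; exact ⟨h1, h2, c, h3.symm, h4⟩

theorem Rg.shape {K : Finset I} {V : Sd I → Prop} {ε : ℕ} (h : S.Rg K V ε)
    (hr : ∀ c, S.Blade c → c.1 ∈ K → ¬ V c) : S.Shape K V ε where
  sub := h.sub
  Vinv := h.inv
  cnt := by
    have key : ∀ (inst : DecidablePred fun z => ¬ V z),
        (S.WK K V).card = ((S.meet K).filter (fun z => ¬ V z)).card := by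
      intro inst
      congr 1
      ext z
      rw [mem_WK, mem_filter]
    have inst : DecidablePred fun z => ¬ V z := fun _ => Classical.dec _
    exact (key inst).trans (h.count inst)
  conv a b c hab hbc hV h1 h2 ha hc := h.interval a c b hV (hab.trans hbc) hab h1 h2 ha hc
  noReal := hr

/-- a one-copy set is a region (`ε = 1`) -/
theorem Base.shape_in (hB : Base S pt) {c c' : Sd I} {K : Finset I} (h : S.IsIn c c' K)
    (hr : ∀ u, S.Blade u → S.Eqv c u → u.1 ∉ K) : S.Shape K (S.Eqv c) 1 :=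
  (h.rg hB.lin hB.loopless hB.simple).shape fun u hu huK hcu => hr u hu hcu huK

/-- the complement of a one-copy set is a region (`ε = 0`) -/
theorem Base.shape_compl (hB : Base S pt) {c c' : Sd I} {K : Finset I} (h : S.IsIn c c' K)
    (hr : ∀ u, S.Blade u → S.Eqv c u → u.1 ∈ K) : S.Shape (S.F \ K) (S.Eqv c) 0 :=
  (h.rg_compl hB.lin hB.loopless hB.simple).shape fun u hu huK hcu =>
    (mem_sdiff.1 huK).2 (hr u hu hcu)

/-- closed case -/
theorem Base.shape_closed (hB : Base S pt) : S.Shape S.F (fun _ => False) 0 :=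
  (rg_F hB.lin).shape fun _ _ _ h => h

/-- IDENTITY -/
theorem Base.ident (hB : Base S pt) {K : Finset I} {V : Sd I → Prop} {ε : ℕ}
    (h : S.Shape K V ε) :
    (S.CP pt K V).card + (S.EarsK K).card + ε = (S.CandK pt K V).card + (S.Zr pt K V).card := by
  classical
  have hl := hB.lin
  have hKF := h.sub
  set B := S.BlK pt K V with hBdef
  have memB : ∀ w, w ∈ B ↔ S.BladeAt pt w ∧ w.1 ∈ K ∧ ¬ V w := by
    intro w
    rw [hBdef]
    simp only [BlK, mem_filter, mem_sides, and_iff_right_iff_imp]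
    exact fun h => hKF h.2.1
  have memR : ∀ c, c ∈ S.RealK K ↔ S.Blade c ∧ c.1 ∈ K := by
    intro c
    simp only [RealK, mem_filter, mem_sides, and_iff_right_iff_imp]
    exact fun h => hKF h.2
  have memE : ∀ c, c ∈ S.EarsK K ↔ S.Eared c ∧ c.1 ∈ K := by
    intro c
    simp only [EarsK, mem_filter, mem_sides, and_iff_right_iff_imp]
    exact fun h => hKF h.2
  have memC : ∀ w, w ∈ S.CandK pt K V ↔ S.Vir pt w ∧ w.1 ∈ K ∧ ¬ V w := by
    intro w
    simp only [CandK, mem_filter, mem_sides, and_iff_right_iff_imp]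
    exact fun h => hKF h.2.1
  -- (1)
  have c1 : B.card = (S.RealK K).card + (S.CandK pt K V).card := by
    rw [← card_union_of_disjoint]
    · congr 1
      ext w
      rw [memB, mem_union, memR, memC]
      constructor
      · rintro ⟨h1, h2, h3⟩
        rcases h1.real_or_vir with h1 | h1
        · exact Or.inl ⟨h1, h2⟩
        · exact Or.inr ⟨h1, h2, h3⟩
      · rintro (⟨h1, h2⟩ | ⟨h1, h2, h3⟩)
        · exact ⟨h1.bladeAt, h2, h.noReal w h1 h2⟩
        · exact ⟨h1.bladeAt, h2, h3⟩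
    · rw [disjoint_left]
      intro w hw hw'
      exact ((memR w).1 hw).1.not_vir ((memC w).1 hw').1
  -- (2)
  have c2 := card_consP hl B
  -- (3)
  have c3 : S.consP B = S.CP pt K V := by
    ext p
    rw [mem_consP, memB, memB]
    simp only [CP, mem_filter, mem_product, mem_sides]
    constructor
    · rintro ⟨⟨a1, a2, a3⟩, ⟨b1, b2, b3⟩, d1, d2, d3⟩
      refine ⟨⟨hKF a2, hKF b2⟩, ⟨⟨a1, b1, d1, d2⟩, fun u hu hwu h1 h2 => ?_⟩, a2, b2, a3⟩
      have huK : u.1 ∈ K := h.conv p.1 u p.2 hwu (hwu.symm.trans d1) a3 h1.le h2.le a2 b2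
      exact d3 u ((memB u).2 ⟨hu, huK, fun hh => a3 (h.Vinv _ _ hwu.symm hh)⟩) hwu h1 h2
    · rintro ⟨-, hc, a2, b2, a3⟩
      exact ⟨⟨hc.b, a2, a3⟩, ⟨hc.b', b2, fun hh => a3 (h.Vinv _ _ hc.eqv.symm hh)⟩, hc.eqv, hc.lt,
        fun u hu hwu h1 h2 => hc.no u ((memB u).1 hu).1 hwu h1 h2⟩
  -- (4)
  have c4 : (S.vis.filter (fun a => a.1 ∈ K)).card = (S.RealK K).card + (S.EarsK K).card := by
    rw [← card_union_of_disjoint]
    · symm
      refine card_bij' (fun c _ => rot c) (fun a _ => unrot a) ?_ ?_ ?_ ?_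
      · intro c hc
        rw [mem_union, memR, memE] at hc
        rw [mem_filter, mem_vis]
        rcases hc with ⟨h1, h2⟩ | ⟨h1, h2⟩
        · exact ⟨⟨hKF h2, h1.2.2.1⟩, h2⟩
        · exact ⟨⟨hKF h2, S.earFree _ h1.2.2⟩, h2⟩
      · intro a ha
        rw [mem_filter, mem_vis] at ha
        rw [mem_union, memR, memE]
        obtain ⟨⟨h0, h1⟩, h2⟩ := ha
        rcases hB.of_unglued h0 h1 with ⟨-, h3⟩ | ⟨-, h3⟩
        · exact Or.inl ⟨h3, h2⟩
        · exact Or.inr ⟨h3, h2⟩
      · intro c _; exact unrot_rot c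
      · intro a _; exact rot_unrot a
    · rw [disjoint_left]
      intro c hc hc'
      exact ((memR c).1 hc).1.not_eared ((memE c).1 hc').1 rfl
  -- (5)
  have c5 : (S.WK K V).card = (B.image S.last).card + (S.Zr pt K V).card := by
    rw [← card_union_of_disjoint]
    · congr 1
      ext z
      simp only [WK, Zr, mem_union, mem_filter, mem_image]
      constructor
      · rintro ⟨hz, hV, hm⟩
        by_cases h1 : ∃ w, S.BladeAt pt w ∧ w.1 ∈ K ∧ S.Eqv w z
        · obtain ⟨w, hw, hwK, hwz⟩ := h1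
          left
          refine ⟨w, (memB w).2 ⟨hw, hwK, fun hh => hV (h.Vinv _ _ hwz hh)⟩, ?_⟩
          exact vis_eq_last hl hz hwz.symm
        · right
          exact ⟨hz, hV, hm, fun w hw hwK hwz => h1 ⟨w, hw, hwK, hwz⟩⟩
      · rintro (⟨w, hw, rfl⟩ | ⟨hz, hV, hm, -⟩)
        · obtain ⟨h1, h2, h3⟩ := (memB w).1 hw
          exact ⟨last_mem_vis hl (mem_sides.2 (hKF h2)),
            fun hh => h3 (h.Vinv _ _ (last_eqv S w).symm hh), w, last_eqv S w, h2⟩
        · exact ⟨hz, hV, hm⟩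
    · rw [disjoint_left]
      intro z hz hz'
      obtain ⟨w, hw, rfl⟩ := mem_image.1 hz
      have hw' := (memB w).1 hw
      simp only [Zr, mem_filter] at hz'
      exact hz'.2.2.2 w hw'.1 hw'.2.1 (last_eqv S w)
  have c6 := h.cnt
  rw [c3] at c2
  omega

end Obj

end AG
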