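import Pool.Agent.AG.Reg.Blade

/-!
# Project AG, block 6: crossing, laminarity (6.5), fan lemma (6.6), exits of a fan
-/

set_option linter.unusedSectionVars false
set_option linter.unusedSimpArgs false
set_option linter.unusedVariables false

namespace AG

open Finset

variable {I : Type} [DecidableEq I]

namespace Obj

variable {S : Obj I} {pt : Sd I → Pt}

/-- a region with two boundary edges at one visit: `a` starts there, `σ` ends there -/
structure Reg2 (S : Obj I) (K : Finset I) (a σ : Sd I) : Prop where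
  sub : K ⊆ S.F
  bd : S.bd K = {a, σ}
  vis : S.Eqv a (rot σ)

theorem IsIn.reg2 {c c' : Sd I} {K : Finset I} (h : S.IsIn c c' K) : S.Reg2 K c (S.g c') :=
  ⟨h.sub, h.bd, h.eqv.trans (Eqv.of_glued h.gl')⟩

theorem IsIn.reg2_compl {c c' : Sd I} {K : Finset I} (h : S.IsIn c c' K) :
    S.Reg2 (S.F \ K) c' (S.g c) := by
  refine ⟨sdiff_subset, ?_, h.eqv.symm.trans (Eqv.of_glued h.gl)⟩
  rw [bd_sdiff, inter_eq_right.2 h.sub, h.bd, image_insert, image_singleton, S.invol, pair_comm]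

theorem Reg2.memA {K : Finset I} {a σ : Sd I} (h : S.Reg2 K a σ) :
    S.g a ≠ a ∧ a.1 ∈ K ∧ (S.g a).1 ∉ K := by
  have : a ∈ S.bd K := by rw [h.bd]; simp
  rwa [mem_bd] at this

theorem Reg2.memS {K : Finset I} {a σ : Sd I} (h : S.Reg2 K a σ) :
    S.g σ ≠ σ ∧ σ.1 ∈ K ∧ (S.g σ).1 ∉ K := by
  have : σ ∈ S.bd K := by rw [h.bd]; simp
  rwa [mem_bd] at this

/-- leaving the region clockwise at another visit -/
theorem Reg2.exit (hB : Base S pt) {K : Finset I} {a σ c : Sd I} (h : S.Reg2 K a σ)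
    (hc : ¬ S.Eqv a c) (hg : S.g c ≠ c) (h1 : c.1 ∈ K) (h2 : (S.g c).1 ∉ K) : c = σ := by
  have h3 : c ∈ S.bd K := mem_bd.2 ⟨hg, h1, h2⟩
  rw [h.bd, mem_insert, mem_singleton] at h3
  rcases h3 with h3 | h3
  · rw [h3] at hc; exact absurd (Eqv.refl _ _) hc
  · exact h3

/-- entering the region clockwise at another visit -/
theorem Reg2.entry (hB : Base S pt) {K : Finset I} {a σ c : Sd I} (h : S.Reg2 K a σ)
    (hc : ¬ S.Eqv a c) (hg : S.g c ≠ c) (h1 : c.1 ∉ K) (h2 : (S.g c).1 ∈ K) : c = S.g a := by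
  have h3 : S.g c ∈ S.bd K := mem_bd.2 ⟨g_ne_iff.2 hg, h2, by rw [S.invol]; exact h1⟩
  rw [h.bd, mem_insert, mem_singleton] at h3
  rcases h3 with h3 | h3
  · rw [← h3, S.invol]
  · exfalso
    apply hc
    have h4 : c = S.g σ := by rw [← h3, S.invol]
    rw [h4]
    exact h.vis.trans (Eqv.of_glued' h.memS.1)

/-- no visit has both the exit and the entry; equivalently: the two boundary edges have different
second end points -/
theorem Reg2.not_both (hB : Base S pt) {K : Finset I} {a σ : Sd I} (h : S.Reg2 K a σ) :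
    ¬ S.Eqv σ (S.g a) := by
  intro he
  obtain ⟨a1, a2, a3⟩ := h.memA
  obtain ⟨s1, s2, s3⟩ := h.memS
  have h1 : S.Eqv (S.g σ) a := (Eqv.of_glued' s1).symm.trans h.vis.symm
  have h2 : S.Eqv (rot (S.g σ)) (rot a) := by
    refine (Eqv.of_glued s1).symm.trans (he.trans (Eqv.of_glued' a1).symm)
  have h3 := hB.seg (S.g σ) a (g_ne_iff.2 s1) a1 h1 h2
  rw [h3] at s3
  exact s3 a2

/-- the boundary edges determine the visit: two descriptions of the same region -/
theorem Reg2.unique (hB : Base S pt) {K : Finset I} {a σ a' σ' : Sd I} (h : S.Reg2 K a σ)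
    (h' : S.Reg2 K a' σ') : a = a' ∧ σ = σ' := by
  have hne : a ≠ σ := by
    rintro rfl
    exact hB.loopless a (h.sub h.memA.2.1) h.vis
  have e : ({a, σ} : Finset (Sd I)) = {a', σ'} := h.bd.symm.trans h'.bd
  have m1 : a ∈ ({a', σ'} : Finset (Sd I)) := by rw [← e]; simp
  have m2 : σ ∈ ({a', σ'} : Finset (Sd I)) := by rw [← e]; simp
  rw [mem_insert, mem_singleton] at m1 m2
  rcases m1 with m1 | m1 <;> rcases m2 with m2 | m2
  · exact absurd (m1.trans m2.symm) hne
  · exact ⟨m1, m2⟩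
  · exfalso
    apply h.not_both hB
    have h3 := h'.vis
    rw [← m1, ← m2] at h3
    exact h3.trans (Eqv.of_glued' h.memA.1)
  · exact absurd (m1.trans m2.symm) hne

/-- outside part of another visit: below the exit or above the entry -/
theorem Reg2.outside (hB : Base S pt) {K : Finset I} {a σ c d : Sd I} (h : S.Reg2 K a σ)
    (hc : ¬ S.Eqv a c) (h1 : c.1 ∈ K) (hcd : S.Eqv c d) (h2 : d.1 ∉ K) :
    (S.Eqv c σ ∧ S.ps d < S.ps σ) ∨ (S.Eqv c (S.g a) ∧ S.ps (S.g a) ≤ S.ps d) := by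
  rcases Nat.lt_or_ge (S.ps d) (S.ps c) with h3 | h3
  · left
    obtain ⟨e, e1, e2, e3, e4, e5, e6⟩ := exists_cross hB.lin hcd.symm h3.le (X := K)
      (fun h4 => h2 (h4.2 h1))
    have e7 : e.1 ∈ K := e6.2 h1
    have e8 : e = σ := h.exit hB (fun h5 => hc (h5.trans (e1.symm.trans hcd.symm))) e2 e7
      (fun h5 => e5 ⟨fun _ => h5, fun _ => e7⟩)
    rw [← e8]
    exact ⟨hcd.trans e1, e3⟩
  · right
    obtain ⟨e, e1, e2, e3, e4, e5, e6⟩ := exists_cross hB.lin hcd h3 (X := K)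
      (fun h4 => h2 (h4.1 h1))
    have e7 : e.1 ∉ K := fun h5 => h2 (e6.1 h5)
    have e8 : e = S.g a := h.entry hB (fun h5 => hc (h5.trans e1.symm)) e2 e7
      (by
        by_contra h5
        exact e5 ⟨fun h6 => absurd h6 e7, fun h6 => absurd h6 h5⟩)
    rw [← e8]
    exact ⟨e1, e4⟩

/-- 6.6 FAN LEMMA: the fan of the visit of `X` inside `X` avoids one-copy subsets at other visits -/
theorem Base.fan (hB : Base S pt) {c c' d d' : Sd I} {X Y : Finset I} (hX : S.IsIn c c' X)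
    (hY : S.IsIn d d' Y) (hne : ¬ S.Eqv c d) (hsub : Y ⊆ X) {u : Sd I} (hu : S.Eqv c u)
    (h1 : u.1 ∈ X) : u.1 ∉ Y := by
  intro hY'
  have hl := hB.lin
  have rY := hY.reg2
  have hpos := (hX.mem_iff hl hB.loopless hu).1 h1
  have hdu : ¬ S.Eqv d u := fun h => hne (hu.trans h.symm)
  -- below
  have hgc : (S.g c).1 ∉ Y := fun h => (mem_bd.1 hX.mem_left).2.2 (hsub h)
  have e1 : S.Eqv u (S.cw c) := hu.symm.trans (S.cw_eqv c)
  have p1 : S.ps (S.cw c) < S.ps u := by
    have := ps_of_glued hl hX.gl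
    omega
  have b1 : S.Eqv d' (S.g d') → False := fun h =>
    hB.loopless d' (S.memF _ hY.gl') (h.trans (Eqv.of_glued' hY.gl').symm)
  rcases rY.outside hB hdu hY' e1 (by rw [cw_fst hX.gl]; exact hgc) with ⟨h3, _⟩ | ⟨h3, h4⟩
  swap
  · -- the entry is below `u`: impossible, then `u` is not in `Y`
    obtain ⟨e, e2, e3, e4, e5, e6, e7⟩ := exists_cross hl e1.symm p1.le (X := Y)
      (fun h5 => hgc (by rw [← cw_fst hX.gl]; exact h5.2 hY'))
    have e8 : e.1 ∈ Y := e7.2 hY'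
    have e9 : e = S.g d' := rY.exit hB (fun h5 => hdu (h5.trans (e2.symm.trans e1.symm))) e3 e8
      (fun h5 => e6 ⟨fun _ => h5, fun _ => e8⟩)
    apply rY.not_both hB
    rw [← e9]
    exact (e2.symm.trans e1.symm).trans h3
  -- above
  have hc'Y : c'.1 ∉ Y := fun h => by
    have := (mem_bd.1 hX.mem_right).2.2
    rw [S.invol] at this
    exact this (hsub h)
  have e2 : S.Eqv u c' := hu.symm.trans hX.eqv
  obtain ⟨e, f1, f2, f3, f4, f5, f6⟩ := exists_cross hl e2 (by omega) (X := Y)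
    (fun h5 => hc'Y (h5.1 hY'))
  have f7 : e.1 ∉ Y := fun h5 => hc'Y (f6.1 h5)
  have f8 : e = S.g d := rY.entry hB (fun h5 => hdu (h5.trans f1.symm)) f2 f7
    (by
      by_contra h5
      exact f5 ⟨fun h6 => absurd h6 f7, fun h6 => absurd h6 h5⟩)
  apply rY.not_both hB
  rw [← f8]
  exact h3.symm.trans f1

/-- crossing of a one-copy set `Y` with a region `X` (one-copy set or complement of one): if the
four corners are not empty then one boundary edge of `Y` has both ends outside `X` -/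
theorem Base.cross_out (hB : Base S pt) {X Y : Finset I} (hX : X ⊆ S.F) (hX2 : (S.bd X).card = 2)
    (hY : Y ⊆ S.F) (hY2 : (S.bd Y).card = 2) (h1 : (X ∩ Y).Nonempty) (h2 : (X \ Y).Nonempty)
    (h3 : (Y \ X).Nonempty) (h4 : (S.F \ (X ∪ Y)).Nonempty) :
    ∃ f ∈ S.bd Y, f.1 ∉ X ∧ (S.g f).1 ∉ X := by
  obtain ⟨e, e', f, f', g1, g2, g3, g4, g5, g6⟩ :=
    crossing hB.conn hB.bl hX hY hX2 hY2 h1 h2 h3 h4
  exact ⟨f', by rw [g2]; simp, g6.1, g6.2.2.1⟩

/-- at the visit of a one-copy set `X` which crosses `Y` there is an edge of the boundary of `Y`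
with both triangles in `X` -/
theorem Base.inner_edge (hB : Base S pt) {c c' : Sd I} {X Y : Finset I} (hX : S.IsIn c c' X)
    (h : ¬ (c.1 ∈ Y ↔ (S.g c').1 ∈ Y)) :
    ∃ f, S.Eqv c f ∧ S.g f ≠ f ∧ f.1 ∈ X ∧ (S.g f).1 ∈ X ∧ ¬ (f.1 ∈ Y ↔ (S.g f).1 ∈ Y) := by
  have hl := hB.lin
  have h1 : (S.cw c').1 = (S.g c').1 := cw_fst hX.gl'
  have h2 := ps_of_glued hl hX.gl'
  have h3 := hX.lt
  have he : S.Eqv c (S.cw c') := hX.eqv.trans (S.cw_eqv c')
  obtain ⟨f, f1, f2, f3, f4, f5, f6⟩ := exists_cross hl he (by omega) (X := Y)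
    (by rw [h1]; exact h)
  refine ⟨f, f1, f2, ?_, ?_, f5⟩
  · rw [hX.mem_iff hl hB.loopless f1]; omega
  · rw [hX.g_left_iff hl hB.loopless f1 f2]; omega

/-- 6.5 LAMINAR: one-copy sets at different visits do not cross -/
theorem Base.laminar (hB : Base S pt) {c c' d d' : Sd I} {X Y : Finset I} (hX : S.IsIn c c' X)
    (hY : S.IsIn d d' Y) (hne : ¬ S.Eqv c d) (hU : X ∪ Y ≠ S.F) :
    Disjoint X Y ∨ X ⊆ Y ∨ Y ⊆ X := by
  by_contra hcon
  push Not at hcon
  obtain ⟨c1, c2, c3⟩ := hcon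
  have lp := hB.loopless
  obtain ⟨e, e', f, f', g1, g2, g3, g4, g5, g6⟩ :=
    crossing hB.conn hB.bl hX.sub hY.sub (hX.card lp) (hY.card lp)
      (by rwa [Finset.not_disjoint_iff_nonempty_inter] at c1) (by rwa [Finset.sdiff_nonempty])
      (by rwa [Finset.sdiff_nonempty]) (by
        rw [Finset.sdiff_nonempty]
        exact fun h => hU (subset_antisymm (union_subset hX.sub hY.sub) h))
  -- edges of the boundaries at the visits
  have ends : ∀ {c c' : Sd I} {X : Finset I}, S.IsIn c c' X → ∀ a ∈ S.bd X,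
      S.Eqv c a ∨ S.Eqv c (rot a) := by
    intro c c' X h a ha
    rw [h.bd, mem_insert, mem_singleton] at ha
    rcases ha with rfl | rfl
    · exact Or.inl (Eqv.refl _ _)
    · exact Or.inr (h.eqv.trans (Eqv.of_glued h.gl'))
  have hcX : c ∈ S.bd X := hX.mem_left
  have hcX' : S.g c' ∈ S.bd X := hX.mem_right
  have hdY : d ∈ S.bd Y := hY.mem_left
  have hdY' : S.g d' ∈ S.bd Y := hY.mem_right
  have neX := hX.ne lp
  have neY := hY.ne lp
  have sX : ¬ (c.1 ∈ Y ↔ (S.g c').1 ∈ Y) := by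
    rw [g1, mem_insert, mem_singleton] at hcX hcX'
    rcases hcX with h1 | h1 <;> rcases hcX' with h2 | h2
    · exact absurd (h1.trans h2.symm) neX
    · rw [h1, h2]; exact fun h => g4.2.1 (h.1 g3.2.1)
    · rw [h1, h2]; exact fun h => g4.2.1 (h.2 g3.2.1)
    · exact absurd (h1.trans h2.symm) neX
  have sY : ¬ (d.1 ∈ X ↔ (S.g d').1 ∈ X) := by
    rw [g2, mem_insert, mem_singleton] at hdY hdY'
    rcases hdY with h1 | h1 <;> rcases hdY' with h2 | h2
    · exact absurd (h1.trans h2.symm) neY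
    · rw [h1, h2]; exact fun h => g6.1 (h.1 g5.1)
    · rw [h1, h2]; exact fun h => g6.1 (h.2 g5.1)
    · exact absurd (h1.trans h2.symm) neY
  obtain ⟨x, x1, x2, x3, x4, x5⟩ := hB.inner_edge hX sX
  obtain ⟨y, y1, y2, y3, y4, y5⟩ := hB.inner_edge hY sY
  -- `x` is an edge of `bd Y` at the visits of `c` and `d`
  have hx : S.Eqv d x ∨ S.Eqv d (rot x) := by
    rcases mem_bd_or x2 x5 with h | h
    · exact ends hY x h
    · rcases ends hY _ h with h1 | h1
      · exact Or.inr (h1.trans (Eqv.of_glued' x2).symm)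
      · exact Or.inl (h1.trans (Eqv.of_glued x2).symm)
  have hy : S.Eqv c y ∨ S.Eqv c (rot y) := by
    rcases mem_bd_or y2 y5 with h | h
    · exact ends hX y h
    · rcases ends hX _ h with h1 | h1
      · exact Or.inr (h1.trans (Eqv.of_glued' y2).symm)
      · exact Or.inl (h1.trans (Eqv.of_glued y2).symm)
  have hx' : S.Eqv d (rot x) := hx.resolve_left (fun h => hne (x1.trans h.symm))
  have hy' : S.Eqv c (rot y) := hy.resolve_left (fun h => hne (h.trans y1.symm))
  -- so `y` is the partner of `x`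
  have h1 : S.Eqv (S.g y) x := (Eqv.of_glued' y2).symm.trans (hy'.symm.trans x1)
  have h2 : S.Eqv (rot (S.g y)) (rot x) :=
    (Eqv.of_glued y2).symm.trans (y1.symm.trans hx')
  have h3 := hB.seg (S.g y) x (g_ne_iff.2 y2) x2 h1 h2
  -- `x` crosses `Y`, `y` does not
  apply x5
  rw [← h3, S.invol]
  exact ⟨fun _ => y3, fun _ => y4⟩

end Obj

end AG
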