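import Pool.Agent.AG.Reg.Kids

/-!
# Project AG, block 6: the minimal choice gives an environment (6.3, 6.4), closed case
-/

set_option linter.unusedSectionVars false
set_option linter.unusedSimpArgs false
set_option linter.unusedVariables false

namespace AG

open Finset

variable {I : Type} [DecidableEq I]

namespace Obj

variable {S : Obj I} {pt : Sd I → Pt} {R : Set Pt} {w0 w0' : Sd I}

/-- closed case -/
theorem ClosedMin.env (hC : ClosedMin S pt R) (hB : Base S pt) :
    Env S pt S.F (fun _ => False) where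
  base := hB
  shape := hB.shape_closed
  Vbl _ h := h.elim
  subA p hp := (hB.isIn_pA (mem_CP.1 hp).1.toPr).sub
  noV _ _ _ _ h := h.elim
  ne p hp q hq := by
    have cp := (mem_CP.1 hp).1.toPr
    have cq := (mem_CP.1 hq).1.toPr
    obtain ⟨c, hc, h1⟩ := hC.triv _ _ cp
    obtain ⟨c', hc', h1'⟩ := hC.triv _ _ cq
    intro e
    have h2 := cp.b.memF
    rw [← e, h1, h1', mem_union, mem_singleton, mem_singleton] at h2
    rcases h2 with h2 | h2
    · exact cp.b.not_eared hc h2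
    · exact cp.b.not_eared hc' h2

namespace OpenMin

theorem memO (hO : OpenMin S pt R w0 w0') (hB : Base S pt) {u : Sd I} (he : S.Eqv w0 u) :
    u.1 ∈ S.pO pt w0 w0' ↔ S.ps (S.lo pt w0) ≤ S.ps u ∧ S.ps u < S.ps (S.hi pt w0') :=
  (hB.isIn_pO hO.pr).mem_iff hB.lin hB.loopless (hO.pr.b.eqv_lo.symm.trans he)

theorem subO (hO : OpenMin S pt R w0 w0') (hB : Base S pt) : S.pO pt w0 w0' ⊆ S.F :=
  (hB.isIn_pO hO.pr).sub

theorem reg2R (hO : OpenMin S pt R w0 w0') (hB : Base S pt) :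
    S.Reg2 (S.pB pt w0 w0') (S.hi pt w0') (S.g (S.lo pt w0)) :=
  (hB.isIn_pO hO.pr).reg2_compl

/-- a pair whose set `O` properly contains `O` of the chosen pair is trivial -/
theorem no_bigger (hO : OpenMin S pt R w0 w0') (hB : Base S pt) {u u' : Sd I} (h : S.Pr pt u u')
    (hnt : ¬ S.Triv pt u u') (hs : S.pO pt w0 w0' ⊂ S.pO pt u u') : False := by
  have h1 := hO.min S pt u u' hO.cex rfl h hnt
  have h2 := card_lt_card hs
  have h3 := card_sdiff_of_subset (hO.subO hB)
  have h4 := card_sdiff_of_subset ((hB.isIn_pO h).sub)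
  have h5 := card_le_card ((hB.isIn_pO h).sub)
  unfold pB at h1
  omega

/-- 6.3: the chosen pair consists of the first and the last blade of its visit -/
theorem first_last (hO : OpenMin S pt R w0 w0') (hB : Base S pt) {u : Sd I}
    (hu : S.BladeAt pt u) (he : S.Eqv w0 u) : S.ps w0 ≤ S.ps u ∧ S.ps u ≤ S.ps w0' := by
  have hl := hB.lin
  have hr := hB.loopless
  have hp := hO.pr
  constructor
  · by_contra hcon
    have hlt : S.ps u < S.ps w0 := by omega
    have p1 : S.Pr pt u w0' := ⟨hu, hp.b', he.symm.trans hp.eqv, by have := hp.lt; omega⟩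
    have p2 : S.Pr pt u w0 := ⟨hu, hp.b, he.symm, hlt⟩
    have hnt : ¬ S.Triv pt u w0' := by
      rintro ⟨c, hc, h1⟩
      have h2 : w0.1 ∈ S.pA pt u w0' := by
        rw [(hB.isIn_pA p1).mem_iff hl hr (hu.eqv_hi.symm.trans he.symm)]
        have := hu.ps_hi hl
        have := hp.b'.ps_lo hl
        have := hp.lt
        omega
      rw [h1, mem_singleton] at h2
      exact hp.b.not_eared hc h2
    have hlo : S.ps (S.lo pt u) < S.ps (S.lo pt w0) := by
      have := hB.int p2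
      have := hu.ps_lo_le_hi hl
      omega
    refine hO.no_bigger hB p1 hnt (Finset.ssubset_iff_subset_ne.2 ⟨?_, fun e => ?_⟩)
    · refine (hB.isIn_pO p1).subset hB.conn hl hr (hB.isIn_pO hp) ?_ hlo.le le_rfl
      exact (hu.eqv_lo.symm.trans he.symm).trans hp.b.eqv_lo
    · have h1 := (hB.isIn_pO p1).reg2
      have h2 := (hB.isIn_pO hp).reg2
      rw [e] at h2
      rw [(h1.unique hB h2).1] at hlo
      exact absurd hlo (lt_irrefl _)
  · by_contra hcon
    have hlt : S.ps w0' < S.ps u := by omega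
    have e1 : S.Eqv w0' u := hp.eqv.symm.trans he
    have p1 : S.Pr pt w0 u := ⟨hp.b, hu, he, by have := hp.lt; omega⟩
    have p2 : S.Pr pt w0' u := ⟨hp.b', hu, e1, hlt⟩
    have hnt : ¬ S.Triv pt w0 u := by
      rintro ⟨c, hc, h1⟩
      have h2 : w0'.1 ∈ S.pA pt w0 u := by
        rw [(hB.isIn_pA p1).mem_iff hl hr (hp.b.eqv_hi.symm.trans hp.eqv)]
        have := hp.b.ps_hi hl
        have := hu.ps_lo hl
        have := hp.lt
        omega
      rw [h1, mem_singleton] at h2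
      exact hp.b'.not_eared hc h2
    have hhi : S.ps (S.hi pt w0') < S.ps (S.hi pt u) := by
      have := hB.int p2
      have := hu.ps_lo_le_hi hl
      omega
    refine hO.no_bigger hB p1 hnt (Finset.ssubset_iff_subset_ne.2 ⟨?_, fun e => ?_⟩)
    · exact (hB.isIn_pO p1).subset hB.conn hl hr (hB.isIn_pO hp) (Eqv.refl _ _) le_rfl hhi.le
    · have h1 := (hB.isIn_pO p1).reg2
      have h2 := (hB.isIn_pO hp).reg2
      rw [e] at h2
      have h3 := S.g_injective (h1.unique hB h2).2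
      rw [h3] at hhi
      exact absurd hhi (lt_irrefl _)

/-- the only blades of the visit `v0` with triangle in `R` are the a-like ones of the pair -/
theorem blade_at (hO : OpenMin S pt R w0 w0') (hB : Base S pt) {u : Sd I}
    (hu : S.BladeAt pt u) (he : S.Eqv w0 u) (hR : u.1 ∈ S.pB pt w0 w0') :
    (u = w0 ∧ S.VirtB pt w0) ∨ (u = w0' ∧ S.VirtA pt w0') := by
  have hl := hB.lin
  have hp := hO.pr
  obtain ⟨h1, h2⟩ := hO.first_last hB hu he
  have h3 : u.1 ∉ S.pO pt w0 w0' := (mem_sdiff.1 hR).2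
  rw [hO.memO hB he] at h3
  have h4 := hp.b.ps_lo_eq hl
  have h5 := hp.b'.ps_hi_eq hl
  have h6 := hp.lt
  rcases Nat.lt_or_ge (S.ps u) (S.ps (S.lo pt w0)) with h7 | h7
  · left
    rcases h4 with h4 | h4
    · exact ⟨ps_inj hl he.symm (by omega), h4.1⟩
    · omega
  · right
    rcases h5 with h5 | h5
    · exact ⟨ps_inj hl (he.symm.trans hp.eqv) (by omega), h5.1⟩
    · omega

theorem ne_F (hO : OpenMin S pt R w0 w0') (hB : Base S pt) : S.pB pt w0 w0' ≠ S.F := by
  intro e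
  obtain ⟨t, ht⟩ := (hB.isIn_pO hO.pr).nonempty
  have h1 := hO.subO hB ht
  rw [← e] at h1
  exact (mem_sdiff.1 h1).2 ht

/-- not both stubs of a pair at another visit cross the boundary of `R` -/
theorem not_both_cross (hO : OpenMin S pt R w0 w0') (hB : Base S pt) {c c' : Sd I}
    (hv : ¬ S.Eqv w0 c) (he : S.Eqv c c') (hlt : S.ps c < S.ps c') (hg : S.g c ≠ c)
    (hg' : S.g c' ≠ c') (h1 : ¬ (c.1 ∈ S.pB pt w0 w0' ↔ (S.g c).1 ∈ S.pB pt w0 w0'))
    (h2 : ¬ (c'.1 ∈ S.pB pt w0 w0' ↔ (S.g c').1 ∈ S.pB pt w0 w0')) : False := by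
  have hR := hO.reg2R hB
  have hv1 : ¬ S.Eqv (S.hi pt w0') c := fun h =>
    hv ((hO.pr.eqv.trans hO.pr.b'.eqv_hi).trans h)
  have hv2 : ¬ S.Eqv (S.hi pt w0') c' := fun h => hv1 (h.trans he.symm)
  have key : ∀ d : Sd I, ¬ S.Eqv (S.hi pt w0') d → S.g d ≠ d →
      ¬ (d.1 ∈ S.pB pt w0 w0' ↔ (S.g d).1 ∈ S.pB pt w0 w0') →
      d = S.g (S.lo pt w0) ∨ d = S.g (S.hi pt w0') := by
    intro d hd hgd h3
    by_cases h4 : d.1 ∈ S.pB pt w0 w0'
    · left
      exact hR.exit hB hd hgd h4 (fun h5 => h3 ⟨fun _ => h5, fun _ => h4⟩)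
    · right
      refine hR.entry hB hd hgd h4 ?_
      by_contra h5
      exact h3 ⟨fun h => absurd h h4, fun h => absurd h h5⟩
  rcases key c hv1 hg h1 with e1 | e1 <;> rcases key c' hv2 hg' h2 with e2 | e2
  · rw [e1, e2] at hlt; exact absurd hlt (lt_irrefl _)
  · exact hR.not_both hB (by rw [← e1, ← e2]; exact he)
  · exact hR.not_both hB (by rw [← e1, ← e2]; exact he.symm)
  · rw [e1, e2] at hlt; exact absurd hlt (lt_irrefl _)

/-- 6.4 -/
theorem subA (hO : OpenMin S pt R w0 w0') (hB : Base S pt) {u u' : Sd I} (h : S.Pr pt u u')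
    (h1 : u.1 ∈ S.pB pt w0 w0') (h2 : u'.1 ∈ S.pB pt w0 w0') (hv : ¬ S.Eqv w0 u) :
    S.pA pt u u' ⊆ S.pB pt w0 w0' := by
  have iA := hB.isIn_pA h
  have iO := hB.isIn_pO hO.pr
  have hvv : ¬ S.Eqv w0 (S.hi pt u) := fun h3 => hv (h3.trans h.b.eqv_hi.symm)
  have he : S.Eqv (S.hi pt u) (S.lo pt u') := iA.eqv
  have m1 : (S.hi pt u).1 ∈ S.pA pt u u' := (mem_bd.1 iA.mem_left).2.1
  have m2 : (S.g (S.hi pt u)).1 ∉ S.pA pt u u' := (mem_bd.1 iA.mem_left).2.2
  have m3 : (S.g (S.lo pt u')).1 ∈ S.pA pt u u' := (mem_bd.1 iA.mem_right).2.1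
  have m4 : (S.lo pt u').1 ∉ S.pA pt u u' := by
    have := (mem_bd.1 iA.mem_right).2.2
    rwa [S.invol] at this
  have notboth := fun x y => hO.not_both_cross hB hvv he iA.lt iA.gl iA.gl' x y
  -- `A` is not contained in `O`
  have c1 : ¬ Disjoint (S.pB pt w0 w0') (S.pA pt u u') := by
    intro hd
    have n1 : u.1 ∉ S.pA pt u u' := fun h3 => (disjoint_left.1 hd) h1 h3
    have n2 : u'.1 ∉ S.pA pt u u' := fun h3 => (disjoint_left.1 hd) h2 h3
    refine notboth ?_ ?_
    · rcases h.b.tri_hi with h3 | h3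
      · rw [h3] at m1; exact absurd m1 n1
      · intro h4
        exact (disjoint_left.1 hd) (h4.2 (by rw [h3]; exact h1)) m1
    · rcases h.b'.tri_lo with h3 | h3
      · intro h4
        exact (disjoint_left.1 hd) (h4.1 (by rw [h3]; exact h2)) m3
      · rw [h3] at m3; exact absurd m3 n2
  -- `R` is not contained in `A`
  have c2 : ¬ S.pB pt w0 w0' ⊆ S.pA pt u u' := by
    intro hs
    refine notboth ?_ ?_
    · rcases h.b.tri_hi with h3 | h3
      · intro h4
        exact m2 (hs (h4.1 (by rw [h3]; exact h1)))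
      · exact absurd (by rw [h3]; exact hs h1) m2
    · rcases h.b'.tri_lo with h3 | h3
      · exact absurd (by rw [h3]; exact hs h2) m4
      · intro h4
        exact m4 (hs (h4.2 (by rw [h3]; exact h2)))
  -- `O` is not contained in `A`
  have c3 : ¬ S.pO pt w0 w0' ⊆ S.pA pt u u' := by
    intro hs
    by_cases ht : S.Triv pt u u'
    · obtain ⟨c, hc, hA⟩ := ht
      have h3 : S.pO pt w0 w0' = S.pA pt u u' := by
        rw [hA] at hs ⊢
        rcases Finset.subset_singleton_iff.1 hs with h4 | h4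
        · have := iO.nonempty
          rw [h4] at this
          exact absurd this not_nonempty_empty
        · exact h4
      have h4 := iO.reg2
      have h5 := iA.reg2
      rw [← h3] at h5
      have h6 := (h4.unique hB h5).1
      exact hvv (by rw [← h6]; exact hO.pr.b.eqv_lo)
    · have hAO : S.pA pt u u' ⊆ S.pO pt u u' := by
        refine (hB.isIn_pO h).subset hB.conn hB.lin hB.loopless iA ?_ ?_ ?_
        · exact h.b.eqv_lo.symm.trans h.b.eqv_hi
        · exact h.b.ps_lo_le_hi hB.lin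
        · exact h.b'.ps_lo_le_hi hB.lin
      refine hO.no_bigger hB h ht (Finset.ssubset_iff_subset_ne.2 ⟨hs.trans hAO, fun e => ?_⟩)
      have h4 := iO.reg2
      have h5 := (hB.isIn_pO h).reg2
      rw [← e] at h5
      have h6 := (h4.unique hB h5).1
      refine hv (hO.pr.b.eqv_lo.trans ?_)
      rw [h6]; exact h.b.eqv_lo.symm
  intro t ht
  by_contra hcon
  have hR := hO.reg2R hB
  have k1 : (S.bd (S.pB pt w0 w0')).card = 2 := by
    unfold pB
    rw [card_bd_sdiff S iO.sub]; exact iO.card hB.loopless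
  obtain ⟨f, hf, h3, h4⟩ := hB.cross_out (X := S.pB pt w0 w0') (Y := S.pA pt u u') sdiff_subset k1
    iA.sub (iA.card hB.loopless)
    (by rwa [Finset.not_disjoint_iff_nonempty_inter] at c1)
    (by
      rw [Finset.sdiff_nonempty]; exact c2)
    ⟨t, mem_sdiff.2 ⟨ht, hcon⟩⟩
    (by
      rw [Finset.not_subset] at c3
      obtain ⟨s, hs1, hs2⟩ := c3
      refine ⟨s, mem_sdiff.2 ⟨iO.sub hs1, ?_⟩⟩
      rw [mem_union]
      rintro (h5 | h5)
      · exact (mem_sdiff.1 h5).2 hs1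
      · exact hs2 h5)
  rw [iA.bd, mem_insert, mem_singleton] at hf
  rcases hf with rfl | rfl
  · rcases h.b.tri_hi with h5 | h5
    · exact h3 (by rw [h5]; exact h1)
    · exact h4 (by rw [h5]; exact h1)
  · rw [S.invol] at h4
    rcases h.b'.tri_lo with h5 | h5
    · exact h4 (by rw [h5]; exact h2)
    · exact h3 (by rw [h5]; exact h2)

/-- no blade at the other end `x` of an a-like side with triangle in `R`, upper version for `R`
(`w0` of type B) -/
theorem no_blade_xB (hO : OpenMin S pt R w0 w0') (hB : Base S pt) (hw : S.VirtB pt w0) {e : Sd I}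
    (he : S.Eqv (unrot w0) e) (heR : e.1 ∈ S.pB pt w0 w0') :
    e = unrot w0 ∨ e = S.g (rot w0) := by
  have hR := hO.reg2R hB
  have e1 : S.g (S.lo pt w0) = unrot w0 := by
    rw [lo_of_B hw, g_ccw hO.pr.b.glued']
  have hg : S.g (unrot w0) ≠ unrot w0 := hO.pr.b.glued'
  have hd : (S.cw (unrot w0)).1 ∉ S.pB pt w0 w0' := by
    have h1 : (S.cw (unrot w0)).1 = (S.lo pt w0).1 := by
      rw [cw_fst hg, lo_of_B hw, ccw_of_glued hg]
    rw [h1]
    intro h2
    exact (mem_sdiff.1 h2).2 ((mem_bd.1 (hB.isIn_pO hO.pr).mem_left).2.1)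
  have h3 := hB.out_upper hO.pr.b hR (d := S.cw (unrot w0)) (by rw [e1]; exact S.cw_eqv _) hd
  rcases h3 with h3 | h3 | h3
  · exact absurd hw h3.1.not_B
  · exact absurd hw h3.1.not_B
  · exact h3.2 e ((S.cw_eqv _).symm.trans he) heR

theorem no_blade_xA (hO : OpenMin S pt R w0 w0') (hB : Base S pt) (hw : S.VirtA pt w0') {e : Sd I}
    (he : S.Eqv (rot w0') e) (heR : e.1 ∈ S.pB pt w0 w0') :
    e = rot w0' ∨ e = rot (S.g (rot w0')) := by
  have hR := hO.reg2R hB
  have e1 : S.g (S.hi pt w0') = S.g w0' := by rw [hi_of_A hw]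
  have hg : S.g w0' ≠ w0' := hO.pr.b'.glued
  have hd : (S.g w0').1 ∉ S.pB pt w0 w0' := by
    intro h2
    refine (mem_sdiff.1 h2).2 ?_
    rw [← e1]
    exact (mem_bd.1 (hB.isIn_pO hO.pr).mem_right).2.1
  have h3 := hB.out_lower hO.pr.b' hR (d := S.g w0') (by rw [e1]; exact Eqv.refl _ _) hd
  rcases h3 with h3 | h3 | h3
  · exact absurd hw h3.1.not_A
  · exact absurd hw h3.1.not_A
  · exact h3.2 e ((Eqv.of_glued' hg).symm.trans he) heR

theorem noV (hO : OpenMin S pt R w0 w0') (hB : Base S pt) {u u' : Sd I} (h : S.Pr pt u u')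
    (h1 : u.1 ∈ S.pB pt w0 w0') (h2 : u'.1 ∈ S.pB pt w0 w0') (hv : ¬ S.Eqv w0 u) {x : Sd I}
    (hx : S.BladeAt pt x) (hxv : S.Eqv w0 x) : x.1 ∉ S.pA pt u u' := by
  intro hm
  have iA := hB.isIn_pA h
  have iO := hB.isIn_pO hO.pr
  have hsub := hO.subA hB h h1 h2 hv
  rcases hO.blade_at hB hx hxv (hsub hm) with ⟨rfl, hw⟩ | ⟨rfl, hw⟩
  · have hg : S.g (unrot x) ≠ unrot x := hx.glued'
    have h3 : unrot x ∈ S.bd (S.pA pt u u') := by
      rw [mem_bd]
      refine ⟨hg, hm, fun h4 => ?_⟩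
      have h5 : (S.lo pt x).1 ∈ S.pO pt x w0' := (mem_bd.1 iO.mem_left).2.1
      rw [lo_of_B hw, ccw_of_glued hg] at h5
      exact (mem_sdiff.1 (hsub h4)).2 h5
    rw [iA.bd, mem_insert, mem_singleton] at h3
    rcases h3 with h3 | h3
    · have h4 : S.Eqv (unrot x) u := by rw [h3]; exact h.b.eqv_hi.symm
      rcases hO.no_blade_xB hB hw h4 h1 with h5 | h5
      · have h6 := hB.one _ _ h.b hx (by rw [h5]; rfl)
        rw [h6] at h5
        exact unrot_ne _ h5.symm
      · have h6 := hB.one _ _ h.b (Or.inl hw.blade) (by rw [h5]; rfl)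
        rw [h6] at h5
        exact rot_ne _ h5
    · apply hv
      have h4 : S.Eqv (rot (unrot x)) (S.lo pt u') := by
        rw [h3]; exact (Eqv.of_glued iA.gl').symm
      rw [rot_unrot] at h4
      exact h4.trans (h.b'.eqv_lo.symm.trans h.eqv.symm)
  · have hg : S.g x ≠ x := hx.glued
    have h3 : x ∈ S.bd (S.pA pt u u') := by
      rw [mem_bd]
      refine ⟨hg, hm, fun h4 => ?_⟩
      have h5 : (S.g (S.hi pt x)).1 ∈ S.pO pt w0 x := (mem_bd.1 iO.mem_right).2.1
      rw [hi_of_A hw] at h5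
      exact (mem_sdiff.1 (hsub h4)).2 h5
    rw [iA.bd, mem_insert, mem_singleton] at h3
    rcases h3 with h3 | h3
    · apply hv
      refine hxv.trans ?_
      rw [h3]; exact h.b.eqv_hi.symm
    · have h4 : S.Eqv (rot x) u := by
        refine (Eqv.of_glued' hg).trans ?_
        rw [h3, S.invol]
        exact h.b'.eqv_lo.symm.trans h.eqv.symm
      rcases hO.no_blade_xA hB hw h4 h1 with h5 | h5
      · have h6 := hB.one _ _ h.b hx (by rw [h5]; rfl)
        rw [h6] at h5
        exact rot_ne _ h5.symm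
      · have h6 := hB.one _ _ h.b (Or.inl hw.blade) (by rw [h5]; rfl)
        rw [h6] at h5
        exact rot_ne _ h5.symm

/-- the environment of the open case -/
theorem env (hO : OpenMin S pt R w0 w0') (hB : Base S pt) :
    Env S pt (S.pB pt w0 w0') (S.Eqv w0) where
  base := hB
  shape := by
    rw [eqv_congr hO.pr.b.eqv_lo]
    refine hB.shape_compl (hB.isIn_pO hO.pr) (fun u hu he => ?_)
    by_contra h1
    rcases hO.blade_at hB (Or.inl hu) (hO.pr.b.eqv_lo.trans he) (mem_sdiff.2 ⟨hu.memF, h1⟩) with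
      h2 | h2
    · rw [h2.1] at hu; exact hu.not_B h2.2
    · rw [h2.1] at hu; exact hu.not_A h2.2
  Vbl z hz := ⟨w0, hO.pr.b, hz⟩
  subA p hp := by
    obtain ⟨h1, h2, h3, h4⟩ := mem_CP.1 hp
    exact hO.subA hB h1.toPr h2 h3 h4
  noV p hp u hu hV := by
    obtain ⟨h1, h2, h3, h4⟩ := mem_CP.1 hp
    exact hO.noV hB h1.toPr h2 h3 h4 hu hV
  ne p hp q hq := by
    obtain ⟨h1, h2, h3, h4⟩ := mem_CP.1 hp
    obtain ⟨k1, k2, k3, k4⟩ := mem_CP.1 hq
    intro e
    apply hO.ne_F hB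
    refine subset_antisymm sdiff_subset ?_
    rw [← e]
    exact union_subset (hO.subA hB h1.toPr h2 h3 h4) (hO.subA hB k1.toPr k2 k3 k4)

end OpenMin

end Obj

end AG
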