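import Pool.Agent.AG.Reg.Ident

/-!
# Project AG, block 6: the torso inequality for a finite family of regions (6.10)
-/

set_option linter.unusedSectionVars false
set_option linter.unusedSimpArgs false
set_option linter.unusedVariables false

namespace AG

open Finset

variable {I : Type} [DecidableEq I]

namespace Obj

variable {S : Obj I} {pt : Sd I → Pt}

/-- a finite family of pairwise disjoint one-copy regions `A i` (with visit `v i`) in the region
`K` with visit `V` -/
structure Fam (S : Obj I) (pt : Sd I → Pt) (K : Finset I) (V : Sd I → Prop) {ι : Type}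
    (s : Finset ι) (A : ι → Finset I) (v : ι → Sd I) : Prop where
  sub : ∀ i ∈ s, A i ⊆ K
  disj : ∀ i ∈ s, ∀ j ∈ s, i ≠ j → Disjoint (A i) (A j)
  shape : ∀ i ∈ s, S.Shape (A i) (S.Eqv (v i)) 1
  nV : ∀ i ∈ s, ¬ V (v i)
  /-- no virtual blade of a member is at the visit `V` -/
  virV : ∀ i ∈ s, ∀ w, S.Vir pt w → w.1 ∈ A i → ¬ V w
  zA : ∀ i ∈ s, ∀ z ∈ S.Zr pt (A i) (S.Eqv (v i)), S.BLg pt (A i) (v i) z ∨ S.NoB pt z
  zV : ∀ z, S.NoB pt z → ¬ V z
  zB : ∀ i ∈ s, ∀ j ∈ s, i ≠ j → ∀ z, S.NoB pt z → S.Meets (A i) z → S.Meets (A j) z →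
    S.BLg pt (A i) (v i) z ∨ S.BLg pt (A j) (v j) z
  /-- a member is met by the ear end of an eared triangle outside only in the b-like way -/
  ear : ∀ i ∈ s, ∀ c, S.Eared c → c.1 ∈ K → c.1 ∉ A i → ∀ z, S.EndOf c z → S.Meets (A i) z →
    S.BLg pt (A i) (v i) z

open Classical in
/-- virtual blades of `K` in no member -/
noncomputable def candT (S : Obj I) (pt : Sd I → Pt) (K : Finset I) (V : Sd I → Prop) {ι : Type}
    (s : Finset ι) (A : ι → Finset I) : Finset (Sd I) :=
  (S.CandK pt K V).filter (fun w => ∀ i ∈ s, w.1 ∉ A i)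

open Classical in
/-- eared triangles of `K` in no member -/
noncomputable def earsT (S : Obj I) (K : Finset I) {ι : Type}
    (s : Finset ι) (A : ι → Finset I) : Finset (Sd I) :=
  (S.EarsK K).filter (fun c => ∀ i ∈ s, c.1 ∉ A i)

open Classical in
/-- visits of `Zr K` which meet members only in the b-like way and are not the end of an ear
outside the members -/
noncomputable def zrT (S : Obj I) (pt : Sd I → Pt) (K : Finset I) (V : Sd I → Prop) {ι : Type}
    (s : Finset ι) (A : ι → Finset I) (v : ι → Sd I) : Finset (Sd I) :=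
  (S.Zr pt K V).filter (fun z => (∀ i ∈ s, S.Meets (A i) z → S.BLg pt (A i) (v i) z) ∧
    ∀ c ∈ S.earsT K s A, ¬ S.EndOf c z)

/-- two tops of one fan are equal -/
theorem top_unique (hl : S.Linear) {a b : Sd I} (h : S.Eqv a b) (ha : S.g (unrot a) = unrot a)
    (hb : S.g (unrot b) = unrot b) : a = b := by
  rcases Nat.lt_trichotomy (S.ps a) (S.ps b) with h1 | h1 | h1
  · exact absurd ha (unrot_glued_of_lt hl h h1)
  · exact ps_inj hl h h1
  · exact absurd hb (unrot_glued_of_lt hl h.symm h1)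

theorem eqv_vis_unique (hl : S.Linear) {a b : Sd I} (h : S.Eqv a b) (ha : a ∈ S.vis)
    (hb : b ∈ S.vis) : a = b := by
  have h1 := (eqv_iff hl).1 h
  rwa [last_of_unglued (mem_vis.1 ha).2, last_of_unglued (mem_vis.1 hb).2] at h1

open Classical in
theorem card_split {β ι : Type} (X : Finset β) (f : β → I) (s : Finset ι) (A : ι → Finset I)
    (hd : ∀ i ∈ s, ∀ j ∈ s, i ≠ j → Disjoint (A i) (A j)) :
    (X.filter (fun x => ∀ i ∈ s, f x ∉ A i)).card + ∑ i ∈ s, (X.filter (fun x => f x ∈ A i)).card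
      = X.card := by
  rw [← Finset.card_biUnion]
  · rw [← Finset.card_union_of_disjoint]
    · congr 1
      ext x
      simp only [mem_union, mem_filter, mem_biUnion]
      constructor
      · rintro (h | ⟨i, _, h⟩)
        · exact h.1
        · exact h.1
      · intro h
        by_cases h1 : ∀ i ∈ s, f x ∉ A i
        · exact Or.inl ⟨h, h1⟩
        · push Not at h1
          obtain ⟨i, hi, h2⟩ := h1
          exact Or.inr ⟨i, hi, h, h2⟩
    · rw [Finset.disjoint_left]
      intro x h1 h2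
      simp only [mem_filter, mem_biUnion] at h1 h2
      obtain ⟨i, hi, h3⟩ := h2
      exact h1.2 i hi h3.2
  · intro i hi j hj hij
    rw [Function.onFun, Finset.disjoint_left]
    intro x h1 h2
    simp only [mem_filter] at h1 h2
    exact Finset.disjoint_left.1 (hd i hi j hj hij) h1.2 h2.2

open Classical in
/-- virtual blades of the member at its visit -/
noncomputable def bv (S : Obj I) (pt : Sd I → Pt) (A : Finset I) (v : Sd I) : Finset (Sd I) :=
  S.sides.filter (fun w => S.Vir pt w ∧ S.Eqv w v ∧ w.1 ∈ A)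

open Classical in
/-- (1) -/
theorem Fam.cand_le {K : Finset I} {V : Sd I → Prop}
    {ι : Type} {s : Finset ι} {A : ι → Finset I} {v : ι → Sd I} (hF : S.Fam pt K V s A v)
    (hV : ∀ a b, S.Eqv a b → V a → V b) :
    (S.candT pt K V s A).card + ∑ i ∈ s, ((S.CandK pt (A i) (S.Eqv (v i))).card
      + (S.bv pt (A i) (v i)).card) ≤ (S.CandK pt K V).card := by
  rw [← card_split (S.CandK pt K V) (fun w => w.1) s A hF.disj]
  apply Nat.add_le_add_left
  apply Finset.sum_le_sum
  intro i hi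
  rw [← Finset.card_union_of_disjoint]
  · apply Finset.card_le_card
    intro w hw
    rw [mem_union] at hw
    rw [mem_filter]
    rcases hw with hw | hw
    · simp only [CandK, mem_filter] at hw ⊢
      exact ⟨⟨hw.1, hw.2.1, hF.sub i hi hw.2.2.1, hF.virV i hi w hw.2.1 hw.2.2.1⟩, hw.2.2.1⟩
    · simp only [bv, CandK, mem_filter] at hw ⊢
      exact ⟨⟨hw.1, hw.2.1, hF.sub i hi hw.2.2.2, hF.virV i hi w hw.2.1 hw.2.2.2⟩, hw.2.2.2⟩
  · rw [Finset.disjoint_left]
    intro w h1 h2
    simp only [CandK, mem_filter] at h1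
    simp only [bv, mem_filter] at h2
    exact h1.2.2.2 h2.2.2.1.symm

open Classical in
/-- (2) -/
theorem zr_bl_le (hl : S.Linear) (A : Finset I) (v : Sd I) :
    ((S.Zr pt A (S.Eqv v)).filter (fun z => S.BLg pt A v z)).card ≤ (S.bv pt A v).card := by
  have hch : ∀ z, ∃ w, z ∈ (S.Zr pt A (S.Eqv v)).filter (fun z => S.BLg pt A v z) →
      S.Vir pt w ∧ S.Eqv w v ∧ w.1 ∈ A ∧ S.Eqv (S.xc pt w) z := by
    intro z
    by_cases hz : z ∈ (S.Zr pt A (S.Eqv v)).filter (fun z => S.BLg pt A v z)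
    · obtain ⟨w, h1⟩ := (mem_filter.1 hz).2
      exact ⟨w, fun _ => h1⟩
    · exact ⟨z, fun h => absurd h hz⟩
  choose f hf using hch
  apply Finset.card_le_card_of_injOn f
  · intro z hz
    obtain ⟨h1, h2, h3, _⟩ := hf z hz
    simp only [bv, coe_filter, Set.mem_ofPred_eq, mem_sides]
    exact ⟨h1.bladeAt.memF, h1, h2, h3⟩
  · intro z hz z' hz' h
    obtain ⟨_, _, _, h4⟩ := hf z hz
    obtain ⟨_, _, _, h4'⟩ := hf z' hz'
    rw [h] at h4
    have hz0 := (mem_filter.1 hz).1
    have hz0' := (mem_filter.1 hz').1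
    simp only [Zr, mem_filter] at hz0 hz0'
    exact eqv_vis_unique hl (h4.symm.trans h4') hz0.1 hz0'.1

open Classical in
/-- (3) -/
theorem Fam.zr_le (hB : Base S pt) {K : Finset I} {V : Sd I → Prop}
    {ι : Type} {s : Finset ι} {A : ι → Finset I} {v : ι → Sd I} (hF : S.Fam pt K V s A v)
    (hK : K ⊆ S.F) (hV : ∀ a b, S.Eqv a b → V a → V b) :
    2 * (S.earsT K s A).card + (S.zrT pt K V s A v).card
      + ∑ i ∈ s, ((S.Zr pt (A i) (S.Eqv (v i))).filter (fun z => ¬ S.BLg pt (A i) (v i) z)).card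
      ≤ (S.Zr pt K V).card := by
  have hl := hB.lin
  have hE : ∀ c ∈ S.earsT K s A, S.Eared c ∧ c.1 ∈ K ∧ ∀ i ∈ s, c.1 ∉ A i := by
    intro c hc
    simp only [earsT, EarsK, mem_filter] at hc
    exact ⟨hc.1.2.1, hc.1.2.2, hc.2⟩
  have hEnd : ∀ z ∈ S.vis, (∃ c ∈ S.earsT K s A, S.EndOf c z) → z ∈ S.Zr pt K V := by
    rintro z hz ⟨c, hc, hcz⟩
    obtain ⟨h1, h2, h3⟩ := hE c hc
    have hend : S.EarEnd z := by
      refine ⟨rot c, h1.2.2, ?_⟩
      rcases hcz with h | h
      · exact Or.inl h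
      · right; rw [rot_rot]; exact h
    have hno : S.NoB pt z := fun w hw he => hB.earEnd z w hend hw he.symm
    simp only [Zr, mem_filter]
    refine ⟨hz, hF.zV z hno, ?_, fun w hw _ => hno w hw⟩
    rcases hcz with h | h
    · exact ⟨rot c, h, h2⟩
    · exact ⟨unrot c, h, h2⟩
  -- the first ends
  have hinj1 : Set.InjOn (rot : Sd I → Sd I) (S.earsT K s A : Set (Sd I)) :=
    fun a _ b _ h => rot_injective h
  have hinj2 : Set.InjOn (fun c => S.last (unrot c)) (S.earsT K s A : Set (Sd I)) := by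
    intro a ha b hb h
    have ha' := hE a ha
    have hb' := hE b hb
    have h1 : S.Eqv (unrot a) (unrot b) := (eqv_iff hl).2 h
    have h2 : unrot a = unrot b := by
      apply top_unique hl h1
      · rw [unrot_unrot]; exact S.earFree _ ha'.1.2.2
      · rw [unrot_unrot]; exact S.earFree _ hb'.1.2.2
    have h3 := congrArg rot h2
    rwa [rot_unrot, rot_unrot] at h3
  let X1 := (S.earsT K s A).image rot
  let X2 := (S.earsT K s A).image (fun c => S.last (unrot c))
  let X3 := S.zrT pt K V s A v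
  let X4 := s.biUnion (fun i => (S.Zr pt (A i) (S.Eqv (v i))).filter
    (fun z => ¬ S.BLg pt (A i) (v i) z))
  have hX1 : X1.card = (S.earsT K s A).card := Finset.card_image_of_injOn hinj1
  have hX2 : X2.card = (S.earsT K s A).card := Finset.card_image_of_injOn hinj2
  have hX1m : ∀ z ∈ X1, z ∈ S.vis ∧ ∃ c ∈ S.earsT K s A, z = rot c := by
    intro z hz
    obtain ⟨c, hc, rfl⟩ := mem_image.1 hz
    refine ⟨?_, c, hc, rfl⟩
    have := hE c hc
    rw [mem_vis]
    exact ⟨hK this.2.1, S.earFree _ this.1.2.2⟩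
  have hX2m : ∀ z ∈ X2, z ∈ S.vis ∧ ∃ c ∈ S.earsT K s A, z = S.last (unrot c) := by
    intro z hz
    obtain ⟨c, hc, rfl⟩ := mem_image.1 hz
    refine ⟨?_, c, hc, rfl⟩
    have := hE c hc
    apply last_mem_vis hl
    rw [mem_sides]
    exact hK this.2.1
  have hX1e : ∀ z ∈ X1, ∃ c ∈ S.earsT K s A, S.EndOf c z := by
    intro z hz
    obtain ⟨_, c, hc, rfl⟩ := hX1m z hz
    exact ⟨c, hc, Or.inl (Eqv.refl _ _)⟩
  have hX2e : ∀ z ∈ X2, ∃ c ∈ S.earsT K s A, S.EndOf c z := by
    intro z hz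
    obtain ⟨_, c, hc, rfl⟩ := hX2m z hz
    exact ⟨c, hc, Or.inr (S.last_eqv _)⟩
  have hX4m : ∀ z ∈ X4, ∃ i ∈ s, z ∈ S.Zr pt (A i) (S.Eqv (v i)) ∧
      ¬ S.BLg pt (A i) (v i) z ∧ S.NoB pt z ∧ S.Meets (A i) z ∧ z ∈ S.vis := by
    intro z hz
    obtain ⟨i, hi, h1⟩ := mem_biUnion.1 hz
    rw [mem_filter] at h1
    refine ⟨i, hi, h1.1, h1.2, ?_, ?_⟩
    · rcases hF.zA i hi z h1.1 with h | h
      · exact absurd h h1.2
      · exact h
    · have h2 := h1.1
      simp only [Zr, mem_filter] at h2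
      exact ⟨h2.2.2.1, h2.1⟩
  have hX4c : X4.card = ∑ i ∈ s, ((S.Zr pt (A i) (S.Eqv (v i))).filter
      (fun z => ¬ S.BLg pt (A i) (v i) z)).card := by
    apply Finset.card_biUnion
    intro i hi j hj hij
    rw [Function.onFun, Finset.disjoint_left]
    intro z h1 h2
    rw [mem_filter] at h1 h2
    have hno : S.NoB pt z := by
      rcases hF.zA i hi z h1.1 with h | h
      · exact absurd h h1.2
      · exact h
    have h3 := h1.1
    have h4 := h2.1
    simp only [Zr, mem_filter] at h3 h4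
    rcases hF.zB i hi j hj hij z hno h3.2.2.1 h4.2.2.1 with h | h
    · exact h1.2 h
    · exact h2.2 h
  have d12 : Disjoint X1 X2 := by
    rw [Finset.disjoint_left]
    intro z h1 h2
    obtain ⟨_, c, hc, rfl⟩ := hX1m z h1
    obtain ⟨_, d, hd, h⟩ := hX2m _ h2
    have h3 : S.Eqv (rot c) (unrot d) := by rw [h]; exact (S.last_eqv _).symm
    have h4 := hB.ear_se (rot c) (hE c hc).1.2.2 (rot d) (hE d hd).1.2.2
    rw [rot_rot] at h4
    exact h4 h3
  have d3 : Disjoint (X1 ∪ X2) X3 := by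
    rw [Finset.disjoint_left]
    intro z h1 h2
    have h3 : ∃ c ∈ S.earsT K s A, S.EndOf c z := by
      rcases mem_union.1 h1 with h | h
      · exact hX1e z h
      · exact hX2e z h
    obtain ⟨c, hc, hcz⟩ := h3
    have h4 : z ∈ S.zrT pt K V s A v := h2
    rw [zrT, mem_filter] at h4
    exact h4.2.2 c hc hcz
  have d4 : Disjoint (X1 ∪ X2 ∪ X3) X4 := by
    rw [Finset.disjoint_left]
    intro z h1 h2
    obtain ⟨i, hi, h5, h6, h7, h8, _⟩ := hX4m z h2
    rcases mem_union.1 h1 with h | h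
    · have h3 : ∃ c ∈ S.earsT K s A, S.EndOf c z := by
        rcases mem_union.1 h with h | h
        · exact hX1e z h
        · exact hX2e z h
      obtain ⟨c, hc, hcz⟩ := h3
      obtain ⟨e1, e2, e3⟩ := hE c hc
      exact h6 (hF.ear i hi c e1 e2 (e3 i hi) z hcz h8)
    · have h4 : z ∈ S.zrT pt K V s A v := h
      rw [zrT, mem_filter] at h4
      exact h6 (h4.2.1 i hi h8)
  have hsub : X1 ∪ X2 ∪ X3 ∪ X4 ⊆ S.Zr pt K V := by
    intro z hz
    simp only [mem_union] at hz
    rcases hz with ((h | h) | h) | h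
    · exact hEnd z (hX1m z h).1 (hX1e z h)
    · exact hEnd z (hX2m z h).1 (hX2e z h)
    · have h4 : z ∈ S.zrT pt K V s A v := h
      rw [zrT, mem_filter] at h4
      exact h4.1
    · obtain ⟨i, hi, h5, h6, h7, h8, h9⟩ := hX4m z h
      simp only [Zr, mem_filter]
      obtain ⟨c, hc, hcA⟩ := h8
      exact ⟨h9, hF.zV z h7, ⟨c, hc, hF.sub i hi hcA⟩, fun w hw _ => h7 w hw⟩
  have hc := Finset.card_le_card hsub
  rw [Finset.card_union_of_disjoint d4, Finset.card_union_of_disjoint d3,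
    Finset.card_union_of_disjoint d12, hX1, hX2, hX4c] at hc
  have hX3 : X3.card = (S.zrT pt K V s A v).card := rfl
  omega

/-- TORSO INEQUALITY -/
theorem Base.torso_le (hB : Base S pt) {K : Finset I} {V : Sd I → Prop} {ε : ℕ}
    (hK : S.Shape K V ε) {ι : Type} {s : Finset ι} {A : ι → Finset I} {v : ι → Sd I}
    (hF : S.Fam pt K V s A v) :
    (S.candT pt K V s A).card + (S.earsT K s A).card + (S.zrT pt K V s A v).card
      + ∑ i ∈ s, ((S.CP pt (A i) (S.Eqv (v i))).card + 1) ≤ (S.CP pt K V).card + ε := by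
  classical
  have h0 := hB.ident hK
  have h1 := hF.cand_le hK.Vinv
  have h3 := hF.zr_le hB hK.sub hK.Vinv
  have h4 := card_split (S.EarsK K) (fun c => c.1) s A hF.disj
  have h5 : ∀ i ∈ s, ((S.EarsK K).filter (fun c => c.1 ∈ A i)) = S.EarsK (A i) := by
    intro i hi
    ext c
    simp only [EarsK, mem_filter]
    constructor
    · rintro ⟨⟨a1, a2, _⟩, a3⟩
      exact ⟨a1, a2, a3⟩
    · rintro ⟨a1, a2, a3⟩
      exact ⟨⟨a1, a2, hF.sub i hi a3⟩, a3⟩
  rw [Finset.sum_congr rfl (fun i hi => by rw [h5 i hi])] at h4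
  have h6 : (S.earsT K s A).card
      = ((S.EarsK K).filter (fun c => ∀ i ∈ s, c.1 ∉ A i)).card := rfl
  rw [← h6] at h4
  have h7 : ∑ i ∈ s, ((S.CP pt (A i) (S.Eqv (v i))).card + (S.EarsK (A i)).card + 1)
      ≤ ∑ i ∈ s, ((S.CandK pt (A i) (S.Eqv (v i))).card + (S.bv pt (A i) (v i)).card
        + ((S.Zr pt (A i) (S.Eqv (v i))).filter (fun z => ¬ S.BLg pt (A i) (v i) z)).card) := by
    apply Finset.sum_le_sum
    intro i hi
    have e1 := hB.ident (hF.shape i hi)
    have e2 := zr_bl_le (pt := pt) hB.lin (A i) (v i)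
    have e3 := Finset.card_filter_add_card_filter_not (s := S.Zr pt (A i) (S.Eqv (v i)))
      (fun z => S.BLg pt (A i) (v i) z)
    omega
  simp only [Finset.sum_add_distrib] at h1 h3 h4 h7 ⊢
  omega

end Obj

end AG
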